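import Mathlib

/-!
ROW Ia (project MP_78d38b_OD, about 200 lines): parity of the intersections of Lagrangian subgroups (pure linear algebra over the field with two elements).

`Sl r u A = {x | r j x = 0 for j ∉ A, u j x = 0 for j ∈ A}`.
PROOF. STEP 1 (one change). Let `j ∉ A`, `N := {x | for all i ≠ j: the condition of Sl r u A at i}`, `N0 := {x ∈ N | r j x = 0, u j x = 0}`. `Sl r u A = {x ∈ N | r j x = 0}`, `Sl r u (insert j A) = {x ∈ N | u j x = 0}`. For `x ∈ N`: hQ gives `r j x * u j x = 0` (for `i ≠ j` one of the factors is zero), so `N` is the union of the two subgroups, and (a group is not the union of two proper subgroups) `N` is one of them, and the other one is `N0`.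
`Nat.card N = 2 * Nat.card N0`: `≤`: `N0` is the kernel of `r j` or of `u j` on `N`. `≥`: for `i ≠ j` let `κ i := u i` if `i ∈ A`, `r i` if `i ∉ A`, `κ' i` the other one. `N = {y | κ i y = 0 for i ≠ j}`. Polarise hQ: `∑ i, (r i x * u i y + u i x * r i y) = 0`. For `y : Y`, `n ∈ N0`: `∑ i ≠ j, κ i y * κ' i n = 0`. The map `κ' : N0 → ({i // i ≠ j} → ZMod 2)` is injective (hinj), its image is orthogonal to the image of `κ : Y → ({i // i ≠ j} → ZMod 2)`, so
`Nat.card (κ Y) * Nat.card N0 ≤ 2 ^ (card J - 1)` (orthogonal subspaces of `{i // i ≠ j} → ZMod 2`: `dotProduct` is nondegenerate; `Submodule.finrank` of the orthogonal complement, `LinearMap.BilinForm.finrank_orthogonal` or `Matrix` rank, or count: the pairing `κ Y → Dual (κ' N0)` ...). `Nat.card Y = Nat.card N * Nat.card (κ Y)` and `2 ^ card J ≤ Nat.card Y` give `2 * Nat.card N0 ≤ Nat.card N`.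
STEP 2: `Nat.card (Sl r u A) = 2 ^ m` (finite group with `x + x = 0`); by STEP 1 the exponents for `A` and `insert j A` differ by exactly one. Induction on `A`.
-/

set_option autoImplicit false
open scoped Classical

namespace H88OD

/-- The intersection of two Lagrangian subgroups. -/
def Sl {Y J : Type} [AddCommGroup Y] (r u : J → Y →+ ZMod 2) (A : Finset J) : Set Y :=
  {x | (∀ j, j ∉ A → r j x = 0) ∧ ∀ j ∈ A, u j x = 0}

section

variable {Y : Type} [AddCommGroup Y] [Module (ZMod 2) Y] [Finite Y] {J : Type} [Fintype J]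

private theorem Ia_le (N : Submodule (ZMod 2) Y) (f : Y →ₗ[ZMod 2] ZMod 2) :
    Module.finrank (ZMod 2) N ≤
      Module.finrank (ZMod 2) (N ⊓ LinearMap.ker f : Submodule (ZMod 2) Y) + 1 := by
  have h1 := Submodule.finrank_sup_add_finrank_inf_eq N (LinearMap.ker f)
  have h2 := LinearMap.finrank_range_add_finrank_ker f
  have h3 : Module.finrank (ZMod 2) (LinearMap.range f) ≤ 1 :=
    (Submodule.finrank_le _).trans (Module.finrank_self (ZMod 2)).le
  have h4 : Module.finrank (ZMod 2) (N ⊔ LinearMap.ker f : Submodule (ZMod 2) Y) ≤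
      Module.finrank (ZMod 2) Y := Submodule.finrank_le _
  omega

private theorem Ia_ge (k k' : J → Y →ₗ[ZMod 2] ZMod 2)
    (hQ : ∀ x, ∑ i, k i x * k' i x = 0)
    (hinj : ∀ x, (∀ i, k i x = 0) → (∀ i, k' i x = 0) → x = 0)
    (hc : Fintype.card J ≤ Module.finrank (ZMod 2) Y) (j : J) (N N0 : Submodule (ZMod 2) Y)
    (hN : ∀ x, x ∈ N ↔ ∀ i, i ≠ j → k i x = 0)
    (hN0 : ∀ x, x ∈ N0 ↔ x ∈ N ∧ k j x = 0 ∧ k' j x = 0) :
    Module.finrank (ZMod 2) N0 + 1 ≤ Module.finrank (ZMod 2) N := by
  -- polarisation
  have hP : ∀ x y, ∑ i, (k i y * k' i x + k i x * k' i y) = 0 := by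
    intro x y
    have h1 := hQ (x + y)
    have h2 : ∀ i, k i (x + y) * k' i (x + y) =
        k i x * k' i x + k i y * k' i y + (k i y * k' i x + k i x * k' i y) := by
      intro i
      rw [map_add, map_add]
      ring
    rw [Finset.sum_congr rfl fun i _ => h2 i, Finset.sum_add_distrib, Finset.sum_add_distrib,
      hQ x, hQ y, add_zero, zero_add] at h1
    exact h1
  obtain ⟨K, hK⟩ : ∃ K : Y →ₗ[ZMod 2] ({i : J // i ≠ j} → ZMod 2), ∀ y i, K y i = k i y :=
    ⟨LinearMap.pi fun i => k i, fun _ _ => rfl⟩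
  obtain ⟨T, hT⟩ : ∃ T : Y →ₗ[ZMod 2] Module.Dual (ZMod 2) ({i : J // i ≠ j} → ZMod 2),
      ∀ y w, T y w = ∑ i : {i : J // i ≠ j}, k' i y * w i := by
    refine ⟨∑ i : {i : J // i ≠ j}, (k' i).smulRight (LinearMap.proj i), fun y w => ?_⟩
    rw [LinearMap.sum_apply, LinearMap.sum_apply]
    rfl
  have hsum : ∀ f : J → ZMod 2, ∑ i, f i = f j + ∑ i : {i : J // i ≠ j}, f i := by
    intro f
    rw [← Finset.add_sum_erase Finset.univ f (Finset.mem_univ j)]
    congr 1
    refine Finset.sum_subtype _ (fun i => ?_) f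
    rw [Finset.mem_erase]
    exact ⟨fun h => h.1, fun h => ⟨h, Finset.mem_univ i⟩⟩
  have hker : LinearMap.ker K = N := by
    ext x
    rw [LinearMap.mem_ker, hN]
    constructor
    · intro h i hi
      have h1 := congrFun h ⟨i, hi⟩
      rw [hK] at h1
      exact h1
    · intro h
      funext i
      rw [hK]
      exact h i i.2
  have h1 := LinearMap.finrank_range_add_finrank_ker K
  rw [hker] at h1
  have h2 := Subspace.finrank_add_finrank_dualAnnihilator_eq (LinearMap.range K)
  rw [Module.finrank_fintype_fun_eq_card] at h2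
  have h3 : Fintype.card {i : J // i ≠ j} + 1 = Fintype.card J := by
    have h4 := Fintype.card_subtype_compl (fun i => i = j)
    rw [Fintype.card_subtype_eq] at h4
    have h5 : 0 < Fintype.card J := Fintype.card_pos_iff.2 ⟨j⟩
    have h6 : Fintype.card {i : J // i ≠ j} = Fintype.card {i : J // ¬ i = j} :=
      Fintype.card_congr (Equiv.refl _)
    omega
  have h4 : Module.finrank (ZMod 2) N0 ≤
      Module.finrank (ZMod 2) (LinearMap.range K).dualAnnihilator := by
    have h5 : ∀ x : N0, (T.domRestrict N0) x ∈ (LinearMap.range K).dualAnnihilator := by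
      rintro ⟨x, hx⟩
      rw [Submodule.mem_dualAnnihilator]
      rintro w ⟨y, rfl⟩
      rw [LinearMap.domRestrict_apply, hT]
      have h6 := hP x y
      rw [hN0, hN] at hx
      obtain ⟨hx1, hx2, hx3⟩ := hx
      rw [hsum, hx2, hx3, mul_zero, zero_mul, add_zero, zero_add] at h6
      rw [← h6]
      refine Finset.sum_congr rfl fun i _ => ?_
      rw [hK, hx1 i i.2, zero_mul, add_zero, mul_comm]
    refine LinearMap.finrank_le_finrank_of_injective
      (f := (T.domRestrict N0).codRestrict _ h5) ?_
    refine LinearMap.ker_eq_bot.1 ?_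
    rw [LinearMap.ker_codRestrict, LinearMap.ker_eq_bot']
    rintro ⟨x, hx⟩ h6
    rw [LinearMap.domRestrict_apply] at h6
    rw [Submodule.mk_eq_zero]
    rw [hN0, hN] at hx
    obtain ⟨hx1, hx2, hx3⟩ := hx
    refine hinj x (fun i => ?_) fun i => ?_
    · by_cases hi : i = j
      · rw [hi, hx2]
      · exact hx1 i hi
    · by_cases hi : i = j
      · rw [hi, hx3]
      · have h7 := LinearMap.congr_fun h6 (Pi.single ⟨i, hi⟩ 1)
        rw [hT, Finset.sum_eq_single (⟨i, hi⟩ : {i : J // i ≠ j}), Pi.single_eq_same, mul_one,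
          LinearMap.zero_apply] at h7
        · exact h7
        · intro b _ hb
          rw [Pi.single_eq_of_ne hb, mul_zero]
        · intro h
          exact absurd (Finset.mem_univ _) h
  omega

private theorem Ia_step (k k' : J → Y →ₗ[ZMod 2] ZMod 2)
    (hQ : ∀ x, ∑ i, k i x * k' i x = 0)
    (hinj : ∀ x, (∀ i, k i x = 0) → (∀ i, k' i x = 0) → x = 0)
    (hc : Fintype.card J ≤ Module.finrank (ZMod 2) Y) (j : J) (S S' : Submodule (ZMod 2) Y)
    (hS : ∀ x, x ∈ S ↔ ∀ i, k i x = 0)
    (hS' : ∀ x, x ∈ S' ↔ (∀ i, i ≠ j → k i x = 0) ∧ k' j x = 0) :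
    Odd (Module.finrank (ZMod 2) S + Module.finrank (ZMod 2) S') := by
  obtain ⟨N, hN⟩ : ∃ N : Submodule (ZMod 2) Y, ∀ x, x ∈ N ↔ ∀ i, i ≠ j → k i x = 0 := by
    refine ⟨⨅ i : {i : J // i ≠ j}, LinearMap.ker (k i), fun x => ?_⟩
    rw [Submodule.mem_iInf]
    exact ⟨fun h i hi => h ⟨i, hi⟩, fun h i => h i i.2⟩
  have h1 : ∀ x, x ∈ N → k j x * k' j x = 0 := by
    intro x hx
    rw [hN] at hx
    have h2 := hQ x
    rw [Finset.sum_eq_single j] at h2
    · exact h2
    · intro b _ hb
      rw [hx b hb, zero_mul]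
    · intro h
      exact absurd (Finset.mem_univ _) h
  have hSN : S = N ⊓ LinearMap.ker (k j) := by
    ext x
    rw [Submodule.mem_inf, hS, hN, LinearMap.mem_ker]
    constructor
    · intro h
      exact ⟨fun i _ => h i, h j⟩
    · rintro ⟨h, h'⟩ i
      by_cases hi : i = j
      · rw [hi, h']
      · exact h i hi
  have hSN' : S' = N ⊓ LinearMap.ker (k' j) := by
    ext x
    rw [Submodule.mem_inf, hS', hN, LinearMap.mem_ker]
  have h2 : N ≤ LinearMap.ker (k j) ∨ N ≤ LinearMap.ker (k' j) := by
    by_contra hcon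
    rw [not_or, SetLike.not_le_iff_exists, SetLike.not_le_iff_exists] at hcon
    obtain ⟨⟨x, hx, hx'⟩, ⟨y, hy, hy'⟩⟩ := hcon
    rw [LinearMap.mem_ker] at hx' hy'
    have e1 := h1 x hx
    have e2 := h1 y hy
    have e3 := h1 (x + y) (N.add_mem hx hy)
    rw [map_add, map_add] at e3
    have e4 : ∀ a b c d : ZMod 2, ¬ a = 0 → ¬ d = 0 → a * b = 0 → c * d = 0 →
        (a + c) * (b + d) = 0 → False := by decide
    exact e4 _ _ _ _ hx' hy' e1 e2 e3
  rcases h2 with h2 | h2
  · have h3 : S = N := by rw [hSN, inf_eq_left.2 h2]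
    have h4 := Ia_le N (k' j)
    rw [← hSN'] at h4
    have h5 := Ia_ge k k' hQ hinj hc j N S' hN (fun x => by
      rw [hSN', Submodule.mem_inf, LinearMap.mem_ker]
      exact ⟨fun h => ⟨h.1, h2 h.1, h.2⟩, fun h => ⟨h.1, h.2.2⟩⟩)
    rw [h3]
    exact ⟨Module.finrank (ZMod 2) S', by omega⟩
  · have h3 : S' = N := by rw [hSN', inf_eq_left.2 h2]
    have h4 := Ia_le N (k j)
    rw [← hSN] at h4
    have h5 := Ia_ge k k' hQ hinj hc j N S hN (fun x => by
      rw [hSN, Submodule.mem_inf, LinearMap.mem_ker]
      exact ⟨fun h => ⟨h.1, h.2, h2 h.1⟩, fun h => ⟨h.1, h.2.1⟩⟩)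
    rw [h3]
    exact ⟨Module.finrank (ZMod 2) S, by omega⟩

end

theorem parity {Y : Type} [AddCommGroup Y] [Finite Y] (h2 : ∀ x : Y, x + x = 0) {J : Type}
    [Fintype J] (r u : J → Y →+ ZMod 2) (hQ : ∀ x, ∑ j, r j x * u j x = 0)
    (hinj : ∀ x, (∀ j, r j x = 0) → (∀ j, u j x = 0) → x = 0)
    (hcard : 2 ^ Fintype.card J ≤ Nat.card Y) (A : Finset J) :
    ∃ m n : ℕ, Nat.card (Sl r u ∅) = 2 ^ m ∧ Nat.card (Sl r u A) = 2 ^ n ∧
      Even (m + n + A.card) := by
  let _ : Module (ZMod 2) Y := AddCommGroup.zmodModule (n := 2) fun x => by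
    rw [two_nsmul]
    exact h2 x
  obtain ⟨r', hr'⟩ : ∃ r' : J → Y →ₗ[ZMod 2] ZMod 2, ∀ j x, r' j x = r j x :=
    ⟨fun j => (r j).toZModLinearMap 2, fun _ _ => rfl⟩
  obtain ⟨u', hu'⟩ : ∃ u' : J → Y →ₗ[ZMod 2] ZMod 2, ∀ j x, u' j x = u j x :=
    ⟨fun j => (u j).toZModLinearMap 2, fun _ _ => rfl⟩
  have hc : Fintype.card J ≤ Module.finrank (ZMod 2) Y := by
    rw [Module.natCard_eq_pow_finrank (K := ZMod 2), Nat.card_zmod] at hcard
    exact (Nat.pow_le_pow_iff_right (by norm_num)).1 hcard
  have hex : ∀ A : Finset J, ∃ S : Submodule (ZMod 2) Y, (S : Set Y) = Sl r u A := by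
    intro A
    refine ⟨⨅ j : J, LinearMap.ker (if j ∈ A then u' j else r' j), ?_⟩
    ext x
    rw [SetLike.mem_coe, Submodule.mem_iInf]
    constructor
    · intro h
      refine ⟨fun j hj => ?_, fun j hj => ?_⟩
      · have h1 := h j
        rwa [if_neg hj, LinearMap.mem_ker, hr'] at h1
      · have h1 := h j
        rwa [if_pos hj, LinearMap.mem_ker, hu'] at h1
    · rintro ⟨h1, h3⟩ j
      rw [LinearMap.mem_ker]
      by_cases hj : j ∈ A
      · rw [if_pos hj, hu']
        exact h3 j hj
      · rw [if_neg hj, hr']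
        exact h1 j hj
  choose S hS using hex
  have hcd : ∀ A, Nat.card (Sl r u A) = 2 ^ Module.finrank (ZMod 2) (S A) := by
    intro A
    have h1 := Module.natCard_eq_pow_finrank (K := ZMod 2) (V := S A)
    rw [Nat.card_zmod] at h1
    rw [← h1, ← hS A]
    rfl
  refine ⟨_, _, hcd ∅, hcd A, ?_⟩
  induction A using Finset.induction_on with
  | empty =>
    rw [Finset.card_empty, add_zero]
    exact ⟨_, rfl⟩
  | insert j A hj ih =>
    have h1 : ∀ i x, (if i ∈ A then u' i else r' i) x * (if i ∈ A then r' i else u' i) x =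
        r i x * u i x := by
      intro i x
      by_cases hi : i ∈ A
      · rw [if_pos hi, if_pos hi, hr', hu', mul_comm]
      · rw [if_neg hi, if_neg hi, hr', hu']
    have h3 := Ia_step (fun i => if i ∈ A then u' i else r' i)
      (fun i => if i ∈ A then r' i else u' i)
      (fun x => by
        rw [← hQ x]
        exact Finset.sum_congr rfl fun i _ => h1 i x)
      (fun x h h' => by
        refine hinj x (fun i => ?_) fun i => ?_
        · by_cases hi : i ∈ A
          · have h4 := h' i
            simp only [if_pos hi] at h4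
            rwa [hr'] at h4
          · have h4 := h i
            simp only [if_neg hi] at h4
            rwa [hr'] at h4
        · by_cases hi : i ∈ A
          · have h4 := h i
            simp only [if_pos hi] at h4
            rwa [hu'] at h4
          · have h4 := h' i
            simp only [if_neg hi] at h4
            rwa [hu'] at h4) hc j (S A) (S (insert j A))
      (fun x => by
        rw [← SetLike.mem_coe, hS]
        constructor
        · rintro ⟨h4, h5⟩ i
          by_cases hi : i ∈ A
          · simp only [if_pos hi]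
            rw [hu']
            exact h5 i hi
          · simp only [if_neg hi]
            rw [hr']
            exact h4 i hi
        · intro h4
          refine ⟨fun i hi => ?_, fun i hi => ?_⟩
          · have h5 := h4 i
            simp only [if_neg hi] at h5
            rwa [hr'] at h5
          · have h5 := h4 i
            simp only [if_pos hi] at h5
            rwa [hu'] at h5)
      (fun x => by
        rw [← SetLike.mem_coe, hS]
        simp only [if_neg hj]
        rw [hu']
        constructor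
        · rintro ⟨h4, h5⟩
          refine ⟨fun i hi => ?_, h5 j (Finset.mem_insert_self j A)⟩
          by_cases hi' : i ∈ A
          · rw [if_pos hi', hu']
            exact h5 i (Finset.mem_insert_of_mem hi')
          · rw [if_neg hi', hr']
            refine h4 i fun h6 => ?_
            rcases Finset.mem_insert.1 h6 with h7 | h7
            · exact hi h7
            · exact hi' h7
        · rintro ⟨h4, h5⟩
          refine ⟨fun i hi => ?_, fun i hi => ?_⟩
          · have hi1 : i ≠ j := by
              rintro rfl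
              exact hi (Finset.mem_insert_self _ _)
            have hi2 : i ∉ A := fun h => hi (Finset.mem_insert_of_mem h)
            have h6 := h4 i hi1
            rwa [if_neg hi2, hr'] at h6
          · rcases Finset.mem_insert.1 hi with h7 | h7
            · rw [h7]
              exact h5
            · have h6 := h4 i (by
                rintro rfl
                exact hj h7)
              rwa [if_pos h7, hu'] at h6)
    rw [Finset.card_insert_of_notMem hj]
    obtain ⟨a, ha⟩ := h3
    obtain ⟨b, hb⟩ := ih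
    have h5 : Module.finrank (ZMod 2) (S ∅) + Module.finrank (ZMod 2) (S (insert j A)) +
        (A.card + 1) = 2 * (a + b + 1 - Module.finrank (ZMod 2) (S A)) := by omega
    rw [h5]
    exact even_two_mul _

end H88OD
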