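import Pool.Agent.H88.OD.Rc
import Pool.Agent.H30.ZO.Ac
import Pool.Agent.H30.ZO.Gc
import Pool.Agent.H88.T7.Un
import Pool.Agent.H36.MX.Fi
import Pool.Agent.H30.MQ.Cg

/-!
ROW Ib (project MP_78d38b_OD, about 300 lines): duality for the square classes of a number field (existence of an element with given local behaviour).

exists_cl: choose for every ideal class a prime in this class (there are infinitely many; `ClassGroup`: every class contains a prime: Pool has `exists_prime_class`?; otherwise: choose for every class an integral ideal and let `Sg` contain all its prime factors). For `p ∉ Sg` the inverse of the class of `p` is the class of an ideal `I` whose prime factors are in `Sg`: `p * I = (π)`, `π ∈ 𝓞 K`. So `ord π = 1` at `p`, and `π` is a unit outside `Sg ∪ {p}`.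
exists_delta. `B := H24TD.US K Sg` (classes of `Sg`-units), `Nat.card B = 2 ^ s'`, `s' = Sg.card + r1 + r2` (`H88T7.card_US7`, Pool/Agent/H88/T7/Un.lean). `N0 := {c ∈ SC K | c ∈ Sq v for v ∈ Sg, si s c = 0 for all real s}`: its index is at most `∏ v ∈ Sg, (Sq v).index * 2 ^ r1 = ∏ 4 qq v * 2 ^ r1 = 4 ^ Sg.card * 2 ^ [K:ℚ] * 2 ^ r1 = 2 ^ (2 s')` (`H30ZO.index_Sq`, `H30ZO.prod_two`; the index of an intersection is at most the product of the indices; `[K:ℚ] = r1 + 2 r2`).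
Pairing: for `x, y : SC K` put `h x y := ∑ v ∈ Sg, hsv v (rep x) (rep y) + ∑ s, si s x * si s y`: biadditive (`(hilb K).hf v` is `HF (completion)`: `HF.mul`; hs of classes: `hsc`, Pool/Agent/H36/MX/Hh.lean). Product formula `(hilb K).prod` (`BB = 0`, `BB a b = ∑ᶠ v, hsv v a b + ∑ s, si s (sc a) * si s (sc b)`) and at `v ∉ Sg` (odd): `(hilb K).odd : hsv v a b = tp v (sc a) (sc b)`, the tame symbol: zero if both have even order, `la v y` if `x` has odd order and `y` is a unit.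
(1) `β ∈ B` with `h x β = 0` for all `x` is zero: for `p ∉ Sg` take `x = sc π_p` (hcl): `h x β = tp p (sc π_p) β = la p β` by the product formula, so `la p β = 0` for all `p ∉ Sg`; if `β ≠ 0` then `H30MQ.exists_places` with a functional `φ` with `φ β = 1` gives infinitely many `p` with `la p β = 1`, a contradiction. In particular `B ⊓ N0 = ⊥` (for `β ∈ N0` `h x β = 0` for all `x`).
(2) `B ⊔ N0 ≤ B^⊥ := {x | h x β = 0 for all β ∈ B}` (for `β, β' ∈ B`: `h β β' = 0` by the product formula, both are even outside `Sg`). The index of `B ⊔ N0` is `(index N0) / (card B) ≤ 2 ^ s'` (second isomorphism theorem, B ⊓ N0 = ⊥). The index of `B^⊥` is `card B = 2 ^ s'`: the map `SC K → (B → ZMod 2)`, `x ↦ h x`, has kernel `B^⊥`, and its image (additive functionals on `B`) separates the points of `B` by (1), so it is all of `Hom(B, ZMod 2)` (finite vector spaces over `ZMod 2`). Hence `B ⊔ N0 = B^⊥`.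
(3) Choose `τ ∈ K` which is a square at all `v ∈ Sg` and has the signs `t` (weak approximation: approximate `1` at `v ∈ Sg` to high order, and the signs at the real places; H30OD.weak_app or the pool: grep `approx`, `sign`; e.g. `τ = 1 + 8 N x`-type elements, see Pool/Agent/H30/ZO/Ra.lean, Pool/Agent/H76/PP). `x := ∑ q ∈ T, sc π_q + sc τ`. For `β ∈ B`: `h x β = ∑ q ∈ T, la q β + ∑ s, t s * si s β = 0` by the hypothesis. So `x = β + ν`, `β ∈ B`, `ν ∈ N0`. `δ := (∏ q ∈ T, π_q) * u`, `u` an `Sg`-unit with class `β` (definition of US: `H24TD.US`, `SUa`, `cls` in Pool/Agent/H24/TD/Dg.lean).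
Then `sc δ + sc τ = ν ∈ N0` (up to `c + c = 0`), so `δ τ` is a square at `v ∈ Sg`, hence `δ` is; `si s (sc δ) = si s (sc τ) = t s`. `ord_q δ = 1` for `q ∈ T`, and `δ` is a unit outside `T ∪ Sg`.
-/

set_option autoImplicit false
set_option linter.unusedSectionVars false
open scoped Classical

open WithZero NumberField IsDedekindDomain H38RT
open H38T1 (SC sc scu rep eo la si OddP)

namespace H88OD

/-- Every prime outside `Sg` is principal up to the primes in `Sg`. -/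
def ClOk (K : Type) [Field K] [NumberField K] (Sg : Finset (HeightOneSpectrum (𝓞 K))) : Prop :=
  ∀ p : HeightOneSpectrum (𝓞 K), p ∉ Sg → ∃ π : K, π ≠ 0 ∧ ord (p.valuation K) π = 1 ∧
    ∀ u : HeightOneSpectrum (𝓞 K), u ∉ Sg → u ≠ p → u.valuation K π = 1

section Abs

lemma Ib_dual {M : Type} [AddCommGroup M] [Finite M] (h2 : ∀ m : M, m + m = 0) :
    Nat.card (M →+ ZMod 2) = Nat.card M := by
  let _ : Module (ZMod 2) M := AddCommGroup.zmodModule (n := 2) (fun x => by rw [two_nsmul, h2])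
  have hp : Fact (Nat.Prime 2) := ⟨Nat.prime_two⟩
  have _ : Module.Finite (ZMod 2) M := Module.Finite.of_finite
  have e : (M →+ ZMod 2) ≃ Module.Dual (ZMod 2) M :=
    (AddMonoidHom.toZModLinearMapEquiv (n := 2) (M := M) (M₁ := ZMod 2)).toEquiv
  rw [Nat.card_congr e, Module.natCard_eq_pow_finrank (K := ZMod 2),
    Module.natCard_eq_pow_finrank (K := ZMod 2) (V := M), Subspace.dual_finrank_eq]

lemma Ib_sep {M : Type} [AddCommGroup M] (h2 : ∀ m : M, m + m = 0) {m : M} (hm : m ≠ 0) :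
    ∃ φ : M →+ ZMod 2, φ m = 1 := by
  by_contra hcon
  push Not at hcon
  apply hm
  have h3 : ∀ a : ZMod 2, a ≠ 1 → a = 0 := by decide
  let _ : Module (ZMod 2) M := AddCommGroup.zmodModule (n := 2) (fun x => by rw [two_nsmul, h2])
  have hp : Fact (Nat.Prime 2) := ⟨Nat.prime_two⟩
  rw [← Module.forall_dual_apply_eq_zero_iff (ZMod 2) m]
  intro f
  exact h3 _ (hcon f.toAddMonoidHom)

/-- Duality for a pairing. -/
theorem Ib_abs {A Lc : Type} [AddCommGroup A] [AddCommGroup Lc] [Finite Lc]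
    (h2 : ∀ x : A, x + x = 0) (loc : A →+ Lc) (B : AddSubgroup A) (P : A → A → ZMod 2)
    (hl : ∀ x x' y, P (x + x') y = P x y + P x' y) (hr : ∀ x y y', P x (y + y') = P x y + P x y')
    (h1 : ∀ β ∈ B, (∀ x, P x β = 0) → β = 0) (hBB : ∀ β ∈ B, ∀ β' ∈ B, P β β' = 0)
    (h3 : ∀ x, loc x = 0 → ∀ β ∈ B, P x β = 0) (h4 : ∀ β ∈ B, loc β = 0 → ∀ x, P x β = 0)
    (hcard : Nat.card Lc ≤ Nat.card B ^ 2) (hBf : Finite B) :
    Function.Surjective loc ∧ ∀ x, (∀ β ∈ B, P x β = 0) → ∃ β ∈ B, loc x = loc β := by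
  have hr0 : ∀ x, P x 0 = 0 := by
    intro x
    have h := hr x 0 0
    rw [add_zero] at h
    exact left_eq_add.1 h
  have hl0 : ∀ y, P 0 y = 0 := by
    intro y
    have h := hl 0 0 y
    rw [add_zero] at h
    exact left_eq_add.1 h
  have hB2 : ∀ β : B, β + β = 0 := fun β => Subtype.ext (h2 (β : A))
  let Φ : A →+ (B →+ ZMod 2) :=
    { toFun := fun x =>
        { toFun := fun β => P x β
          map_zero' := hr0 x
          map_add' := fun β β' => hr x β β' }
      map_zero' := by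
        ext β
        exact hl0 β
      map_add' := fun x x' => by
        ext β
        exact hl x x' β }
  have hΦ : ∀ x (β : B), Φ x β = P x β := fun _ _ => rfl
  have hBs : Finite (B →+ ZMod 2) := Finite.of_injective (fun φ => (φ : B → ZMod 2))
    DFunLike.coe_injective
  have hPf : Finite Φ.range := inferInstance
  have hP2 : ∀ f : Φ.range, f + f = 0 := by
    intro f
    apply Subtype.ext
    ext β
    exact CharTwo.add_self_eq_zero ((f : B →+ ZMod 2) β)
  -- the range has at least as many elements as `B`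
  have hge : Nat.card B ≤ Nat.card Φ.range := by
    rw [← Ib_dual hP2]
    have _ : Finite (Φ.range →+ ZMod 2) := Finite.of_injective
      (fun φ => (φ : Φ.range → ZMod 2)) DFunLike.coe_injective
    let ι : B → (Φ.range →+ ZMod 2) := fun β =>
      { toFun := fun f => (f : B →+ ZMod 2) β
        map_zero' := rfl
        map_add' := fun _ _ => rfl }
    refine Nat.card_le_card_of_injective ι ?_
    intro β β' hββ
    have h5 : ∀ x, P x ((β : A) - β') = 0 := by
      intro x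
      have h6 := DFunLike.congr_fun hββ ⟨Φ x, x, rfl⟩
      change P x β = P x β' at h6
      have h7 := hr x ((β : A) - β') β'
      rw [sub_add_cancel, h6] at h7
      exact right_eq_add.1 h7
    have h8 := h1 _ (B.sub_mem β.2 β'.2) h5
    exact Subtype.ext (sub_eq_zero.1 h8)
  have hle1 : B.map loc ≤ Φ.ker.map loc := by
    refine AddSubgroup.map_mono fun β hβ => ?_
    rw [AddMonoidHom.mem_ker]
    ext β'
    exact hBB β hβ β' β'.2
  have hinj : Nat.card (B.map loc) = Nat.card B := by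
    have e : B ≃ (B.map loc) := Equiv.ofBijective (fun β => ⟨loc β, β, β.2, rfl⟩) (by
      constructor
      · intro β β' h
        have h5 : loc ((β : A) - β') = 0 := by
          rw [map_sub, sub_eq_zero]
          exact congrArg Subtype.val h
        have h6 := h1 _ (B.sub_mem β.2 β'.2) (h4 _ (B.sub_mem β.2 β'.2) h5)
        exact Subtype.ext (sub_eq_zero.1 h6)
      · rintro ⟨_, β, hβ, rfl⟩
        exact ⟨⟨β, hβ⟩, rfl⟩)
    exact (Nat.card_congr e).symm
  have hN : loc.ker ≤ Φ.ker := by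
    intro x hx
    rw [AddMonoidHom.mem_ker] at hx ⊢
    ext β
    exact h3 x hx β β.2
  have hidx := AddSubgroup.relIndex_mul_index hN
  rw [AddSubgroup.relIndex_ker, AddSubgroup.index_ker, AddSubgroup.index_ker] at hidx
  have hrl : Nat.card loc.range ≤ Nat.card Lc := Nat.card_le_card_of_injective _ Subtype.val_injective
  have hBpos : 0 < Nat.card B := Nat.card_pos
  have hmap : Nat.card (B.map loc) ≤ Nat.card (Φ.ker.map loc) :=
    Nat.card_le_card_of_injective (AddSubgroup.inclusion hle1) (AddSubgroup.inclusion_injective hle1)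
  rw [hinj] at hmap
  have hprod : Nat.card B * Nat.card B ≤ Nat.card (Φ.ker.map loc) * Nat.card Φ.range :=
    Nat.mul_le_mul hmap hge
  have hup : Nat.card (Φ.ker.map loc) * Nat.card Φ.range ≤ Nat.card B * Nat.card B := by
    rw [hidx, ← sq]
    exact hrl.trans hcard
  have hK : Nat.card (Φ.ker.map loc) ≤ Nat.card B := by
    by_contra h
    push Not at h
    have h5 : Nat.card B * Nat.card B < Nat.card (Φ.ker.map loc) * Nat.card Φ.range :=
      Nat.mul_lt_mul_of_lt_of_le h hge (lt_of_lt_of_le hBpos hge)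
    omega
  have heq : B.map loc = Φ.ker.map loc :=
    AddSubgroup.eq_of_le_of_card_ge hle1 (by rw [hinj]; exact hK)
  refine ⟨?_, ?_⟩
  · have h5 : Nat.card Lc ≤ Nat.card loc.range := by
      rw [← hidx]
      exact hcard.trans (by rw [sq]; exact hprod)
    rw [← AddMonoidHom.range_eq_top]
    exact AddSubgroup.eq_top_of_card_eq _ (le_antisymm hrl h5)
  · intro x hx
    have h5 : loc x ∈ Φ.ker.map loc := ⟨x, by
      rw [SetLike.mem_coe, AddMonoidHom.mem_ker]
      ext β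
      exact hx β β.2, rfl⟩
    rw [← heq] at h5
    obtain ⟨β, hβ, h6⟩ := h5
    exact ⟨β, hβ, h6.symm⟩

end Abs

theorem exists_cl {K : Type} [Field K] [NumberField K] (Sg0 : Finset (HeightOneSpectrum (𝓞 K))) :
    ∃ Sg : Finset (HeightOneSpectrum (𝓞 K)), Sg0 ⊆ Sg ∧ ∀ Sg', Sg ⊆ Sg' → ClOk K Sg' := by
  let sec : Set.range (Rc_cls (M := K)) → HeightOneSpectrum (𝓞 K) := fun k => k.2.choose
  have hsec : ∀ k, Rc_cls (sec k) = k.1 := fun k => k.2.choose_spec
  have hfin : (Set.range sec).Finite := Set.finite_range sec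
  refine ⟨Sg0 ∪ hfin.toFinset, Finset.subset_union_left, fun Sg' hSg p hp => ?_⟩
  obtain ⟨z, hz, hord⟩ := Rc_z p (sec ⟨Rc_cls p, p, rfl⟩) (hsec ⟨Rc_cls p, p, rfl⟩).symm
  have hw : sec ⟨Rc_cls p, p, rfl⟩ ∈ Sg' := by
    apply hSg
    rw [Finset.mem_union, Set.Finite.mem_toFinset]
    exact Or.inr ⟨_, rfl⟩
  refine ⟨z, hz, ?_, fun u hu hup => ?_⟩
  · rw [hord, if_pos rfl, if_neg, sub_zero]
    intro h
    rw [← h] at hw
    exact hp hw
  · refine Rc_val_one _ hz ?_
    rw [hord, if_neg hup, if_neg, sub_zero]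
    intro h
    rw [← h] at hw
    exact hu hw

section Pair

variable {K : Type} [Field K] [NumberField K]

/-- The local homomorphism of square classes. -/
noncomputable def Ib_lo (v : HeightOneSpectrum (𝓞 K)) : SC K →+ SC (v.adicCompletion K) :=
  H76PP.scm (algebraMap K (v.adicCompletion K) : K →* v.adicCompletion K)

lemma Ib_lo_sc (v : HeightOneSpectrum (𝓞 K)) {x : K} (hx : x ≠ 0) :
    Ib_lo v (sc x) = sc (algebraMap K (v.adicCompletion K) x) := H76PP.scm_sc _ hx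

/-- The pairing. -/
noncomputable def Ib_P (Sg : Finset (HeightOneSpectrum (𝓞 K))) (x y : SC K) : ZMod 2 :=
  ∑ v ∈ Sg, H36MX.hsc (Ib_lo v x) (Ib_lo v y) + ∑ s : K →+* ℝ, si s x * si s y

lemma Ib_P_comm (Sg : Finset (HeightOneSpectrum (𝓞 K))) (x y : SC K) :
    Ib_P Sg x y = Ib_P Sg y x := by
  unfold Ib_P
  congr 1
  · exact Finset.sum_congr rfl fun v _ => H36MX.hsc_comm _ _
  · exact Finset.sum_congr rfl fun s _ => mul_comm _ _

lemma Ib_P_left (Sg : Finset (HeightOneSpectrum (𝓞 K))) (x x' y : SC K) :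
    Ib_P Sg (x + x') y = Ib_P Sg x y + Ib_P Sg x' y := by
  unfold Ib_P
  have h1 : ∑ v ∈ Sg, H36MX.hsc (Ib_lo v (x + x')) (Ib_lo v y) =
      ∑ v ∈ Sg, H36MX.hsc (Ib_lo v x) (Ib_lo v y) + ∑ v ∈ Sg, H36MX.hsc (Ib_lo v x') (Ib_lo v y) := by
    rw [← Finset.sum_add_distrib]
    refine Finset.sum_congr rfl fun v _ => ?_
    rw [map_add, H36MX.hsc_add_left ((H36MX.hilb K).hf v)]
  have h2 : ∑ s : K →+* ℝ, si s (x + x') * si s y =
      ∑ s : K →+* ℝ, si s x * si s y + ∑ s : K →+* ℝ, si s x' * si s y := by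
    rw [← Finset.sum_add_distrib]
    refine Finset.sum_congr rfl fun s _ => ?_
    rw [H38T1.si_add, add_mul]
  rw [h1, h2]
  ring

lemma Ib_P_right (Sg : Finset (HeightOneSpectrum (𝓞 K))) (x y y' : SC K) :
    Ib_P Sg x (y + y') = Ib_P Sg x y + Ib_P Sg x y' := by
  rw [Ib_P_comm, Ib_P_left, Ib_P_comm Sg y, Ib_P_comm Sg y']

/-- The product formula. -/
lemma Ib_prod {Sg : Finset (HeightOneSpectrum (𝓞 K))}
    (h2 : ∀ v : HeightOneSpectrum (𝓞 K), v ∉ Sg → v.valuation K 2 = 1)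
    (T : Finset (HeightOneSpectrum (𝓞 K))) (hT : ∀ q ∈ T, q ∉ Sg) (x y : SC K)
    (h : ∀ v, v ∉ Sg → v ∉ T → eo v x = 0 ∧ eo v y = 0) :
    Ib_P Sg x y = ∑ v ∈ T, H38T1.tp v x y := by
  obtain ⟨a, ha, rfl⟩ := H38T1.sc_surj x
  obtain ⟨b, hb, rfl⟩ := H38T1.sc_surj y
  have h3 := (H36MX.hilb K).prod a b ha hb
  unfold H36MX.BB at h3
  have h4 : ∀ v, v ∉ Sg → H36MX.hsv v a b = H38T1.tp v (sc a) (sc b) := fun v hv =>
    (H36MX.hilb K).odd v (h2 v hv) a b ha hb
  have hsup : Function.support (fun v : HeightOneSpectrum (𝓞 K) => H36MX.hsv v a b) ⊆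
      ((Sg ∪ T : Finset (HeightOneSpectrum (𝓞 K))) : Set (HeightOneSpectrum (𝓞 K))) := by
    intro v hv
    by_contra hcon
    rw [Finset.mem_coe, Finset.mem_union, not_or] at hcon
    apply hv
    obtain ⟨h5, h6⟩ := h v hcon.1 hcon.2
    change H36MX.hsv v a b = 0
    rw [h4 v hcon.1]
    unfold H38T1.tp
    rw [h5, h6]
    ring
  have hdis : Disjoint Sg T := by
    rw [Finset.disjoint_left]
    intro v hv hvT
    exact hT v hvT hv
  rw [finsum_eq_sum_of_support_subset _ hsup, Finset.sum_union hdis,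
    Finset.sum_congr rfl fun v hv => h4 v (hT v hv)] at h3
  unfold Ib_P
  have h5 : ∑ v ∈ Sg, H36MX.hsc (Ib_lo v (sc a)) (Ib_lo v (sc b)) = ∑ v ∈ Sg, H36MX.hsv v a b := by
    refine Finset.sum_congr rfl fun v _ => ?_
    rw [Ib_lo_sc v ha, Ib_lo_sc v hb, H36MX.hsc_sc]
    · rfl
    · exact (map_ne_zero _).2 ha
    · exact (map_ne_zero _).2 hb
  rw [h5]
  have h6 : ∀ p q r : ZMod 2, p + q + r = 0 → p + r = q := by decide
  exact h6 _ _ _ h3

/-- The classes in the kernel of the local maps. -/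
lemma Ib_P_zero (Sg : Finset (HeightOneSpectrum (𝓞 K))) {x : SC K}
    (h : ∀ v ∈ Sg, x ∈ H30ZO.Sq v) (y : SC K) :
    Ib_P Sg x y = ∑ s : K →+* ℝ, si s x * si s y := by
  unfold Ib_P
  rw [Finset.sum_eq_zero, zero_add]
  intro v hv
  have h1 : Ib_lo v x = 0 := h v hv
  rw [h1, H36MX.hsc_zero_left]

/-- The local maps. -/
abbrev Ib_L (K : Type) [Field K] [NumberField K] (Sg : Finset (HeightOneSpectrum (𝓞 K))) : Type :=
  ((v : Sg) → SC K ⧸ H30ZO.Sq v.1) × ((K →+* ℝ) → ZMod 2)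

/-- The local maps. -/
noncomputable def Ib_loc (Sg : Finset (HeightOneSpectrum (𝓞 K))) : SC K →+ Ib_L K Sg where
  toFun x := (fun v => (x : SC K ⧸ H30ZO.Sq v.1), fun s => si s x)
  map_zero' := by
    refine Prod.ext ?_ ?_
    · funext v
      rfl
    · funext s
      exact H38T1.si_zero s
  map_add' x y := by
    refine Prod.ext ?_ ?_
    · funext v
      rfl
    · funext s
      exact H38T1.si_add s x y

lemma Ib_loc_ker {Sg : Finset (HeightOneSpectrum (𝓞 K))} {x : SC K} (h : Ib_loc Sg x = 0) :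
    (∀ v ∈ Sg, x ∈ H30ZO.Sq v) ∧ ∀ s : K →+* ℝ, si s x = 0 := by
  refine ⟨fun v hv => ?_, fun s => congrFun (congrArg Prod.snd h) s⟩
  have h1 := congrFun (congrArg Prod.fst h) ⟨v, hv⟩
  exact (QuotientAddGroup.eq_zero_iff x).1 h1

lemma Ib_qfin (u : HeightOneSpectrum (𝓞 K)) : Finite (SC K ⧸ H30ZO.Sq u) := by
  have h1 : (H30ZO.Sq u).index ≠ 0 := by
    rw [H30ZO.index_Sq]
    have h2 : 0 < H30ZO.qq u := by
      unfold H30ZO.qq
      apply pow_pos
      have h3 : Ideal.absNorm u.asIdeal ≠ 0 := by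
        rw [Ne, Ideal.absNorm_eq_zero_iff]
        exact u.ne_bot
      exact Nat.pos_of_ne_zero h3
    omega
  have : (H30ZO.Sq u).FiniteIndex := ⟨h1⟩
  infer_instance

lemma Ib_Lfin (Sg : Finset (HeightOneSpectrum (𝓞 K))) : Finite (Ib_L K Sg) := by
  have h1 : ∀ v : Sg, Finite (SC K ⧸ H30ZO.Sq v.1) := fun v => Ib_qfin v.1
  infer_instance

lemma Ib_card {Sg : Finset (HeightOneSpectrum (𝓞 K))}
    (h2 : ∀ v : HeightOneSpectrum (𝓞 K), v ∉ Sg → v.valuation K 2 = 1) :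
    Nat.card (Ib_L K Sg) = Nat.card (H24TD.US K (Sg : Set (HeightOneSpectrum (𝓞 K)))) ^ 2 := by
  have h1 : ∀ v : Sg, Finite (SC K ⧸ H30ZO.Sq v.1) := fun v => Ib_qfin v.1
  have e1 : Nat.card ((v : Sg) → SC K ⧸ H30ZO.Sq v.1) = 4 ^ Sg.card * 2 ^ Module.finrank ℚ K := by
    rw [Nat.card_pi]
    have e2 : ∀ v : Sg, Nat.card (SC K ⧸ H30ZO.Sq v.1) = 4 * H30ZO.qq v.1 := fun v =>
      H30ZO.index_Sq v.1
    rw [Finset.prod_congr rfl fun v _ => e2 v,
      Finset.prod_coe_sort Sg (fun v => 4 * H30ZO.qq v), Finset.prod_mul_distrib,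
      Finset.prod_const, H30ZO.prod_two Sg (fun v hv => by
        by_contra hcon
        rw [h2 v hcon] at hv
        exact lt_irrefl _ hv)]
  have e3 : Nat.card ((K →+* ℝ) → ZMod 2) = 2 ^ InfinitePlace.nrRealPlaces K := by
    rw [Nat.card_fun, Nat.card_zmod, Nat.card_eq_fintype_card, H88T7.card_real7]
  rw [Nat.card_prod, e1, e3, H88T7.card_US7 (Finset.finite_toSet Sg), Set.ncard_coe_finset,
    ← InfinitePlace.card_add_two_mul_card_eq_rank K]
  have e4 : (4 : ℕ) ^ Sg.card = 2 ^ (2 * Sg.card) := by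
    rw [pow_mul]
    norm_num
  rw [e4, ← pow_add, ← pow_add, ← pow_mul]
  congr 1
  ring

end Pair

lemma Ib_int {K : Type} [Field K] [NumberField K] (c : SC K) :
    ∃ d : 𝓞 K, d ≠ 0 ∧ sc (d : K) = c := by
  have hx2 : ∀ x : SC K, x + x = 0 := fun x => by rw [← two_nsmul, H38T1.SC.two_smul]
  obtain ⟨x, hx, rfl⟩ := H38T1.sc_surj c
  obtain ⟨a, b, hb, rfl⟩ := IsFractionRing.div_surjective (A := 𝓞 K) x
  have hb0 : (algebraMap (𝓞 K) K b) ≠ 0 := by
    intro h
    exact (nonZeroDivisors.ne_zero hb) ((map_eq_zero_iff _ (IsFractionRing.injective (𝓞 K) K)).1 h)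
  have ha0 : (algebraMap (𝓞 K) K a) ≠ 0 := by
    intro h
    rw [h, zero_div] at hx
    exact hx rfl
  have hab : (algebraMap (𝓞 K) K a) * (algebraMap (𝓞 K) K b) ≠ 0 := mul_ne_zero ha0 hb0
  have e : ((a * b : 𝓞 K) : K) = (algebraMap (𝓞 K) K a) * (algebraMap (𝓞 K) K b) :=
    map_mul (algebraMap (𝓞 K) K) a b
  refine ⟨a * b, ?_, ?_⟩
  · intro h
    rw [h] at e
    exact hab (e.symm.trans (map_zero (algebraMap (𝓞 K) K)))
  · rw [e]
    have h1 : sc ((algebraMap (𝓞 K) K a) / (algebraMap (𝓞 K) K b)) +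
        sc ((algebraMap (𝓞 K) K a) * (algebraMap (𝓞 K) K b)) = 0 := by
      rw [← H38T1.sc_mul hx hab, H38T1.sc_eq_zero (mul_ne_zero hx hab)]
      refine ⟨algebraMap (𝓞 K) K a, ?_⟩
      field_simp
    have h2 := hx2 (sc ((algebraMap (𝓞 K) K a) / (algebraMap (𝓞 K) K b)))
    exact (add_left_cancel (h1.trans h2.symm))

theorem exists_delta {K : Type} [Field K] [NumberField K] {Sg : Finset (HeightOneSpectrum (𝓞 K))}
    (h2 : ∀ v : HeightOneSpectrum (𝓞 K), v ∉ Sg → v.valuation K 2 = 1) (hcl : ClOk K Sg)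
    (T : Finset (HeightOneSpectrum (𝓞 K))) (hT : ∀ q ∈ T, q ∉ Sg) (t : (K →+* ℝ) → ZMod 2)
    (h : ∀ β ∈ H24TD.US K (Sg : Set (HeightOneSpectrum (𝓞 K))),
      ∑ q ∈ T, la q β = ∑ s : K →+* ℝ, t s * si s β) :
    ∃ δ : K, δ ≠ 0 ∧ (∀ q ∈ T, ord (q.valuation K) δ = 1) ∧
      (∀ u : HeightOneSpectrum (𝓞 K), u ∉ T → u ∉ Sg → u.valuation K δ = 1) ∧
      (∀ u ∈ Sg, IsSquare (algebraMap K (u.adicCompletion K) δ)) ∧
      ∀ s : K →+* ℝ, si s (sc δ) = t s := by
  set B : AddSubgroup (SC K) := H24TD.US K (Sg : Set (HeightOneSpectrum (𝓞 K))) with hB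
  have hx2 : ∀ x : SC K, x + x = 0 := fun x => by rw [← two_nsmul, H38T1.SC.two_smul]
  have hBu : ∀ β ∈ B, ∃ u : K, u ≠ 0 ∧ sc u = β ∧
      ∀ v : HeightOneSpectrum (𝓞 K), v ∉ Sg → v.valuation K u = 1 := by
    rintro _ ⟨u, hu, rfl⟩
    exact ⟨((Additive.toMul u : Kˣ) : K), Units.ne_zero _, (H24TD.cls_eq u).symm,
      fun v hv => hu v hv⟩
  have hord0 : ∀ (v : HeightOneSpectrum (𝓞 K)) (u : K), v.valuation K u = 1 →
      ord (v.valuation K) u = 0 := by
    intro v u h3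
    unfold ord
    rw [h3, log_one, neg_zero]
  have hBeo : ∀ β ∈ B, ∀ v : HeightOneSpectrum (𝓞 K), v ∉ Sg → eo v β = 0 := by
    intro β hβ v hv
    obtain ⟨u, hu, rfl, h3⟩ := hBu β hβ
    rw [H38T1.eo_sc hu, hord0 v u (h3 v hv), Int.cast_zero]
  unfold ClOk at hcl
  choose! π hπ0 hπ1 hπ2 using hcl
  have hpair : ∀ p, p ∉ Sg → ∀ β ∈ B, Ib_P Sg (sc (π p)) β = la p β := by
    intro p hp β hβ
    have h5 : eo p (sc (π p)) = 1 := by
      rw [H38T1.eo_sc (hπ0 p hp), hπ1 p hp, Int.cast_one]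
    rw [Ib_prod h2 {p} (fun q hq => by
      rw [Finset.mem_singleton] at hq
      rw [hq]
      exact hp) _ _ (fun v hv hvp => by
      rw [Finset.mem_singleton] at hvp
      refine ⟨?_, hBeo β hβ v hv⟩
      rw [H38T1.eo_sc (hπ0 p hp), hord0 v _ (hπ2 p hp v hv hvp), Int.cast_zero]),
      Finset.sum_singleton]
    unfold H38T1.tp
    rw [h5, hBeo β hβ p hp]
    ring
  have h1 : ∀ β ∈ B, (∀ x, Ib_P Sg x β = 0) → β = 0 := by
    intro β hβ hx
    by_contra hne
    obtain ⟨φ, hφ⟩ := Ib_sep hx2 hne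
    obtain ⟨d, hd, hdβ⟩ := Ib_int β
    have hinf := H30MQ.exists_places {d} (fun d' hd' => by
      rw [Finset.mem_singleton] at hd'
      rw [hd']
      exact hd) φ
    obtain ⟨p, hp, hpS⟩ := hinf.exists_notMem_finset Sg
    have h5 := (hp.2 d (Finset.mem_singleton_self d)).2
    rw [hdβ, hφ, ← hpair p hpS β hβ, hx] at h5
    exact zero_ne_one h5
  have hBB : ∀ β ∈ B, ∀ β' ∈ B, Ib_P Sg β β' = 0 := by
    intro β hβ β' hβ'
    rw [Ib_prod h2 ∅ (fun q hq => absurd hq (Finset.notMem_empty q)) _ _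
      (fun v hv _ => ⟨hBeo β hβ v hv, hBeo β' hβ' v hv⟩), Finset.sum_empty]
  have h3 : ∀ x, Ib_loc Sg x = 0 → ∀ β ∈ B, Ib_P Sg x β = 0 := by
    intro x hx β _
    obtain ⟨h5, h6⟩ := Ib_loc_ker hx
    rw [Ib_P_zero Sg h5]
    exact Finset.sum_eq_zero fun s _ => by rw [h6, zero_mul]
  have h4 : ∀ β ∈ B, Ib_loc Sg β = 0 → ∀ x, Ib_P Sg x β = 0 := by
    intro β _ hx x
    obtain ⟨h5, h6⟩ := Ib_loc_ker hx
    rw [Ib_P_comm, Ib_P_zero Sg h5]
    exact Finset.sum_eq_zero fun s _ => by rw [h6, zero_mul]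
  have hLf := Ib_Lfin Sg
  have hBf : Finite B := by
    have h5 := H88T7.card_US7 (K := K) (Finset.finite_toSet Sg)
    exact Nat.finite_of_card_ne_zero (by rw [hB, h5]; positivity)
  obtain ⟨hsurj, hperp⟩ := Ib_abs (Lc := Ib_L K Sg) hx2 (Ib_loc Sg) B (Ib_P Sg) (Ib_P_left Sg)
    (Ib_P_right Sg) h1 hBB h3 h4 (Ib_card h2).le hBf
  obtain ⟨τ, hτ⟩ := hsurj (0, t)
  have hτ1 : ∀ v ∈ Sg, τ ∈ H30ZO.Sq v := fun v hv =>
    (QuotientAddGroup.eq_zero_iff τ).1 (congrFun (congrArg Prod.fst hτ) ⟨v, hv⟩)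
  have hτ2 : ∀ s : K →+* ℝ, si s τ = t s := fun s => congrFun (congrArg Prod.snd hτ) s
  obtain ⟨x, hx⟩ : ∃ x, x = ∑ q ∈ T, sc (π q) + τ := ⟨_, rfl⟩
  have hxp : ∀ β ∈ B, Ib_P Sg x β = 0 := by
    intro β hβ
    have e1 : Ib_P Sg (∑ q ∈ T, sc (π q)) β = ∑ q ∈ T, la q β := by
      have e2 := map_sum (AddMonoidHom.mk' (fun x => Ib_P Sg x β) (fun x x' => Ib_P_left Sg x x' β))
        (fun q => sc (π q)) T
      refine e2.trans (Finset.sum_congr rfl fun q hq => ?_)
      exact hpair q (hT q hq) β hβ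
    have e3 : ∑ s : K →+* ℝ, si s τ * si s β = ∑ s : K →+* ℝ, t s * si s β :=
      Finset.sum_congr rfl fun s _ => by rw [hτ2 s]
    rw [hx, Ib_P_left, e1, Ib_P_zero Sg hτ1, h β hβ, e3]
    exact CharTwo.add_self_eq_zero _
  obtain ⟨β, hβ, hloc⟩ := hperp x hxp
  obtain ⟨u, hu0, huβ, hu1⟩ := hBu β hβ
  have hP0 : ∏ q ∈ T, π q ≠ 0 := Finset.prod_ne_zero_iff.2 fun q hq => hπ0 q (hT q hq)
  have hδ0 : (∏ q ∈ T, π q) * u ≠ 0 := mul_ne_zero hP0 hu0
  have hsc : sc ((∏ q ∈ T, π q) * u) + τ = x + β := by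
    rw [H38T1.sc_mul hP0 hu0, H30MQ.sc_prod T π (fun q hq => hπ0 q (hT q hq)), huβ, hx]
    abel
  have hl : Ib_loc Sg (sc ((∏ q ∈ T, π q) * u)) = - Ib_loc Sg τ := by
    rw [← add_eq_zero_iff_eq_neg, ← map_add, hsc, map_add, hloc, ← map_add, hx2, map_zero]
  rw [hτ] at hl
  refine ⟨(∏ q ∈ T, π q) * u, hδ0, ?_, ?_, ?_, ?_⟩
  · intro q hq
    have e1 : q.valuation K ((∏ q ∈ T, π q) * u) = q.valuation K (π q) := by
      rw [map_mul, map_prod, hu1 q (hT q hq), mul_one]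
      refine Finset.prod_eq_single q (fun q' hq' hne => ?_) (fun hn => absurd hq hn)
      exact hπ2 q' (hT q' hq') q (hT q hq) hne.symm
    have e2 := hπ1 q (hT q hq)
    unfold ord at e2 ⊢
    rw [e1]
    exact e2
  · intro v hvT hvS
    rw [map_mul, map_prod, hu1 v hvS, mul_one]
    refine Finset.prod_eq_one fun q hq => ?_
    refine hπ2 q (hT q hq) v hvS ?_
    rintro rfl
    exact hvT hq
  · intro v hv
    rw [← H30ZO.mem_Sq hδ0]
    have e1 := congrFun (congrArg Prod.fst hl) ⟨v, hv⟩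
    exact (QuotientAddGroup.eq_zero_iff _).1 (e1.trans neg_zero)
  · intro s
    have e1 := congrFun (congrArg Prod.snd hl) s
    exact e1.trans (CharTwo.neg_eq (t s))

end H88OD
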