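import Pool.Agent.H88.RE.Id

/-!
RE/Ij (project MP_78d38b_OD): the local conditions at a real place with three real roots: `Wc` is `si t c = 0` for the
embedding `t` with the smallest root.
-/

set_option autoImplicit false
set_option linter.unusedSectionVars false
open scoped Classical

open WithZero NumberField IsDedekindDomain H38RT
open H38T1 (SC sc scu rep eo la si OddP)
open H76PP (Cub LC ev scm dn)

namespace H88OD

variable {K L : Type} [Field K] [NumberField K] [Field L]
  [NumberField L] [Algebra K L] {a b : K} {θ : L}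

private theorem Ij_fac {A B r p q : ℝ} (hr : r ^ 3 + A * r + B = 0) (hp : p ^ 3 + A * p + B = 0)
    (hq : q ^ 3 + A * q + B = 0) (hrp : r < p) (hpq : p < q) (x : ℝ) :
    x ^ 3 + A * x + B = (x - r) * (x - p) * (x - q) := by
  have h1 : r ^ 2 + r * p + p ^ 2 + A = 0 := by
    have h : (p - r) * (r ^ 2 + r * p + p ^ 2 + A) = 0 := by linear_combination hp - hr
    rcases mul_eq_zero.1 h with h | h
    · exact absurd h (sub_pos.2 hrp).ne'
    · exact h
  have h2 : r ^ 2 + r * q + q ^ 2 + A = 0 := by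
    have h : (q - r) * (r ^ 2 + r * q + q ^ 2 + A) = 0 := by linear_combination hq - hr
    rcases mul_eq_zero.1 h with h | h
    · exact absurd h (sub_pos.2 (hrp.trans hpq)).ne'
    · exact h
  have h3 : r + p + q = 0 := by
    have h : (q - p) * (r + p + q) = 0 := by linear_combination h2 - h1
    rcases mul_eq_zero.1 h with h | h
    · exact absurd h (sub_pos.2 hpq).ne'
    · exact h
  have hA : A = -(r ^ 2 + r * p + p ^ 2) := by linarith
  have hB : B = -(r ^ 3 + A * r) := by linarith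
  have hq' : q = -(r + p) := by linarith
  rw [hB, hA, hq']
  ring

private theorem Ij_pos {e1 e2 e3 x y : ℝ} (h12 : e1 < e2) (h23 : e2 < e3) (hy : y ≠ 0)
    (h : y ^ 2 = (x - e1) * (x - e2) * (x - e3)) : e1 < x := by
  by_contra hc
  push Not at hc
  have h1 : 0 < y ^ 2 := by positivity
  have h2 : 0 ≤ (e1 - x) * (e2 - x) * (e3 - x) :=
    mul_nonneg (mul_nonneg (by linarith) (by linarith)) (by linarith)
  nlinarith

private theorem Ij_ev {K L : Type} [Field K] [Field L] [Algebra K L] {θ : L} {s : K →+* ℝ} {t : L →+* ℝ}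
    (ht : t.comp (algebraMap K L) = s) (d : Fin 3 → K) :
    t (ev θ d) = H24PD.E3 (t θ) (fun j => s (d j)) := by
  unfold ev H24PD.E3
  rw [← ht]
  simp only [map_add, map_mul, map_pow, RingHom.comp_apply]

private theorem Ij_root {K L : Type} [Field K] [Field L] [Algebra K L] {a b : K} {θ : L}
    (h : Cub K L a b θ) {s : K →+* ℝ} {t : L →+* ℝ} (ht : t.comp (algebraMap K L) = s) :
    (t θ) ^ 3 + s a * t θ + s b = 0 := by
  have h1 := congrArg t h.root
  rw [map_zero, map_add, map_add, map_mul, map_pow] at h1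
  rw [← ht]
  exact h1

private theorem Ij_m3 {K L : Type} [Field K] [Field L] [Algebra K L] {a b : K} {θ : L}
    (h : Cub K L a b θ) {s : K →+* ℝ} {t : L →+* ℝ} (ht : t.comp (algebraMap K L) = s)
    (d : Fin 3 → K) (x : ℝ) :
    H24PD.E3 (t θ) (H76PP.m3 (s a) (s b) (fun j => s (d j)) ![x, -1, 0]) = t (ev θ d) * (x - t θ) := by
  rw [H24PD.E3_m3 (Ij_root h ht), ← Ij_ev ht]
  congr 1
  unfold H24PD.E3
  simp only [Matrix.cons_val_zero, Matrix.cons_val_one, Matrix.cons_val]
  ring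

private theorem Ij_si {L : Type} [Field L] [NumberField L] (t : L →+* ℝ) {x : L} (hx : x ≠ 0) :
    si t (sc x) = 0 ↔ 0 < t x := by
  rw [H38T1.si_sc t hx, H38RT.sw]
  constructor
  · intro h
    by_contra hc
    push Not at hc
    have h1 : t x < 0 := lt_of_le_of_ne hc ((map_ne_zero t).2 hx)
    rw [if_pos h1] at h
    exact one_ne_zero h
  · intro h
    rw [if_neg (not_lt.2 h.le)]

private theorem Ij_core {K L : Type} [Field K] [NumberField K] [Field L] [NumberField L] [Algebra K L]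
    {a b : K} {θ : L} (h : Cub K L a b θ) (hD : 4 * a ^ 3 + 27 * b ^ 2 ≠ 0) {s : K →+* ℝ}
    {t1 t2 t3 : L →+* ℝ} (c1 : t1.comp (algebraMap K L) = s) (c2 : t2.comp (algebraMap K L) = s)
    (c3 : t3.comp (algebraMap K L) = s) (l12 : t1 θ < t2 θ) (l23 : t2 θ < t3 θ)
    (only : ∀ t : L →+* ℝ, t.comp (algebraMap K L) = s → t = t1 ∨ t = t2 ∨ t = t3) {c : SC L}
    (hsum : si t1 c + si t2 c + si t3 c = 0) : H30ZO.Wc s a b θ c ↔ si t1 c = 0 := by
  have hfac := Ij_fac (Ij_root h c1) (Ij_root h c2) (Ij_root h c3) l12 l23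
  have hD' : 4 * (s a) ^ 3 + 27 * (s b) ^ 2 ≠ 0 := by
    have e : 4 * (s a) ^ 3 + 27 * (s b) ^ 2 = s (4 * a ^ 3 + 27 * b ^ 2) := by
      rw [map_add, map_mul, map_mul, map_pow, map_pow, map_ofNat, map_ofNat]
    rw [e]
    exact (map_ne_zero s).2 hD
  constructor
  · rintro ⟨d, hd0, rfl, x, y, z, hy, hxy, hm⟩
    rw [Ij_si t1 hd0]
    have hx : t1 θ < x := by
      refine Ij_pos l12 l23 hy ?_
      rw [hxy, hfac]
    have h1 := Ij_m3 h c1 d x
    rw [hm, H24PD.E3_m3 (Ij_root h c1)] at h1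
    have h2 : t1 (ev θ d) ≠ 0 := (map_ne_zero t1).2 hd0
    have h3 : 0 ≤ t1 (ev θ d) * (x - t1 θ) := by
      rw [← h1]
      exact mul_self_nonneg _
    have h4 : 0 < x - t1 θ := sub_pos.2 hx
    have h5 : 0 ≤ t1 (ev θ d) := nonneg_of_mul_nonneg_left h3 h4
    exact lt_of_le_of_ne h5 (Ne.symm h2)
  · intro hs1
    by_cases hs2 : si t2 c = 0
    · have hs3 : si t3 c = 0 := by
        rw [hs1, hs2, zero_add, zero_add] at hsum
        exact hsum
      refine H76OD.Wc_pos h s hD fun t ht => ?_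
      rcases only t ht with rfl | rfl | rfl
      · exact hs1
      · exact hs2
      · exact hs3
    · have hs3 : si t3 c ≠ 0 := by
        intro h0
        rw [hs1, h0, zero_add, add_zero] at hsum
        exact hs2 hsum
      obtain ⟨v, hv, rfl⟩ := H38T1.sc_surj c
      obtain ⟨d, hd⟩ : ∃ d : Fin 3 → K, d = fun j => h.co j v := ⟨_, rfl⟩
      have hev : ev θ d = v := by
        rw [hd]
        exact (h.eq_co v).symm
      have hd0 : ev θ d ≠ 0 := by
        rw [hev]
        exact hv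
      rw [← hev] at hs1 hs2 hs3 ⊢
      have p1 : 0 < t1 (ev θ d) := (Ij_si t1 hd0).1 hs1
      have p2 : t2 (ev θ d) < 0 := by
        exact lt_of_le_of_ne (not_lt.1 fun h0 => hs2 ((Ij_si t2 hd0).2 h0)) ((map_ne_zero t2).2 hd0)
      have p3 : t3 (ev θ d) < 0 := by
        exact lt_of_le_of_ne (not_lt.1 fun h0 => hs3 ((Ij_si t3 hd0).2 h0)) ((map_ne_zero t3).2 hd0)
      obtain ⟨x, hx⟩ : ∃ x : ℝ, x = (t1 θ + t2 θ) / 2 := ⟨_, rfl⟩
      have x1 : t1 θ < x := by rw [hx]; linarith
      have x2 : x < t2 θ := by rw [hx]; linarith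
      have hpos : 0 < x ^ 3 + s a * x + s b := by
        rw [hfac]
        exact mul_pos_of_neg_of_neg (mul_neg_of_pos_of_neg (by linarith) (by linarith)) (by linarith)
      obtain ⟨z, hz⟩ := H30ZO.sq_real hD'
        (d := H76PP.m3 (s a) (s b) (fun j => s (d j)) ![x, -1, 0]) (by
          intro r hr
          have hr' : (r - t1 θ) * (r - t2 θ) * (r - t3 θ) = 0 := by
            rw [← hfac]
            exact hr
          have hE : ∀ e : ℝ, ∀ u : Fin 3 → ℝ, u 0 + u 1 * e + u 2 * e ^ 2 = H24PD.E3 e u := fun _ _ => rfl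
          rw [hE]
          rcases mul_eq_zero.1 hr' with hr' | hr'
          · rcases mul_eq_zero.1 hr' with hr' | hr'
            · have e : r = t1 θ := by linarith
              rw [e, Ij_m3 h c1]
              exact mul_pos p1 (by linarith)
            · have e : r = t2 θ := by linarith
              rw [e, Ij_m3 h c2]
              exact mul_pos_of_neg_of_neg p2 (by linarith)
          · have e : r = t3 θ := by linarith
            rw [e, Ij_m3 h c3]
            exact mul_pos_of_neg_of_neg p3 (by linarith))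
      refine ⟨d, hd0, rfl, x, Real.sqrt (x ^ 3 + s a * x + s b), z, ?_, ?_, ?_⟩
      · exact (Real.sqrt_pos.2 hpos).ne'
      · exact Real.sq_sqrt hpos.le
      · exact hz.symm

private theorem Ij_cub (S : Ext K K L a b θ) : Cub K L a b θ := S.cub

theorem Lr_pos (S : Ext K K L a b θ) {s0 : K →+* ℝ} {t1 t2 t3 : L →+* ℝ}
    (R : Real3 s0 θ t1 t2 t3) {D : K} (hD : 0 < s0 D) {c : SC L} (hc : c ∈ H30ZO.HH K L) :
    S.Lr D s0 c ↔ si t1 c = 0 := by
  have hD0 : D ≠ 0 := by
    rintro rfl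
    rw [map_zero] at hD
    exact lt_irrefl _ hD
  have hc' := Ij_cub S
  have hm : ∀ {t : L →+* ℝ}, t.comp (algebraMap K L) = s0 → t (algebraMap K L D * θ) = s0 D * t θ := by
    intro t ht
    rw [map_mul, ← ht]
    rfl
  refine Ij_core (H76PP.Tf_twist hc' hD0) (H76OD.Lt_dne hD0 S.dne) R.c1 R.c2 R.c3 ?_ ?_ R.only
    (real_sum hc' R hc)
  · rw [hm R.c1, hm R.c2]
    exact mul_lt_mul_of_pos_left R.l12 hD
  · rw [hm R.c2, hm R.c3]
    exact mul_lt_mul_of_pos_left R.l23 hD

theorem Lr_neg (S : Ext K K L a b θ) {s0 : K →+* ℝ} {t1 t2 t3 : L →+* ℝ}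
    (R : Real3 s0 θ t1 t2 t3) {D : K} (hD : s0 D < 0) {c : SC L} (hc : c ∈ H30ZO.HH K L) :
    S.Lr D s0 c ↔ si t3 c = 0 := by
  have hD0 : D ≠ 0 := by
    rintro rfl
    rw [map_zero] at hD
    exact lt_irrefl _ hD
  have hc' := Ij_cub S
  have hm : ∀ {t : L →+* ℝ}, t.comp (algebraMap K L) = s0 → t (algebraMap K L D * θ) = s0 D * t θ := by
    intro t ht
    rw [map_mul, ← ht]
    rfl
  refine Ij_core (H76PP.Tf_twist hc' hD0) (H76OD.Lt_dne hD0 S.dne) R.c3 R.c2 R.c1 ?_ ?_ ?_ ?_
  · rw [hm R.c3, hm R.c2]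
    exact mul_lt_mul_of_neg_left R.l23 hD
  · rw [hm R.c2, hm R.c1]
    exact mul_lt_mul_of_neg_left R.l12 hD
  · intro t ht
    rcases R.only t ht with h | h | h
    · exact Or.inr (Or.inr h)
    · exact Or.inr (Or.inl h)
    · exact Or.inl h
  · have h1 := real_sum hc' R hc
    rw [← h1]
    ring

end H88OD
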