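import Pool.Agent.H88.RE.Id
import Pool.Agent.H76.OD.Rc
import Pool.Agent.H30.OD.Cs

/-!
ROW Ik (project MP_78d38b_OD, about 200 lines): the conic of a class at a real place with three real roots.  Use the STATEMENTS of Id.

`al h y = h.co 2 y`, `be h y = co_1^2 - co_0 co_2 + a co_2^2` (Pool/Agent/H76/MQ/Df.lean). Let `y_i := t_i y`, `θ_i := t_i θ`, `θ_1 < θ_2 < θ_3`, `f' (θ_1) > 0 > f' (θ_2)`, `f' (θ_3) > 0`, `w_i := y_i / f'(θ_i)`. The form `T(Z) := co_2 (y Z^2) = ∑ i, w_i (Z0 + Z1 θ_i + Z2 θ_i^2)^2` (co_2 of `z` is `∑ z_i / f'(θ_i)`: Lagrange interpolation / Cs_T in Pool/Agent/H30/OD/Cs.lean for the coordinates).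
`s0 (al) = T(1) = ∑ w_i`, `- s0 (be) = T(1) T(θ) - B(1, θ)^2 = ∑_{i<j} w_i w_j (θ_i - θ_j)^2`, and `w_1 w_2 w_3 < 0` because `y_1 y_2 y_3 = s0 (N y) > 0` (`IsSquare (norm)`, not zero) and `f'(θ_1) f'(θ_2) f'(θ_3) < 0`.
CLAIM: `s0 al < 0 ∧ s0 be < 0` iff `y_1 < 0 ∧ y_3 < 0`. (⟸) then `y_2 > 0`, all `w_i < 0`: clear. (⟹) the Gram matrix of `T` has leading minors `al < 0`, `-be > 0` and determinant `w_1 w_2 w_3 * (Vandermonde)^2 < 0`, so `T` is negative definite (complete the square, or Sylvester by hand), and `w_i < 0` (evaluate at the Lagrange polynomials); in particular `y_1 < 0`, `y_3 < 0`.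
(Elementary version of (⟹): two of the `w_i` cannot be positive: if exactly two are positive, say, then `-be ≤ 0` or `al ≥ 0` follows from the Cauchy-Schwarz inequality; do the three cases with `nlinarith`/`field_simp`, or use the definiteness argument.)
con_real: `si s0 (sc x) = 1` iff `s0 x < 0` (`H38T1.si_sc`), values in `ZMod 2`.
rec_real: as `H76OD.rec_T` (Pool/Agent/H76/OD/Rc.lean; `F = K`, `A, B` integral by `Lt_int`), with the real places: `s ≠ s0`: `conR_of_Wc` (Pool/Agent/H30/OD/Cs.lean) for `S.Lr 1 s c` (twist by `1`); `s = s0`: con_real. Finite places outside `T`: in `Sg`: `conAt_of_Wc`; outside `Sg ∪ T`: even, good: `Wc_good` gives `S.Lv 1 v c`, conAt_of_Wc. `P.nu = nuw K a θ P.t1`, `eo * (la + nu) = eo * (la + nu * eo)` in `ZMod 2`. The special primes of `T` have different `P.v` (Sp_eq, dn_self): sum over `T.image Sp.v`.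
-/

set_option autoImplicit false
set_option linter.unusedSectionVars false
open scoped Classical

open WithZero NumberField IsDedekindDomain H38RT
open H38T1 (SC sc scu rep eo la si OddP)
open H76PP (Cub LC ev scm dn)
open H76MQ (al be)

namespace H88OD

variable {K L : Type} [Field K] [NumberField K] [Field L]
  [NumberField L] [Algebra K L] {a b : K} {θ : L}

private lemma ik_two {u v t x z : ℝ} (hu : 0 < u) (hv : 0 < v) (hs : u + v + t < 0) :
    u * v * (x - z) ^ 2 + t * (u * x ^ 2 + v * z ^ 2) ≤ 0 := by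
  have e : u * v * (x - z) ^ 2 + t * (u * x ^ 2 + v * z ^ 2) =
      (u + v + t) * (u * x ^ 2 + v * z ^ 2) - (u * x + v * z) ^ 2 := by ring
  rw [e]
  have h1 : 0 ≤ u * x ^ 2 + v * z ^ 2 := by positivity
  nlinarith [sq_nonneg (u * x + v * z), mul_nonneg h1 (neg_nonneg.2 hs.le)]

private lemma ik_neg {p1 p2 p3 w1 w2 w3 : ℝ} (hs : w1 + w2 + w3 < 0)
    (hE : 0 < w1 * w2 * (p1 - p2) ^ 2 + w1 * w3 * (p1 - p3) ^ 2 + w2 * w3 * (p2 - p3) ^ 2)
    (hw : w1 * w2 * w3 < 0) : w1 < 0 ∧ w2 < 0 ∧ w3 < 0 := by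
  have h1 : w1 ≠ 0 := by rintro rfl; simp at hw
  have h2 : w2 ≠ 0 := by rintro rfl; simp at hw
  have h3 : w3 ≠ 0 := by rintro rfl; simp at hw
  rcases lt_or_gt_of_ne h1 with i | i <;> rcases lt_or_gt_of_ne h2 with j | j <;>
    rcases lt_or_gt_of_ne h3 with k | k
  · exact ⟨i, j, k⟩
  · exact absurd hw (not_lt.2 (mul_pos (mul_pos_of_neg_of_neg i j) k).le)
  · exact absurd hw (not_lt.2 (mul_pos_of_neg_of_neg (mul_neg_of_neg_of_pos i j) k).le)
  · have h := ik_two (x := p2 - p1) (z := p3 - p1) j k (t := w1) (by linarith)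
    nlinarith
  · exact absurd hw (not_lt.2 (mul_pos_of_neg_of_neg (mul_neg_of_pos_of_neg i j) k).le)
  · have h := ik_two (x := p1 - p2) (z := p3 - p2) i k (t := w2) (by linarith)
    nlinarith
  · have h := ik_two (x := p1 - p3) (z := p2 - p3) i j (t := w3) (by linarith)
    nlinarith
  · exact absurd hw (not_lt.2 (mul_pos (mul_pos i j) k).le)

private lemma ik_iff {p1 p2 p3 α β c0 c1 c2 : ℝ} (h12 : p1 < p2) (h23 : p2 < p3)
    (r1 : p1 ^ 3 + α * p1 + β = 0) (r2 : p2 ^ 3 + α * p2 + β = 0) (r3 : p3 ^ 3 + α * p3 + β = 0)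
    {y1 y2 y3 : ℝ} (e1 : y1 = c0 + c1 * p1 + c2 * p1 ^ 2) (e2 : y2 = c0 + c1 * p2 + c2 * p2 ^ 2)
    (e3 : y3 = c0 + c1 * p3 + c2 * p3 ^ 2) (hN : 0 < H76PP.Te_nf α β ![c0, c1, c2]) :
    (c2 < 0 ∧ c1 ^ 2 - c0 * c2 + α * c2 ^ 2 < 0) ↔ (y1 < 0 ∧ y3 < 0) := by
  have n12 : p1 - p2 ≠ 0 := by intro h; linarith
  have n13 : p1 - p3 ≠ 0 := by intro h; linarith
  have n23 : p2 - p3 ≠ 0 := by intro h; linarith
  have n21 : p2 - p1 ≠ 0 := by intro h; linarith
  have n31 : p3 - p1 ≠ 0 := by intro h; linarith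
  have n32 : p3 - p2 ≠ 0 := by intro h; linarith
  have a1 : p1 ^ 2 + p1 * p2 + p2 ^ 2 + α = 0 :=
    (mul_eq_zero.1 (show (p1 - p2) * (p1 ^ 2 + p1 * p2 + p2 ^ 2 + α) = 0 by
      linear_combination r1 - r2)).resolve_left n12
  have a2 : p2 ^ 2 + p2 * p3 + p3 ^ 2 + α = 0 :=
    (mul_eq_zero.1 (show (p2 - p3) * (p2 ^ 2 + p2 * p3 + p3 ^ 2 + α) = 0 by
      linear_combination r2 - r3)).resolve_left n23
  have hs : p1 + p2 + p3 = 0 :=
    (mul_eq_zero.1 (show (p1 - p3) * (p1 + p2 + p3) = 0 by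
      linear_combination a1 - a2)).resolve_left n13
  have hα : α = p1 * p2 + p1 * p3 + p2 * p3 := by
    linear_combination a1 - (p1 + p2) * hs
  have hβ : β = -(p1 * p2 * p3) := by
    linear_combination r1 - p1 * hα + (-p1 ^ 2) * hs
  have hprod : y1 * y2 * y3 = H76PP.Te_nf α β ![c0, c1, c2] := by
    have hp3 : p3 = -p1 - p2 := by linarith
    rw [e1, e2, e3, hα, hβ, hp3]
    simp only [H76PP.Te_nf, Matrix.cons_val_zero, Matrix.cons_val_one, Matrix.cons_val_two,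
      Matrix.head_cons, Matrix.tail_cons]
    ring
  rw [← hprod] at hN
  have f1 : 0 < (p1 - p2) * (p1 - p3) := mul_pos_of_neg_of_neg (by linarith) (by linarith)
  have f2 : (p2 - p1) * (p2 - p3) < 0 := mul_neg_of_pos_of_neg (by linarith) (by linarith)
  have f3 : 0 < (p3 - p1) * (p3 - p2) := mul_pos (by linarith) (by linarith)
  obtain ⟨w1, hw1⟩ : ∃ w, w = y1 / ((p1 - p2) * (p1 - p3)) := ⟨_, rfl⟩
  obtain ⟨w2, hw2⟩ : ∃ w, w = y2 / ((p2 - p1) * (p2 - p3)) := ⟨_, rfl⟩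
  obtain ⟨w3, hw3⟩ : ∃ w, w = y3 / ((p3 - p1) * (p3 - p2)) := ⟨_, rfl⟩
  have g0 : w1 + w2 + w3 = c2 := by
    rw [hw1, hw2, hw3, e1, e2, e3]
    field_simp
    ring
  have g1 : w1 * p1 + w2 * p2 + w3 * p3 = c1 := by
    have : w1 * p1 + w2 * p2 + w3 * p3 = c1 + (p1 + p2 + p3) * c2 := by
      rw [hw1, hw2, hw3, e1, e2, e3]
      field_simp
      ring
    rw [this, hs]
    ring
  have g2 : w1 * p1 ^ 2 + w2 * p2 ^ 2 + w3 * p3 ^ 2 = c0 - α * c2 := by
    have : w1 * p1 ^ 2 + w2 * p2 ^ 2 + w3 * p3 ^ 2 = c0 + (p1 + p2 + p3) * c1 +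
        ((p1 + p2 + p3) ^ 2 - (p1 * p2 + p1 * p3 + p2 * p3)) * c2 := by
      rw [hw1, hw2, hw3, e1, e2, e3]
      field_simp
      ring
    rw [this, hs, hα]
    ring
  have hE : w1 * w2 * (p1 - p2) ^ 2 + w1 * w3 * (p1 - p3) ^ 2 + w2 * w3 * (p2 - p3) ^ 2 =
      -(c1 ^ 2 - c0 * c2 + α * c2 ^ 2) := by
    have : w1 * w2 * (p1 - p2) ^ 2 + w1 * w3 * (p1 - p3) ^ 2 + w2 * w3 * (p2 - p3) ^ 2 =
        (w1 + w2 + w3) * (w1 * p1 ^ 2 + w2 * p2 ^ 2 + w3 * p3 ^ 2) -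
          (w1 * p1 + w2 * p2 + w3 * p3) ^ 2 := by ring
    rw [this, g0, g1, g2]
    ring
  have k1 : y1 = w1 * ((p1 - p2) * (p1 - p3)) := by rw [hw1]; field_simp
  have k2 : y2 = w2 * ((p2 - p1) * (p2 - p3)) := by rw [hw2]; field_simp
  have k3 : y3 = w3 * ((p3 - p1) * (p3 - p2)) := by rw [hw3]; field_simp
  constructor
  · rintro ⟨h1, h2⟩
    have hw : w1 * w2 * w3 < 0 := by
      have h3 : y1 * y2 * y3 = w1 * w2 * w3 * (((p1 - p2) * (p1 - p3)) *
          ((p2 - p1) * (p2 - p3)) * ((p3 - p1) * (p3 - p2))) := by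
        rw [k1, k2, k3]
        ring
      rw [h3] at hN
      have h4 : ((p1 - p2) * (p1 - p3)) * ((p2 - p1) * (p2 - p3)) * ((p3 - p1) * (p3 - p2)) < 0 :=
        mul_neg_of_neg_of_pos (mul_neg_of_pos_of_neg f1 f2) f3
      by_contra hc
      exact absurd hN (not_lt.2 (mul_nonpos_of_nonneg_of_nonpos (not_lt.1 hc) h4.le))
    obtain ⟨i, -, k⟩ := ik_neg (p1 := p1) (p2 := p2) (p3 := p3) (by rw [g0]; exact h1)
      (by rw [hE]; linarith) hw
    rw [k1, k3]
    exact ⟨mul_neg_of_neg_of_pos i f1, mul_neg_of_neg_of_pos k f3⟩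
  · rintro ⟨h1, h3⟩
    have h2 : 0 < y2 := by
      by_contra hc
      have h4 := mul_nonneg_of_nonpos_of_nonpos h1.le (not_lt.1 hc)
      exact absurd hN (not_lt.2 (mul_nonpos_of_nonneg_of_nonpos h4 h3.le))
    have i : w1 < 0 := by rw [hw1]; exact div_neg_of_neg_of_pos h1 f1
    have j : w2 < 0 := by rw [hw2]; exact div_neg_of_pos_of_neg h2 f2
    have k : w3 < 0 := by rw [hw3]; exact div_neg_of_neg_of_pos h3 f3
    refine ⟨by rw [← g0]; linarith, ?_⟩
    have h5 := mul_pos (mul_pos_of_neg_of_neg i j) (pow_pos (show 0 < p2 - p1 by linarith) 2)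
    have h6 := mul_pos (mul_pos_of_neg_of_neg i k) (pow_pos (show 0 < p3 - p1 by linarith) 2)
    have h7 := mul_pos (mul_pos_of_neg_of_neg j k) (pow_pos (show 0 < p3 - p2 by linarith) 2)
    nlinarith

private lemma ik_zmod {P Q R S : Prop} [Decidable P] [Decidable Q] [Decidable R] [Decidable S]
    (h : (P ∧ Q) ↔ (R ∧ S)) : (if P then (1 : ZMod 2) else 0) * (if Q then 1 else 0) =
      (if R then 1 else 0) * (if S then 1 else 0) := by
  by_cases p : P <;> by_cases q : Q <;> by_cases r : R <;> by_cases s : S <;>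
    simp_all

theorem con_real (h : Cub K L a b θ) {s0 : K →+* ℝ} {t1 t2 t3 : L →+* ℝ}
    (R : Real3 s0 θ t1 t2 t3) {y : L} (hy : y ≠ 0) (hN : IsSquare (Algebra.norm K y))
    (ha : al h y ≠ 0) (hb : be h y ≠ 0) :
    si s0 (sc (al h y)) * si s0 (sc (be h y)) = si t1 (sc y) * si t3 (sc y) := by
  have hN0 : Algebra.norm K y ≠ 0 := by
    have hfin : Module.Finite K L := Module.Finite.of_basis h.basis
    rw [Ne, Algebra.norm_eq_zero_iff]
    exact hy
  have hNp : 0 < s0 (Algebra.norm K y) := by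
    obtain ⟨z, hz⟩ := hN
    have hz0 : s0 z ≠ 0 := by
      rw [Ne, map_eq_zero]
      rintro rfl
      exact hN0 (by rw [hz, mul_zero])
    rw [hz, map_mul]
    exact mul_self_pos.2 hz0
  have hTe : s0 (Algebra.norm K y) =
      H76PP.Te_nf (s0 a) (s0 b) ![s0 (h.co 0 y), s0 (h.co 1 y), s0 (h.co 2 y)] := by
    have hev : H76PP.ev θ (fun j => h.co j y) = y := (h.eq_co y).symm
    have h1 : Algebra.norm K y = H76PP.Te_nf a b (fun j => h.co j y) := by
      rw [← H76PP.Te_norm h, hev]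
    rw [h1, ← H76PP.Te_nf_map]
    simp only [H76PP.Te_nf, Matrix.cons_val_zero, Matrix.cons_val_one, Matrix.cons_val_two,
      Matrix.head_cons, Matrix.tail_cons]
  have hroot : ∀ t : L →+* ℝ, t.comp (algebraMap K L) = s0 →
      t θ ^ 3 + s0 a * t θ + s0 b = 0 := by
    intro t ht
    have h1 := congrArg t h.root
    rw [map_zero, map_add, map_add, map_mul, map_pow] at h1
    rw [← ht]
    exact h1
  have hval : ∀ t : L →+* ℝ, t.comp (algebraMap K L) = s0 →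
      t y = s0 (h.co 0 y) + s0 (h.co 1 y) * t θ + s0 (h.co 2 y) * t θ ^ 2 := by
    intro t ht
    have h1 := congrArg t (h.eq_co y)
    rw [map_add, map_add, map_mul, map_mul, map_pow] at h1
    rw [← ht]
    exact h1
  rw [hTe] at hNp
  have key := ik_iff R.l12 R.l23 (hroot _ R.c1) (hroot _ R.c2) (hroot _ R.c3) (hval _ R.c1)
    (hval _ R.c2) (hval _ R.c3) hNp
  rw [H38T1.si_sc _ ha, H38T1.si_sc _ hb, H38T1.si_sc _ hy, H38T1.si_sc _ hy]
  unfold sw
  refine ik_zmod ?_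
  have e1 : s0 (al h y) = s0 (h.co 2 y) := rfl
  have e2 : s0 (be h y) = s0 (h.co 1 y) ^ 2 - s0 (h.co 0 y) * s0 (h.co 2 y) +
      s0 a * s0 (h.co 2 y) ^ 2 := by
    unfold be
    rw [map_add, map_sub, map_mul, map_mul, map_pow, map_pow]
  rw [e1, e2]
  exact key

end H88OD
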