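import Pool.Agent.H88.OD.Ch
import Pool.Agent.H88.OD.Ha

/-!
ROW Ic (project MP_78d38b_OD, about 250 lines): special primes with prescribed symbols at classes of the base field.

exists_spG: the proof of `H76OD.exists_sp` (Pool/Agent/H76/OD/Ch.lean), without its first step: there the hypothesis `c ∈ HH` is only used to construct a functional `ψ : SC L →+ ZMod 2` with `ψ = φ` on `Y` and `ψ (sc δ) = 1`, `δ = -(4 a^3 + 27 b^2)` in `L`; here `ψ` is given.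
exists_spK (`F = K`): let `ι : SC K →+ SC L` be the natural map (`scm (algebraMap K L)`) and `N : SC L →+ SC K` the norm (`scm (Algebra.norm K)`). `N (ι β) = β` (`N(x) = x^3` for `x ∈ K`, `finrank K L = 3`). Put `ψ c := φ (c + ι (N c)) + χ (N c)`: `ψ c = φ c` for `c ∈ HH` (`N c = 0`), `ψ (ι β) = φ (ι β + ι β) + χ β = χ β`; in particular `ψ (sc δ) = χ (sc (-(4 a^3 + 27 b^2))) = 1`.
exists_spG with `Y := W ∪ ι '' B` (finite) and `A₀ := X ∪ {dn K w | eo w c ≠ 0 for some c ∈ W} ∪ {w | eo w β ≠ 0, β ∈ B}` (fin_supp). As in Pool/Agent/H88/OD/Ch.lean: `P.tr c = 0`, `P.fl c = S.el φ c` for `c ∈ W`. `la P.q β = la P.t1 (ι β)`: `P.t1` is a place of degree one above `P.v = P.q` (dn_self): a unit `x` of `K` at `q` is a square modulo `q` iff it is a square modulo `t1` (`P.tw.res1`), see `H38T1.la` (Legendre class; lemma la_map or similar in H36/MT, H76/MQ: `la` of an element of the base field at a place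 of degree one).
-/

set_option autoImplicit false
set_option linter.unusedSectionVars false
open scoped Classical

open WithZero NumberField IsDedekindDomain H38RT
open H38T1 (SC sc scu rep eo la si OddP)
open H76PP (Cub LC ev scm dn dsc theta_int)
open H76MQ (TwT)

namespace H88OD

theorem exists_spG {K F L : Type} [Field K] [NumberField K] [Field F] [NumberField F] [Field L]
    [NumberField L] [Algebra K F] [Algebra F L] {a b : K} {θ : L} (S : Ext K F L a b θ)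
    (Sg : Finset (HeightOneSpectrum (𝓞 K))) {Y : Set (SC L)} (hY : Y.Finite)
    (ψ : SC L →+ ZMod 2)
    (hψ : ψ (sc (algebraMap F L (algebraMap K F (-(4 * a ^ 3 + 27 * b ^ 2))))) = 1)
    {A₀ : Set (HeightOneSpectrum (𝓞 K))} (hA₀ : A₀.Finite) :
    ∃ P : Sp S Sg, P.q ∉ A₀ ∧ ∀ c ∈ Y, la P.t1 c = ψ c := by
  let _ : Algebra K L := ((algebraMap F L).comp (algebraMap K F)).toAlgebra
  have hT : IsScalarTower K F L := IsScalarTower.of_algebraMap_eq fun _ => rfl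
  have hgal := S.gal
  -- integral coefficients
  obtain ⟨a₀, ha₀⟩ := H76OD.Lt_int S.ha
  obtain ⟨b₀, hb₀⟩ := H76OD.Lt_int S.hb
  obtain ⟨A, hA⟩ : ∃ A : 𝓞 F, A = algebraMap (𝓞 K) (𝓞 F) a₀ := ⟨_, rfl⟩
  obtain ⟨B, hB⟩ : ∃ B : 𝓞 F, B = algebraMap (𝓞 K) (𝓞 F) b₀ := ⟨_, rfl⟩
  have hA' : (A : F) = algebraMap K F a := by
    rw [hA, ← ha₀]
    rfl
  have hB' : (B : F) = algebraMap K F b := by
    rw [hB, ← hb₀]
    rfl
  have hcub : Cub F L (A : F) (B : F) θ := by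
    rw [hA', hB']
    exact S.cub
  have hfin : Module.Finite F L := Module.Finite.of_basis hcub.basis
  obtain ⟨θ', hθ'⟩ := theta_int hcub
  -- the discriminant
  obtain ⟨δ, hδ⟩ : ∃ δ : 𝓞 F, δ = -dsc A B := ⟨_, rfl⟩
  have hδF : (δ : F) = algebraMap K F (-(4 * a ^ 3 + 27 * b ^ 2)) := by
    have hA'' : algebraMap (𝓞 F) F A = algebraMap K F a := hA'
    have hB'' : algebraMap (𝓞 F) F B = algebraMap K F b := hB'
    rw [hδ]
    unfold dsc
    simp only [map_neg, map_add, map_mul, map_pow, map_ofNat]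
    rw [hA'', hB'']
  have hδ0 : (δ : F) ≠ 0 := by
    rw [hδF]
    exact (map_ne_zero _).2 (neg_ne_zero.2 S.dne)
  have hδs : ¬ IsSquare (δ : F) := by
    rw [hδF]
    exact H88OD.nosquare S.odd S.dsq
  obtain ⟨δL, hδL⟩ : ∃ δL : 𝓞 L, δL = algebraMap (𝓞 F) (𝓞 L) δ := ⟨_, rfl⟩
  have hδL' : (δL : L) = algebraMap F L (δ : F) := by
    rw [hδL]
    rfl
  have hδL0 : (δL : L) ≠ 0 := by
    rw [hδL']
    exact (map_ne_zero _).2 hδ0
  have hδ00 : δL ≠ 0 := fun h => hδL0 (by rw [h]; rfl)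
  -- the functional
  have hφ2 : ψ (sc (δL : L)) = 1 := by
    rw [hδL', hδF]
    exact hψ
  -- the elements
  choose r hr0 hr1 using (fun c : SC L => H76OD.exists_irep c)
  obtain ⟨D, hD⟩ : ∃ D : Finset (𝓞 L), D = insert δL (hY.toFinset.image r) := ⟨_, rfl⟩
  have hD0 : ∀ d ∈ D, d ≠ 0 := by
    intro d hd
    rw [hD, Finset.mem_insert, Finset.mem_image] at hd
    rcases hd with rfl | ⟨c, -, rfl⟩
    · exact hδ00
    · exact hr0 c
  -- the bad places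
  have hmove : ∀ g : F ≃ₐ[K] F, g ≠ 1 → ∃ x : 𝓞 F, H38T1.gO (gq g) x - x ≠ 0 := by
    intro g hg
    by_contra hcon
    push Not at hcon
    apply hg
    apply AlgEquiv.ext
    intro y
    obtain ⟨α, β, -, hxy⟩ := IsFractionRing.div_surjective (A := 𝓞 F) y
    have h1 : ∀ z : 𝓞 F, g (z : F) = (z : F) := by
      intro z
      have h2 := sub_eq_zero.1 (hcon z)
      have h3 := congrArg (fun t : 𝓞 F => (t : F)) h2
      exact h3
    change g y = y
    rw [← hxy, map_div₀]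
    exact congrArg₂ (· / ·) (h1 α) (h1 β)
  choose! X hX using hmove
  have hfinK : ∀ x : 𝓞 F, x ≠ 0 → {v : HeightOneSpectrum (𝓞 K) |
      ∃ w : HeightOneSpectrum (𝓞 F), dn K w = v ∧ x ∈ w.asIdeal}.Finite := by
    intro x hx
    refine ((H30MQ.fin_mem hx).image (dn K)).subset ?_
    rintro v ⟨w, rfl, hw⟩
    exact ⟨w, hw, rfl⟩
  have hbad : (((A₀ ∪ (Sg : Set (HeightOneSpectrum (𝓞 K)))) ∪
      {v : HeightOneSpectrum (𝓞 K) | (3 : 𝓞 K) ∈ v.asIdeal}) ∪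
      ⋃ g : {g : F ≃ₐ[K] F // g ≠ 1}, {v : HeightOneSpectrum (𝓞 K) |
        ∃ w : HeightOneSpectrum (𝓞 F), dn K w = v ∧
          H38T1.gO (gq g.1) (X g.1) - X g.1 ∈ w.asIdeal}).Finite := by
    refine ((hA₀.union Sg.finite_toSet).union (H30MQ.fin_mem (by norm_num))).union ?_
    exact Set.finite_iUnion fun g => hfinK _ (hX g.1 g.2)
  obtain ⟨w, hwB, hw2, hdeg, hla⟩ := H76OD.cheb_N (K := K) D hD0 ψ _ hbad
  obtain ⟨v, hv⟩ : ∃ v : HeightOneSpectrum (𝓞 F), v = dn F w := ⟨_, rfl⟩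
  have hKv : dn K v = dn K w := by
    apply HeightOneSpectrum.ext
    ext x
    rw [hv]
    change algebraMap (𝓞 F) (𝓞 L) (algebraMap (𝓞 K) (𝓞 F) x) ∈ w.asIdeal ↔
      algebraMap (𝓞 K) (𝓞 L) x ∈ w.asIdeal
    rw [IsScalarTower.algebraMap_apply (𝓞 K) (𝓞 F) (𝓞 L) x]
  have hmem : ∀ x : 𝓞 F, x ∈ v.asIdeal ↔ algebraMap (𝓞 F) (𝓞 L) x ∈ w.asIdeal := by
    intro x
    rw [hv]
    rfl
  have hδD : δL ∈ D := by
    rw [hD]
    exact Finset.mem_insert_self _ _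
  obtain ⟨hδw, hδla⟩ := hla δL hδD
  rw [hφ2] at hδla
  have hodd : OddP w := by
    have h3 : w.valuation L ((2 : 𝓞 L) : L) = 1 := w.valuation_eq_one_iff_notMem.mpr hw2
    have h4 : ((2 : 𝓞 L) : L) = 2 := map_ofNat _ 2
    rw [h4] at h3
    exact h3
  obtain ⟨n, hn⟩ := hdeg θ'
  obtain ⟨t, ht⟩ : ∃ t : 𝓞 F, t = algebraMap (𝓞 K) (𝓞 F) n := ⟨_, rfl⟩
  have htL : algebraMap (𝓞 F) (𝓞 L) t = algebraMap (𝓞 K) (𝓞 L) n := by
    rw [ht]
    exact (IsScalarTower.algebraMap_apply (𝓞 K) (𝓞 F) (𝓞 L) n).symm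
  rw [← htL] at hn
  have hroot : θ' ^ 3 + algebraMap (𝓞 F) (𝓞 L) A * θ' + algebraMap (𝓞 F) (𝓞 L) B = 0 := by
    apply RingOfIntegers.coe_injective
    have h1 := hcub.root
    simp only [map_add, map_mul, map_pow, map_zero, hθ']
    exact h1
  have hroott : t ^ 3 + A * t + B ∈ v.asIdeal := by
    rw [hmem]
    have h1 : algebraMap (𝓞 F) (𝓞 L) (t ^ 3 + A * t + B) =
        (algebraMap (𝓞 F) (𝓞 L) t - θ') * (algebraMap (𝓞 F) (𝓞 L) t ^ 2 +
          algebraMap (𝓞 F) (𝓞 L) t * θ' + θ' ^ 2 + algebraMap (𝓞 F) (𝓞 L) A) := by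
      simp only [map_add, map_mul, map_pow]
      linear_combination hroot
    rw [h1]
    exact w.asIdeal.mul_mem_right _ hn
  have htyp : ∃ t : 𝓞 F, t ^ 3 + A * t + B ∈ v.asIdeal ∧
      ∀ s : 𝓞 F, -3 * t ^ 2 - 4 * A - s ^ 2 ∉ v.asIdeal := by
    refine ⟨t, hroott, fun s hs => ?_⟩
    have h1 : la w (sc (δL : L)) = 0 := by
      rw [H30MQ.la_iff hodd hδw]
      refine ⟨algebraMap (𝓞 F) (𝓞 L) (s * (3 * t ^ 2 + A)), ?_⟩
      rw [hδL, ← map_pow, ← map_sub, ← hmem]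
      have h2 : δ - (s * (3 * t ^ 2 + A)) ^ 2 =
          (-3 * t ^ 2 - 4 * A - s ^ 2) * (3 * t ^ 2 + A) ^ 2 +
          (t ^ 3 + A * t + B) * (54 * (t ^ 3 + A * t) - 27 * (t ^ 3 + A * t + B)) := by
        rw [hδ]
        unfold dsc
        ring
      rw [h2]
      exact v.asIdeal.add_mem (v.asIdeal.mul_mem_right _ hs) (v.asIdeal.mul_mem_right _ hroott)
    rw [hδla] at h1
    exact one_ne_zero h1
  have hdsc : dsc A B ∉ v.asIdeal ^ 2 := by
    intro h1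
    have h2 : dsc A B ∈ v.asIdeal := Ideal.pow_le_self two_ne_zero h1
    apply hδw
    rw [hδL, ← hmem, hδ]
    exact v.asIdeal.neg_mem h2
  have hKw : dn K w ∉ A₀ ∧ dn K w ∉ Sg ∧ (3 : 𝓞 K) ∉ (dn K w).asIdeal := by
    refine ⟨fun h => hwB (Or.inl (Or.inl (Or.inl h))), fun h => hwB (Or.inl (Or.inl (Or.inr h))),
      fun h => hwB (Or.inl (Or.inr h))⟩
  have h6 : (6 : 𝓞 F) ∉ v.asIdeal := by
    intro h
    have e1 : (6 : 𝓞 F) = 2 * 3 := by norm_num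
    rw [e1] at h
    rcases v.isPrime.mem_or_mem h with h | h
    · apply hw2
      have h1 := (hmem 2).1 h
      rwa [map_ofNat] at h1
    · apply hKw.2.2
      rw [← hKv]
      change algebraMap (𝓞 K) (𝓞 F) 3 ∈ v.asIdeal
      rw [map_ofNat]
      exact h
  obtain ⟨w₁, w₂, h2⟩ := H76MQ.exists_TwT hcub hdsc h6 htyp
  have hw1 : w = w₁ := by
    rcases h2.only w hv.symm with h | h
    · exact h
    · exfalso
      have h3 := h2.unit2 (t : F) (v.valuation_le_one t)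
      rw [← h] at h3
      have h4 := (w.valuation_lt_one_iff_mem (K := L) (algebraMap (𝓞 F) (𝓞 L) t - θ')).2 hn
      have h5 : ((algebraMap (𝓞 F) (𝓞 L) t - θ' : 𝓞 L) : L) = algebraMap F L (t : F) - θ := by
        rw [← hθ']
        change algebraMap (𝓞 L) L (algebraMap (𝓞 F) (𝓞 L) t - θ') = _
        rw [map_sub]
        rfl
      have h6 : w.valuation L ((algebraMap (𝓞 F) (𝓞 L) t - θ' : 𝓞 L) : L) < 1 := h4
      rw [h5, h3] at h6
      exact lt_irrefl _ h6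
  rw [← hw1, hA'] at h2
  refine ⟨⟨v, w, w₂, ?_, h2, ?_⟩, ?_, fun c hc => ?_⟩
  · rw [hKv]
    exact hKw.2.1
  · intro g hg
    by_contra hg1
    have h3 : gq g • v = v := by
      have h4 := H88OD.dn_smul S g w₂
      rw [hg, h2.dn2] at h4
      exact h4.symm
    obtain ⟨m, hm⟩ := hdeg (algebraMap (𝓞 F) (𝓞 L) (X g))
    have hm1 : algebraMap (𝓞 K) (𝓞 F) m - X g ∈ v.asIdeal := by
      rw [hmem, map_sub, ← IsScalarTower.algebraMap_apply (𝓞 K) (𝓞 F) (𝓞 L) m]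
      exact hm
    have hm2 : H38T1.gO (gq g) (algebraMap (𝓞 K) (𝓞 F) m - X g) ∈ v.asIdeal := by
      rw [← h3]
      change H38T1.gO (gq g)⁻¹ (H38T1.gO (gq g) (algebraMap (𝓞 K) (𝓞 F) m - X g)) ∈ v.asIdeal
      have h4 : H38T1.gO (gq g)⁻¹ (H38T1.gO (gq g) (algebraMap (𝓞 K) (𝓞 F) m - X g)) =
          algebraMap (𝓞 K) (𝓞 F) m - X g := by
        apply RingOfIntegers.ext
        rw [H38T1.gO_coe, H38T1.gO_coe]
        exact (gq g).symm_apply_apply _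
      rw [h4]
      exact hm1
    have h5 : H38T1.gO (gq g) (algebraMap (𝓞 K) (𝓞 F) m) = algebraMap (𝓞 K) (𝓞 F) m := by
      apply RingOfIntegers.ext
      rw [H38T1.gO_coe]
      exact g.commutes (m : K)
    have h6 : H38T1.gO (gq g) (X g) - X g ∈ v.asIdeal := by
      have h7 : H38T1.gO (gq g) (X g) - X g = (algebraMap (𝓞 K) (𝓞 F) m - X g) -
          H38T1.gO (gq g) (algebraMap (𝓞 K) (𝓞 F) m - X g) := by
        rw [map_sub, h5]
        ring
      rw [h7]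
      exact v.asIdeal.sub_mem hm1 hm2
    apply hwB
    right
    exact Set.mem_iUnion.2 ⟨⟨g, hg1⟩, v, hKv, h6⟩
  · change dn K v ∉ A₀
    rw [hKv]
    exact hKw.1
  · have h3 : r c ∈ D := by
      rw [hD, Finset.mem_insert, Finset.mem_image]
      exact Or.inr ⟨c, hY.mem_toFinset.2 hc, rfl⟩
    have h4 := (hla _ h3).2
    rw [hr1] at h4
    exact h4

variable {K L : Type} [Field K] [NumberField K] [Field L]
  [NumberField L] [Algebra K L] {a b : K} {θ : L}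

theorem exists_spK (S : Ext K K L a b θ) (Sg X : Finset (HeightOneSpectrum (𝓞 K)))
    (W : AddSubgroup (SC L)) (hfin : Finite W) (hW : ∀ c ∈ W, c ∈ H30ZO.HH K L)
    (φ : SC L →+ ZMod 2) {B : Set (SC K)} (hB : B.Finite) (χ : SC K →+ ZMod 2)
    (hχ : χ (sc (-(4 * a ^ 3 + 27 * b ^ 2))) = 1) :
    ∃ P : Sp S Sg, P.q ∉ X ∧ (∀ c ∈ W, P.tr c = 0 ∧ P.fl c = S.el φ c) ∧
      ∀ β ∈ B, la P.q β = χ β := by
  obtain ⟨ι, hι⟩ : ∃ ι : SC K →+ SC L, ι = scm (algebraMap K L : K →* L) := ⟨_, rfl⟩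
  obtain ⟨N, hN⟩ : ∃ N : SC L →+ SC K, N = scm (Algebra.norm K : L →* K) := ⟨_, rfl⟩
  have hιsc : ∀ x : K, x ≠ 0 → ι (sc x) = sc (algebraMap K L x) := by
    intro x hx
    rw [hι, H76PP.scm_sc _ hx]
    rfl
  have hNι : ∀ β : SC K, N (ι β) = β := by
    intro β
    obtain ⟨x, hx, rfl⟩ := H38T1.sc_surj β
    have hx' : algebraMap K L x ≠ 0 := (map_ne_zero _).2 hx
    rw [hιsc x hx, hN, H76PP.scm_sc _ hx']
    have h1 : Algebra.norm K (algebraMap K L x) = x * x ^ 2 := by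
      rw [Algebra.norm_algebraMap, S.cub.finrank]
      ring
    rw [h1, H38T1.sc_mul hx (pow_ne_zero 2 hx), H54MT.sc_sq hx, add_zero]
  obtain ⟨ψ, hψdef⟩ : ∃ ψ : SC L →+ ZMod 2, ψ = φ + φ.comp (ι.comp N) + χ.comp N := ⟨_, rfl⟩
  have hψap : ∀ c, ψ c = φ c + φ (ι (N c)) + χ (N c) := by
    intro c
    rw [hψdef]
    rfl
  have hψ0 : ∀ c ∈ H30ZO.HH K L, ψ c = φ c := by
    intro c hc
    have h1 : scm (Algebra.norm K : L →* K) c = 0 := hc
    have h2 : N c = 0 := by rw [hN]; exact h1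
    rw [hψap, h2, map_zero, map_zero, map_zero, add_zero, add_zero]
  have hψ1 : ∀ β : SC K, ψ (ι β) = χ β := by
    intro β
    rw [hψap, hNι, CharTwo.add_self_eq_zero, zero_add]
  have hne : -(4 * a ^ 3 + 27 * b ^ 2) ≠ 0 := neg_ne_zero.2 S.dne
  have hψ2 : ψ (sc (algebraMap K L (algebraMap K K (-(4 * a ^ 3 + 27 * b ^ 2))))) = 1 := by
    have h1 : algebraMap K K (-(4 * a ^ 3 + 27 * b ^ 2)) = -(4 * a ^ 3 + 27 * b ^ 2) := rfl
    rw [h1, ← hιsc _ hne, hψ1, hχ]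
  have hWf : (W : Set (SC L)).Finite := Set.toFinite _
  have hA : ((((X : Set (HeightOneSpectrum (𝓞 K))) ∪
      {v : HeightOneSpectrum (𝓞 K) | (2 : 𝓞 K) ∈ v.asIdeal}) ∪
      ⋃ c ∈ (W : Set (SC L)),
        (fun w : HeightOneSpectrum (𝓞 L) => dn K (dn K w)) '' {w | eo w c ≠ 0}) ∪
      ⋃ β ∈ B, {w : HeightOneSpectrum (𝓞 K) | eo w β ≠ 0}).Finite :=
    ((X.finite_toSet.union (H30MQ.fin_mem (by norm_num))).union
      (hWf.biUnion fun c _ => (fin_supp c).image _)).union (hB.biUnion fun β _ => fin_supp β)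
  obtain ⟨P, hP, hla⟩ := exists_spG S Sg (Y := (W : Set (SC L)) ∪ ι '' B)
    (hWf.union (hB.image _)) ψ hψ2 hA
  have hPX : P.q ∉ X := fun h => hP (Or.inl (Or.inl (Or.inl h)))
  have hP2 : (2 : 𝓞 K) ∉ P.q.asIdeal := fun h => hP (Or.inl (Or.inl (Or.inr h)))
  have hPodd : OddP P.q := by
    have h3 : P.q.valuation K ((2 : 𝓞 K) : K) = 1 := P.q.valuation_eq_one_iff_notMem.mpr hP2
    have h4 : ((2 : 𝓞 K) : K) = 2 := map_ofNat _ 2
    rw [h4] at h3
    exact h3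
  have hPW : ∀ c ∈ W, eo P.t2 c = 0 := by
    intro c hc
    by_contra h
    refine hP (Or.inl (Or.inr (Set.mem_biUnion (show c ∈ (W : Set (SC L)) from hc)
      ⟨P.t2, h, ?_⟩)))
    change dn K (dn K P.t2) = dn K P.v
    rw [P.tw.dn2]
  have hPB : ∀ β ∈ B, eo P.q β = 0 := by
    intro β hβ
    by_contra h
    exact hP (Or.inr (Set.mem_biUnion hβ h))
  have hqv : P.q = P.v := dn_self P.v
  have hg1 : ∀ (g : K ≃ₐ[K] K) (c : SC L), S.ρ g⁻¹ • c = c := by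
    intro g c
    have h1 : g⁻¹ = 1 := Subsingleton.elim _ _
    rw [h1, map_one, one_smul]
  refine ⟨P, hPX, fun c hc => ⟨?_, ?_⟩, fun β hβ => ?_⟩
  · refine rg_ext fun g => ?_
    change eo P.t2 (S.ρ g⁻¹ • c) = 0
    rw [hg1]
    exact hPW c hc
  · refine rg_ext fun g => ?_
    change la P.t1 (S.ρ g⁻¹ • c) + P.nu * eo P.t2 (S.ρ g⁻¹ • c) = φ (S.ρ g⁻¹ • c)
    rw [hg1, hPW c hc, mul_zero, add_zero, hla c (Or.inl hc), hψ0 c (hW c hc)]
  · obtain ⟨x, hx, rfl⟩ := H38T1.sc_surj β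
    have h1 := hla _ (Or.inr ⟨_, hβ, rfl⟩)
    rw [hψ1, hιsc x hx] at h1
    have h2 := hPB _ hβ
    rw [hqv] at h2 hPodd
    rw [hqv, ← h1]
    exact (H76MQ.gg_la1 hPodd P.tw.toTwG hx h2).symm

end H88OD
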