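import Pool.Agent.H88.OD.Gb
import Pool.Agent.H30.ZO.Ed

/-!
ROW Id (project MP_78d38b_OD, about 200 lines): a real place of the base field (`F = K`).

`s0 : K →+* ℝ`; `s0 (-(4 a^3 + 27 b^2)) > 0` means that `x^3 + s0 a x + s0 b` has three different real roots (`real_cases`, `nr_cases` in Pool/Agent/H30/ZO/Ed.lean), `< 0` means one real root. The real embeddings of `L` above `s0` correspond to the real roots (`t θ`): `Cub` gives `L ≅ K[x]/(f)`; see Ed.lean / Gb.lean for the construction (`nr K L s0 = 3` or `1`).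
exists_real3: three embeddings, ordered by the value at `θ`. real_sum: `c = sc y`, `N y` is a square in `K`, so `t1 y * t2 y * t3 y = s0 (N y) > 0` (norm = product over the three embeddings above `s0`; Te_norm: `N y = Te_nf a b d`, and `Te_nf` is the product of the values at the roots), so the number of negative signs is even.
Lr_one: only one real embedding `t` above `s0`, `s0 (N y) = t y * |τ y|^2`, so `t y > 0`, `si t c = 0` for all `t` above `s0`, and `Wc_pos_tw` (Pool/Agent/H76/OD/Lt.lean) applies.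
Lr_sign: `S.Lr D s c` only depends on the sign of `s D` (`Wc_tw_real`).
-/

set_option autoImplicit false
set_option linter.unusedSectionVars false
open scoped Classical

open WithZero NumberField IsDedekindDomain H38RT
open H38T1 (SC sc scu rep eo la si OddP)
open H76PP (Cub LC ev scm dn)

namespace H88OD

/-- Three real embeddings of `L` above `s0`. -/
structure Real3 {K L : Type} [Field K] [NumberField K] [Field L] [NumberField L] [Algebra K L]
    (s0 : K →+* ℝ) (θ : L) (t1 t2 t3 : L →+* ℝ) : Prop where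
  c1 : t1.comp (algebraMap K L) = s0
  c2 : t2.comp (algebraMap K L) = s0
  c3 : t3.comp (algebraMap K L) = s0
  l12 : t1 θ < t2 θ
  l23 : t2 θ < t3 θ
  only : ∀ t : L →+* ℝ, t.comp (algebraMap K L) = s0 → t = t1 ∨ t = t2 ∨ t = t3

variable {K L : Type} [Field K] [NumberField K] [Field L]
  [NumberField L] [Algebra K L] {a b : K} {θ : L}

private lemma Id_disc (s0 : K →+* ℝ) :
    s0 (-(4 * a ^ 3 + 27 * b ^ 2)) = -(4 * (s0 a) ^ 3 + 27 * (s0 b) ^ 2) := by
  simp only [map_neg, map_add, map_mul, map_pow, map_ofNat]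

private lemma Id_root (h : Cub K L a b θ) {s0 : K →+* ℝ} (t : L →+* ℝ)
    (ht : t.comp (algebraMap K L) = s0) : (t θ) ^ 3 + s0 a * t θ + s0 b = 0 := by
  have h1 := congrArg t h.root
  rw [map_add, map_add, map_mul, map_pow, map_zero] at h1
  rw [← ht]
  exact h1

private lemma Id_ext (h : Cub K L a b θ) {s0 : K →+* ℝ} {t t' : L →+* ℝ}
    (ht : t.comp (algebraMap K L) = s0) (ht' : t'.comp (algebraMap K L) = s0)
    (he : t θ = t' θ) : t = t' := by
  have e : ∀ x : K, t (algebraMap K L x) = t' (algebraMap K L x) := by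
    intro x
    have h1 : t.comp (algebraMap K L) x = t'.comp (algebraMap K L) x := by rw [ht, ht']
    exact h1
  ext x
  obtain ⟨c0, c1, c2, rfl⟩ := h.sp x
  simp only [map_add, map_mul, map_pow, e, he]

private lemma Id_ev (h : Cub K L a b θ) (c : SC L) :
    ∃ d : Fin 3 → K, ev θ d ≠ 0 ∧ sc (ev θ d) = c := by
  obtain ⟨d0, d1, d2, hd⟩ := h.sp (rep c)
  have : ev θ ![d0, d1, d2] = rep c := by
    rw [hd]
    rfl
  refine ⟨![d0, d1, d2], ?_, ?_⟩
  · rw [this]
    exact H38T1.rep_ne c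
  · rw [this]
    exact H38T1.sc_rep c

private lemma Id_tev (s : K →+* ℝ) (t : L →+* ℝ) (ht : t.comp (algebraMap K L) = s)
    (d : Fin 3 → K) : t (ev θ d) = H24PD.E3 (t θ) (fun j => s (d j)) := by
  unfold ev H24PD.E3
  rw [← ht]
  simp only [map_add, map_mul, map_pow, RingHom.comp_apply]

private lemma Id_pos (h : Cub K L a b θ) (s : K →+* ℝ) {d : Fin 3 → K} (hd0 : ev θ d ≠ 0)
    (hc : sc (ev θ d) ∈ H30ZO.HH K L) :
    0 < H76PP.Te_nf (s a) (s b) (fun j => s (d j)) := by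
  have _ : FiniteDimensional K L := Module.Finite.of_restrictScalars_finite ℚ K L
  rw [H30ZO.mem_HH hd0, H76PP.Te_norm h] at hc
  obtain ⟨n, hn⟩ := hc
  rw [H76PP.Te_nf_map, hn, map_mul]
  have h1 : H76PP.Te_nf a b d ≠ 0 := by
    rw [← H76PP.Te_norm h]
    exact Algebra.norm_ne_zero_iff.2 hd0
  have h2 : s n ≠ 0 := by
    intro h0
    apply h1
    rw [hn, (map_eq_zero s).1 h0, mul_zero]
  exact mul_self_pos.2 h2

private lemma Id_sw {t : L →+* ℝ} {x : L} (hx : x ≠ 0) :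
    (0 < t x ∧ si t (sc x) = 0) ∨ (t x < 0 ∧ si t (sc x) = 1) := by
  rw [H38T1.si_sc t hx, H38RT.sw]
  rcases lt_or_gt_of_ne ((map_ne_zero t).2 hx) with h | h
  · exact Or.inr ⟨h, if_pos h⟩
  · exact Or.inl ⟨h, if_neg (not_lt.2 h.le)⟩

theorem exists_real3 (h : Cub K L a b θ) {s0 : K →+* ℝ} (hs : 0 < s0 (-(4 * a ^ 3 + 27 * b ^ 2))) :
    ∃ t1 t2 t3 : L →+* ℝ, Real3 s0 θ t1 t2 t3 := by
  rw [Id_disc] at hs
  have hD' : 4 * (s0 a) ^ 3 + 27 * (s0 b) ^ 2 ≠ 0 := by
    intro h0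
    rw [h0, neg_zero] at hs
    exact lt_irrefl 0 hs
  rcases H30ZO.real_cases hD' with ⟨r, p, q, hf, hpq⟩ | ⟨r₁, r₂, r₃, h12, h23, hf⟩
  · exfalso
    have e0 := hf 0
    have e1 := hf 1
    have e2 := hf (-1)
    have hp : p = r := by linarith
    have hA : s0 a = q - r ^ 2 := by
      rw [hp] at e1 e0
      linarith
    have hB : s0 b = -(r * q) := by linarith
    have e : 4 * (s0 a) ^ 3 + 27 * (s0 b) ^ 2 = (4 * q - r ^ 2) * (2 * r ^ 2 + q) ^ 2 := by
      rw [hA, hB]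
      ring
    rw [hp] at hpq
    have := mul_nonneg (by linarith : 0 ≤ 4 * q - r ^ 2) (sq_nonneg (2 * r ^ 2 + q))
    linarith
  · have z1 : r₁ ^ 3 + s0 a * r₁ + s0 b = 0 := by
      rw [hf]
      ring
    have z2 : r₂ ^ 3 + s0 a * r₂ + s0 b = 0 := by
      rw [hf]
      ring
    have z3 : r₃ ^ 3 + s0 a * r₃ + s0 b = 0 := by
      rw [hf]
      ring
    obtain ⟨t₁, ht₁, hr₁⟩ := H30ZO.emb_real h s0 z1
    obtain ⟨t₂, ht₂, hr₂⟩ := H30ZO.emb_real h s0 z2
    obtain ⟨t₃, ht₃, hr₃⟩ := H30ZO.emb_real h s0 z3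
    refine ⟨t₁, t₂, t₃, ht₁, ht₂, ht₃, ?_, ?_, fun t ht => ?_⟩
    · rw [hr₁, hr₂]
      exact h12
    · rw [hr₂, hr₃]
      exact h23
    · have h1 := Id_root h t ht
      rw [hf] at h1
      rcases mul_eq_zero.1 h1 with h2 | h2
      · rcases mul_eq_zero.1 h2 with h3 | h3
        · exact Or.inl (Id_ext h ht ht₁ (by rw [hr₁]; linarith))
        · exact Or.inr (Or.inl (Id_ext h ht ht₂ (by rw [hr₂]; linarith)))
      · exact Or.inr (Or.inr (Id_ext h ht ht₃ (by rw [hr₃]; linarith)))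

theorem real_sum (h : Cub K L a b θ) {s0 : K →+* ℝ} {t1 t2 t3 : L →+* ℝ}
    (R : Real3 s0 θ t1 t2 t3) {c : SC L} (hc : c ∈ H30ZO.HH K L) :
    si t1 c + si t2 c + si t3 c = 0 := by
  obtain ⟨d, hd0, rfl⟩ := Id_ev h c
  have hpos := Id_pos h s0 hd0 hc
  have z1 := Id_root h t1 R.c1
  have z2 := Id_root h t2 R.c2
  have z3 := Id_root h t3 R.c3
  have l12 := R.l12
  have l23 := R.l23
  have v1 := Id_tev (θ := θ) s0 t1 R.c1 d
  have v2 := Id_tev (θ := θ) s0 t2 R.c2 d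
  have v3 := Id_tev (θ := θ) s0 t3 R.c3 d
  obtain ⟨E, hE⟩ : ∃ E : Fin 3 → ℝ, E = fun j => s0 (d j) := ⟨_, rfl⟩
  rw [← hE] at hpos v1 v2 v3
  generalize t1 θ = r₁ at z1 l12 v1
  generalize t2 θ = r₂ at z2 l12 l23 v2
  generalize t3 θ = r₃ at z3 l23 v3
  have e1 : r₁ ^ 2 + r₁ * r₂ + r₂ ^ 2 + s0 a = 0 := by
    have e : (r₂ - r₁) * (r₁ ^ 2 + r₁ * r₂ + r₂ ^ 2 + s0 a) = 0 := by linear_combination z2 - z1
    rcases mul_eq_zero.1 e with h1 | h1
    · linarith
    · exact h1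
  have e2 : r₂ ^ 2 + r₂ * r₃ + r₃ ^ 2 + s0 a = 0 := by
    have e : (r₃ - r₂) * (r₂ ^ 2 + r₂ * r₃ + r₃ ^ 2 + s0 a) = 0 := by linear_combination z3 - z2
    rcases mul_eq_zero.1 e with h1 | h1
    · linarith
    · exact h1
  have hs : r₁ + r₂ + r₃ = 0 := by
    have e : (r₃ - r₁) * (r₁ + r₂ + r₃) = 0 := by linear_combination e2 - e1
    rcases mul_eq_zero.1 e with h1 | h1
    · linarith
    · exact h1
  have h3 : r₃ = -(r₁ + r₂) := by linarith
  have hA : s0 a = -(r₁ ^ 2 + r₁ * r₂ + r₂ ^ 2) := by linarith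
  have hB : s0 b = r₁ * r₂ * (r₁ + r₂) := by
    rw [hA] at z1
    linear_combination z1
  have hnf : H76PP.Te_nf (s0 a) (s0 b) E = H24PD.E3 r₁ E * H24PD.E3 r₂ E * H24PD.E3 r₃ E := by
    rw [hA, hB, h3]
    unfold H76PP.Te_nf H24PD.E3
    ring
  rw [hnf, ← v1, ← v2, ← v3] at hpos
  have h11 : (1 : ZMod 2) + 1 = 0 := by decide
  rcases Id_sw (t := t1) hd0 with ⟨p1, q1⟩ | ⟨p1, q1⟩ <;>
    rcases Id_sw (t := t2) hd0 with ⟨p2, q2⟩ | ⟨p2, q2⟩ <;>
    rcases Id_sw (t := t3) hd0 with ⟨p3, q3⟩ | ⟨p3, q3⟩ <;> rw [q1, q2, q3]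
  · rfl
  · exact absurd hpos (not_lt.2 (mul_neg_of_pos_of_neg (mul_pos p1 p2) p3).le)
  · exact absurd hpos (not_lt.2 (mul_neg_of_neg_of_pos (mul_neg_of_pos_of_neg p1 p2) p3).le)
  · rw [zero_add, h11]
  · exact absurd hpos (not_lt.2 (mul_neg_of_neg_of_pos (mul_neg_of_neg_of_pos p1 p2) p3).le)
  · rw [add_zero, h11]
  · rw [add_zero, h11]
  · exact absurd hpos (not_lt.2 (mul_neg_of_pos_of_neg (mul_pos_of_neg_of_neg p1 p2) p3).le)

theorem Lr_one (S : Ext K K L a b θ) {s0 : K →+* ℝ} (hs : s0 (-(4 * a ^ 3 + 27 * b ^ 2)) < 0)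
    {D : K} (hD : D ≠ 0) {c : SC L} (hc : c ∈ H30ZO.HH K L) : S.Lr D s0 c := by
  have hcub : Cub K L a b θ := S.cub
  have key : ∀ t : L →+* ℝ, t.comp (algebraMap K L) = s0 → si t c = 0 := by
    intro t ht
    rw [Id_disc] at hs
    have hD' : 4 * (s0 a) ^ 3 + 27 * (s0 b) ^ 2 ≠ 0 := by
      intro h0
      rw [h0, neg_zero] at hs
      exact lt_irrefl 0 hs
    rcases H30ZO.real_cases hD' with ⟨r, p, q, hf, hpq⟩ | ⟨r₁, r₂, r₃, h12, h23, hf⟩
    · have e0 := hf 0
      have e1 := hf 1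
      have e2 := hf (-1)
      have hp : p = r := by linarith
      have hA : s0 a = q - r ^ 2 := by
        rw [hp] at e1 e0
        linarith
      have hB : s0 b = -(r * q) := by linarith
      obtain ⟨d, hd0, rfl⟩ := Id_ev hcub c
      have hpos := Id_pos hcub s0 hd0 hc
      have h1 : t θ = r := by
        have h2 := Id_root hcub t ht
        rw [hf] at h2
        rcases mul_eq_zero.1 h2 with h3 | h3
        · linarith
        · nlinarith [sq_nonneg (2 * t θ + p)]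
      have v1 := Id_tev (θ := θ) s0 t ht d
      rw [h1] at v1
      obtain ⟨E, hE⟩ : ∃ E : Fin 3 → ℝ, E = fun j => s0 (d j) := ⟨_, rfl⟩
      rw [← hE] at hpos v1
      have h4 : H76PP.Te_nf (s0 a) (s0 b) E = H24PD.E3 r E *
          ((E 0 - q * E 2) ^ 2 - r * (E 0 - q * E 2) * (E 1 - r * E 2) +
            q * (E 1 - r * E 2) ^ 2) := by
        rw [hA, hB]
        unfold H76PP.Te_nf H24PD.E3
        ring
      have h5 : 0 ≤ (E 0 - q * E 2) ^ 2 - r * (E 0 - q * E 2) * (E 1 - r * E 2) +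
          q * (E 1 - r * E 2) ^ 2 := by
        rw [hp] at hpq
        nlinarith [sq_nonneg (2 * (E 0 - q * E 2) - r * (E 1 - r * E 2)),
          mul_nonneg (by linarith : 0 ≤ 4 * q - r ^ 2) (sq_nonneg (E 1 - r * E 2))]
      rw [h4, ← v1] at hpos
      rcases Id_sw (t := t) hd0 with ⟨_, q1⟩ | ⟨p1, _⟩
      · exact q1
      · exact absurd hpos (not_lt.2 (mul_nonpos_of_nonpos_of_nonneg p1.le h5))
    · exfalso
      have e0 := hf 0
      have e1 := hf 1
      have e2 := hf (-1)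
      have h3 : r₃ = -(r₁ + r₂) := by linarith
      have hB : s0 b = r₁ * r₂ * (r₁ + r₂) := by
        rw [h3] at e0
        linarith
      have hA : s0 a = -(r₁ ^ 2 + r₁ * r₂ + r₂ ^ 2) := by
        rw [hB, h3] at e1
        linarith
      have e : 4 * (s0 a) ^ 3 + 27 * (s0 b) ^ 2 =
          -((r₁ - r₂) * (2 * r₁ + r₂) * (r₁ + 2 * r₂)) ^ 2 := by
        rw [hA, hB]
        ring
      have := sq_nonneg ((r₁ - r₂) * (2 * r₁ + r₂) * (r₁ + 2 * r₂))
      linarith
  have h := H76OD.Wc_pos_tw S.cub s0 (Gb_dF S) (E := algebraMap K K D)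
    ((map_ne_zero _).2 hD) (c := c) key
  unfold Ext.Lr
  rw [map_mul (algebraMap K K) (D ^ 2) a, map_mul (algebraMap K K) (D ^ 3) b, map_pow, map_pow]
  exact h

theorem Lr_sign (S : Ext K K L a b θ) (s : K →+* ℝ) {D D' : K} (hD : D ≠ 0) (hD' : D' ≠ 0)
    (h : 0 < s D ↔ 0 < s D') (c : SC L) : S.Lr D s c ↔ S.Lr D' s c := by
  have hr : 0 < s (algebraMap K K D' / algebraMap K K D) := by
    have e : algebraMap K K D' / algebraMap K K D = D' / D := rfl
    rw [e, map_div₀]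
    rcases lt_or_gt_of_ne ((map_ne_zero s).2 hD) with h1 | h1
    · have h2 : s D' < 0 := by
        rcases lt_or_gt_of_ne ((map_ne_zero s).2 hD') with h3 | h3
        · exact h3
        · exact absurd (h.2 h3) (not_lt.2 h1.le)
      exact div_pos_of_neg_of_neg h2 h1
    · exact div_pos (h.1 h1) h1
  have key := H76OD.Wc_tw_real s (a := algebraMap K K a) (b := algebraMap K K b) (θ := θ)
    (E := algebraMap K K D) (E' := algebraMap K K D') ((map_ne_zero _).2 hD)
    ((map_ne_zero _).2 hD') hr (c := c)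
  unfold Ext.Lr
  rw [map_mul (algebraMap K K) (D ^ 2) a, map_mul (algebraMap K K) (D ^ 3) b, map_pow, map_pow,
    map_mul (algebraMap K K) (D' ^ 2) a, map_mul (algebraMap K K) (D' ^ 3) b, map_pow, map_pow]
  exact key

end H88OD
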