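import Pool.Agent.H88.RE.Ik
import Pool.Agent.H88.OD.Ha
import Pool.Agent.H30.OD.Cs

/-!
ROW Ie (project MP_78d38b_OD, about 200 lines): the reciprocity law with a relaxed real place (`F = K`).  Use the STATEMENTS of Ik (con_real), Id, Ha, Gb, Gt and Pool/Agent/H76/OD/Rc.lean, Pool/Agent/H30/OD/Cs.lean.

As `H76OD.rec_T` (Pool/Agent/H76/OD/Rc.lean; `F = K`, `A, B` integral by `H76OD.Lt_int`), with the real places: `s ≠ s0`: `conR_of_Wc` (Pool/Agent/H30/OD/Cs.lean) for `S.Lr 1 s c` (the twist by `1`); `s = s0`: con_real. Finite places outside `T`: in `Sg`: `conAt_of_Wc`; outside `Sg ∪ T`: `c` is even above `v` and `v` is good (hok): `H76OD.Wc_good` gives the local condition, conAt_of_Wc.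
`P.nu = nuw K a θ P.t1`, `eo * (la + nu) = eo * (la + nu * eo)` in `ZMod 2`. The special primes of `T` have different `P.v` (Sp_eq, dn_self): the sum over `T.image Sp.v` is the sum over `T`; `dsc A B ∉ v ^ 2` because `4 a^3 + 27 b^2` is a unit at `v ∉ Sg`.
-/

set_option autoImplicit false
set_option linter.unusedSectionVars false
open scoped Classical

open WithZero NumberField IsDedekindDomain H38RT
open H38T1 (SC sc scu rep eo la si OddP)
open H76PP (Cub LC ev scm dn)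

namespace H88OD

variable {K L : Type} [Field K] [NumberField K] [Field L]
  [NumberField L] [Algebra K L] {a b : K} {θ : L}

/-- The relaxed group: no condition at the real place `s0`. -/
structure Ext.YR (S : Ext K K L a b θ) (s0 : K →+* ℝ) (Sg T : Finset (HeightOneSpectrum (𝓞 K)))
    (c : SC L) : Prop where
  hh : c ∈ H30ZO.HH K L
  fin : ∀ v : HeightOneSpectrum (𝓞 K), v ∈ Sg → S.Lv 1 v c
  inf : ∀ s : K →+* ℝ, s ≠ s0 → S.Lr 1 s c
  ev : ∀ w : HeightOneSpectrum (𝓞 L), dn K w ∉ Sg → dn K w ∉ T → eo w c = 0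

private lemma Ie_q {S : Ext K K L a b θ} {Sg : Finset (HeightOneSpectrum (𝓞 K))} (P : Sp S Sg) :
    P.q = P.v := dn_self P.v

theorem rec_real {S : Ext K K L a b θ} {Sg : Finset (HeightOneSpectrum (𝓞 K))} (hok : S.Ok 1 Sg)
    {s0 : K →+* ℝ} {t1 t2 t3 : L →+* ℝ} (R : Real3 s0 θ t1 t2 t3) (T : Finset (Sp S Sg)) {c : SC L}
    (hc : S.YR s0 Sg (T.image Sp.q) c) :
    ∑ P ∈ T, eo P.t2 c * (la P.t1 c + P.nu * eo P.t2 c) + si t1 c * si t3 c = 0 := by
  obtain ⟨A, rfl⟩ := H76OD.Lt_int S.ha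
  obtain ⟨B, rfl⟩ := H76OD.Lt_int S.hb
  have h : Cub K L (A : K) (B : K) θ := S.cub
  have hR : H76PP.HR2 K L A B θ := H76PP.hr2 h S.dne
  obtain ⟨y, hy, hyc⟩ := H38T1.sc_surj c
  have hN : IsSquare (Algebra.norm K y) := by
    have h1 := hc.hh
    rw [← hyc, H30ZO.mem_HH hy] at h1
    exact h1
  obtain ⟨Y, hY, ha, hb⟩ := H76MX.exists_YX h hy
  obtain ⟨y', hy'⟩ : ∃ y', y' = y * Y ^ 2 := ⟨_, rfl⟩
  have hy0 : y' ≠ 0 := by
    rw [hy']
    exact mul_ne_zero hy (pow_ne_zero 2 hY)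
  have hsc : sc y' = c := by
    rw [hy', H38T1.sc_mul hy (pow_ne_zero 2 hY), H54MT.sc_sq hY, add_zero, hyc]
  have hN' : IsSquare (Algebra.norm K y') := by
    obtain ⟨r, hr⟩ := hN
    refine ⟨r * Algebra.norm K Y, ?_⟩
    rw [hy', map_mul, map_pow, hr]
    ring
  rw [← hy'] at ha hb
  have hrec := (H36MX.hilb K).prod (H76MQ.al h y') (H76MQ.be h y') ha hb
  unfold H36MX.BB at hrec
  -- the real places
  have hreal : ∑ w : K →+* ℝ, si w (sc (H76MQ.al h y')) * si w (sc (H76MQ.be h y')) =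
      si t1 c * si t3 c := by
    rw [Finset.sum_eq_single s0]
    · rw [con_real h R hy0 hN' ha hb, hsc]
    · intro s _ hs
      have hcr : H76OD.ConR h s c :=
        H30OD.conR_of_Wc h (E := 1) one_ne_zero s (by
          have h1 := hc.inf s hs
          unfold Ext.Lr at h1
          exact h1)
      have h1 := hcr y' hy0 hsc ha hb
      rw [H38T1.si_sc s hb, H38T1.si_sc s ha]
      unfold sw
      by_cases h2 : s (H76MQ.al h y') < 0
      · have h3 : ¬ s (H76MQ.be h y') < 0 := fun h3 => h1 ⟨h2, h3⟩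
        rw [if_neg h3, mul_zero]
      · rw [if_neg h2, zero_mul]
    · intro hs
      exact absurd (Finset.mem_univ s0) hs
  rw [hreal] at hrec
  -- the finite places
  have hv : ∀ v, v ∉ T.image Sp.v → H76OD.ConAt h v c := by
    intro v hv
    refine H30OD.conAt_of_Wc h (E := 1) one_ne_zero v ?_
    have h1 : S.Lv 1 v c := by
      by_cases hS : v ∈ Sg
      · exact hc.fin v hS
      · refine (Gb_good S hok (v := v) (by rw [dn_self]; exact hS) hc.hh).2 fun w hw => ?_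
        refine hc.ev w (by rw [hw]; exact hS) ?_
        rw [hw]
        intro h2
        apply hv
        rw [Finset.mem_image] at h2 ⊢
        obtain ⟨P, hP, hP2⟩ := h2
        exact ⟨P, hP, by rw [← Ie_q P]; exact hP2⟩
    unfold Ext.Lv at h1
    exact h1
  have hsupp : (Function.support fun v => H36MX.hsv v (H76MQ.al h y') (H76MQ.be h y')) ⊆
      ↑(T.image Sp.v) := by
    intro v hv'
    by_contra h1
    exact hv' (hv v (fun h2 => h1 (Finset.mem_coe.2 h2)) y' hy0 hsc ha hb)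
  rw [finsum_eq_sum_of_support_subset _ hsupp, Finset.sum_image (by
    intro P _ P' _ hPP
    refine Sp_eq ?_
    rw [Ie_q, Ie_q]
    exact hPP)] at hrec
  rw [← hrec]
  congr 1
  refine Finset.sum_congr rfl fun P hPT => ?_
  have hvo := (P.odd hok.two).1
  have hTT : H76MQ.TwT K (A : K) θ P.v P.t1 P.t2 := P.tw
  have hout : P.v ∉ Sg := by
    have h1 := P.out
    rwa [dn_self] at h1
  have hd : H76PP.dsc A B ∉ P.v.asIdeal ^ 2 := by
    intro h1
    have h3 : H76PP.dsc A B ∈ P.v.asIdeal := Ideal.pow_le_self two_ne_zero h1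
    have h4 := (P.v.valuation_lt_one_iff_mem (K := K) (H76PP.dsc A B)).2 h3
    have h5 : ((H76PP.dsc A B : 𝓞 K) : K) = 4 * (A : K) ^ 3 + 27 * (B : K) ^ 2 := by
      unfold H76PP.dsc
      simp only [map_add, map_mul, map_pow, map_ofNat]
    have h6 : P.v.valuation K ((H76PP.dsc A B : 𝓞 K) : K) < 1 := h4
    rw [h5, hok.dis _ hout] at h6
    exact lt_irrefl _ h6
  have hz : ∀ x : ZMod 2, x = 0 ∨ x = 1 := by decide
  rw [(H36MX.hilb K).odd P.v hvo _ _ ha hb]
  rcases hz (eo P.t2 c) with h0 | h0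
  · rw [h0, zero_mul]
    symm
    refine H76MQ.conic_CL h hR hvo hd hy0 hN' ha hb ?_
    intro w hw
    rcases hTT.only w hw with hww | hww
    · rw [hww]
      exact H76MQ.gg_eo1 hR hvo hTT.toTwG h.finrank hy0 hN'
    · rw [hww, hsc]
      exact h0
  · rw [h0, one_mul, mul_one]
    have h1 := H76MQ.conic_CT h hR hvo hTT hy0 hN' ha hb (by rw [hsc]; exact h0)
    rw [h1, hsc]
    rfl

/-- The relaxed group is a finite group. -/
theorem exists_YR (S : Ext K K L a b θ) (s0 : K →+* ℝ) (Sg T : Finset (HeightOneSpectrum (𝓞 K))) :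
    ∃ W : AddSubgroup (SC L), Finite W ∧ ∀ c, c ∈ W ↔ S.YR s0 Sg T c := by
  choose Wv hWv using fun v => Gb_Wv S (D := 1) one_ne_zero v
  choose Ws hWs using fun s => Gb_Ws S (D := 1) one_ne_zero s
  obtain ⟨W, hW⟩ : ∃ W : AddSubgroup (SC L), W = H30ZO.HH K L ⊓
      ((⨅ v : {v : HeightOneSpectrum (𝓞 K) // v ∈ Sg}, Wv v) ⊓
        ((⨅ s : {s : K →+* ℝ // s ≠ s0}, Ws s) ⊓
        Gb_ev fun w => dn K w ∉ Sg ∧ dn K w ∉ T)) := ⟨_, rfl⟩
  have hm : ∀ c, c ∈ W ↔ S.YR s0 Sg T c := by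
    intro c
    rw [hW, AddSubgroup.mem_inf, AddSubgroup.mem_inf, AddSubgroup.mem_inf, AddSubgroup.mem_iInf,
      AddSubgroup.mem_iInf, Gb_mem_ev]
    constructor
    · rintro ⟨h1, h2, h3, h4⟩
      exact ⟨h1, fun v hv => ((hWv v c).1 (h2 ⟨v, hv⟩)).2,
        fun s hs => ((hWs s c).1 (h3 ⟨s, hs⟩)).2, fun w h h' => h4 w ⟨h, h'⟩⟩
    · rintro ⟨h1, h2, h3, h4⟩
      exact ⟨h1, fun v => (hWv v c).2 ⟨h1, h2 v v.2⟩, fun s => (hWs s c).2 ⟨h1, h3 s s.2⟩,
        fun w h => h4 w h.1 h.2⟩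
  refine ⟨W, ?_, hm⟩
  have h2 := Gb_fin (M' := L) (M := K) (A := ((Sg ∪ T : Finset _) : Set _)) (Finset.finite_toSet _)
  have h3 := (H24TD.fin_US h2).subset (fun c (hc : c ∈ (W : Set (SC L))) w hw => by
    have h4 := ((hm c).1 hc).ev w
    have h5 : ¬ (dn K w ∈ Sg ∨ dn K w ∈ T) := by
      intro h
      exact hw (by
        change dn K w ∈ ((Sg ∪ T : Finset _) : Set _)
        rw [Finset.mem_coe, Finset.mem_union]
        exact h)
    exact h4 (fun h => h5 (Or.inl h)) (fun h => h5 (Or.inr h)))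
  exact h3.to_subtype

end H88OD
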