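import Pool.Agent.H88.RE.Ie
import Pool.Agent.H30.OD.Card2

/-!
ROW If (project MP_78d38b_OD, about 200 lines): lower bound for the relaxed group (`F = K`).  Use the STATEMENTS of Ie, Id, Ha and `H30OD.card_tw` (Pool/Agent/H30/OD/Card2.lean, with `E = 1`).

PROOF. `W := {c ∈ HH | S.Lv 1 v c for v ∈ Sg, S.Lr 1 s c for all real s}`, `W' := {c ∈ HH | S.Lv 1 v c for v ∈ Sg, S.Lr 1 s c for s ≠ s0}` (subgroups: `H30ZO.exists_WW`). card_tw (the places `T.image Sp.q`, disjoint from `Sg` by `P.out`; `nb K L v = 2` by `P.tw.only`, `P.tw.ne`, `dn1`, `dn2`): `2 ^ T.card * W.relIndex HH ≤ Nat.card (US ⊓ HH)` with `US = US L {w | dn K w ∈ Sg ∪ T.image Sp.q}`.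
`W ≤ W'`, `W ≠ W'`: there is `c ∈ W'` with `si t1 c = 1` (so not `S.Lr 1 s0 c`, by Lr_pos with `D = 1`): weak approximation gives `y ∈ L` with `t1 y < 0`, `t2 y < 0`, `0 < t3 y`, `0 < t y` for all other real embeddings `t` of `L`, and `y` close to `1` at all places of `L` above `Sg` (a square there); `c := sc (y * N y)` (`N y > 0` at every real place of `K`: at `s0` it is `t1 y * t2 y * t3 y > 0`; `N y` is a square in `K_v`, `v ∈ Sg`; norm `N(y) N(y)^3`). `H30ZO.exists_class`-like lemmas or Pool/Agent/H30/ZO/Ra.lean contain such approximations.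
So `W.relIndex HH = W.relIndex W' * W'.relIndex HH ≥ 2 * W'.relIndex HH` (`relIndex_mul_relIndex`). The group `US ⊓ HH ⊓ W'` has at least `Nat.card (US ⊓ HH) / W'.relIndex HH ≥ 2 ^ (T.card + 1)` elements (the index of `W' ⊓ X` in `X` is at most the index of `W'` in `HH` for `X ≤ HH`), and its elements satisfy `S.YR s0 Sg (T.image Sp.q)` (classes of units outside `Sg ∪ T` are even there).
`(T.image Sp.q).card = T.card` by Sp_eq.
-/

set_option autoImplicit false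
set_option linter.unusedSectionVars false
open scoped Classical

open WithZero NumberField IsDedekindDomain H38RT
open H38T1 (SC sc scu rep eo la si OddP)
open H76PP (Cub LC ev scm dn)

namespace H88OD

variable {K L : Type} [Field K] [NumberField K] [Field L]
  [NumberField L] [Algebra K L] {a b : K} {θ : L}

/-- The lower bound without the condition at the real place `s0`. -/
private theorem If_card {a b : K} {θ : L} (h : Cub K L a b θ)
    (ha : ∀ v : HeightOneSpectrum (𝓞 K), v.valuation K a ≤ 1)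
    (hb : ∀ v : HeightOneSpectrum (𝓞 K), v.valuation K b ≤ 1)
    (hD : 4 * a ^ 3 + 27 * b ^ 2 ≠ 0)
    {Sg T : Finset (HeightOneSpectrum (𝓞 K))} (hd : Disjoint Sg T)
    (h2 : ∀ v : HeightOneSpectrum (𝓞 K), v.valuation K 2 < 1 → v ∈ Sg)
    (hT : ∀ v ∈ T, H30ZO.nb K L v = 2) {s0 : K →+* ℝ} (hs0 : H30ZO.nr K L s0 = 3)
    {W : AddSubgroup (SC L)}
    (hW : ∀ c, c ∈ W ↔ c ∈ H30ZO.HH K L ∧
      (∀ v ∈ Sg, H30ZO.Wc (algebraMap K (v.adicCompletion K)) a b θ c) ∧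
      ∀ s : K →+* ℝ, s ≠ s0 → H30ZO.Wc s a b θ c) :
    W.relIndex (H30ZO.HH K L) ≠ 0 ∧
      2 ^ (T.card + 1) * W.relIndex (H30ZO.HH K L) ≤
        Nat.card ↥(H24TD.US L {w : HeightOneSpectrum (𝓞 L) | dn K w ∈ Sg ∪ T} ⊓ H30ZO.HH K L) ∧
      Finite ↥(H24TD.US L {w : HeightOneSpectrum (𝓞 L) | dn K w ∈ Sg ∪ T} ⊓ H30ZO.HH K L) := by
  have hWv : ∀ v : HeightOneSpectrum (𝓞 K), ∃ W : AddSubgroup (SC L), ∀ c, c ∈ W ↔
      c ∈ H30ZO.HH K L ∧ H30ZO.Wc (algebraMap K (v.adicCompletion K)) a b θ c := by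
    intro v
    have _ := H36CY.char_zero v
    refine H30ZO.exists_WW h _ ?_ (H24PD.inf_fin v _ _)
    intro e
    apply hD
    apply (algebraMap K (v.adicCompletion K)).injective
    rw [map_zero, map_add, map_mul, map_mul, map_pow, map_pow, map_ofNat, map_ofNat]
    exact e
  choose Wf hWf using hWv
  have hWs : ∀ s : K →+* ℝ, ∃ W : AddSubgroup (SC L), ∀ c, c ∈ W ↔
      c ∈ H30ZO.HH K L ∧ H30ZO.Wc s a b θ c := by
    intro s
    refine H30ZO.exists_WW h s ?_ (H24PD.inf_real _ _)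
    intro e
    apply hD
    apply s.injective
    rw [map_zero, map_add, map_mul, map_mul, map_pow, map_pow, map_ofNat, map_ofNat]
    exact e
  choose Wr hWr using hWs
  obtain ⟨X, hX⟩ : ∃ X : AddSubgroup (SC L),
      X = H24TD.US L {w : HeightOneSpectrum (𝓞 L) | dn K w ∈ Sg ∪ T} ⊓ H30ZO.HH K L := ⟨_, rfl⟩
  have hcX := H30ZO.card_X h (Sg ∪ T)
  rw [← hX] at hcX ⊢
  have hX0 : Nat.card X ≠ 0 := by
    intro h0
    rw [h0, zero_mul] at hcX
    exact (pow_ne_zero _ two_ne_zero) hcX.symm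
  have hXf : Finite X := Nat.finite_of_card_ne_zero hX0
  -- the product of the indices
  obtain ⟨n, hn⟩ : ∃ n, n = Module.finrank ℚ K := ⟨_, rfl⟩
  obtain ⟨t, ht⟩ : ∃ t, t = Nat.card {s : K →+* ℝ // H30ZO.nr K L s = 3} := ⟨_, rfl⟩
  have hplc := H30ZO.places_count h hD
  rw [← hn, ← ht] at hplc
  have hfinI : ∀ v : HeightOneSpectrum (𝓞 K), (Wf v).relIndex (H30ZO.HH K L) ≠ 0 ∧
      2 * (Wf v).relIndex (H30ZO.HH K L) ≤ 2 ^ H30ZO.nb K L v * H30ZO.qq v :=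
    fun v => H30ZO.loc_idx h v (ha v) (hb v) hD (hWf v)
  have hreI : ∀ s : K →+* ℝ, (Wr s).relIndex (H30ZO.HH K L) ≠ 0 ∧
      2 * (Wr s).relIndex (H30ZO.HH K L) ≤ H30ZO.nr K L s + 1 :=
    fun s => H30ZO.real_idx h hD s (hWr s)
  have hqq : ∏ v ∈ Sg, H30ZO.qq v = 2 ^ n := by
    rw [hn]
    exact H30ZO.prod_two Sg h2
  have hP1 : 2 ^ Sg.card * ∏ v ∈ Sg, (Wf v).relIndex (H30ZO.HH K L) ≤
      2 ^ (∑ v ∈ Sg, H30ZO.nb K L v) * 2 ^ n := by
    have h1 : ∏ v ∈ Sg, (2 * (Wf v).relIndex (H30ZO.HH K L)) ≤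
        ∏ v ∈ Sg, (2 ^ H30ZO.nb K L v * H30ZO.qq v) :=
      Finset.prod_le_prod (fun v _ => Nat.zero_le _) (fun v _ => (hfinI v).2)
    rw [Finset.prod_mul_distrib, Finset.prod_mul_distrib, Finset.prod_const,
      Finset.prod_pow_eq_pow_sum, hqq] at h1
    exact h1
  have hP2 : 2 * ∏ s ∈ (Finset.univ : Finset (K →+* ℝ)).erase s0,
      (Wr s).relIndex (H30ZO.HH K L) ≤ 2 ^ t := by
    have h1 : ∏ s ∈ (Finset.univ : Finset (K →+* ℝ)).erase s0,
        (Wr s).relIndex (H30ZO.HH K L) ≤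
        ∏ s ∈ (Finset.univ : Finset (K →+* ℝ)).erase s0,
          (if H30ZO.nr K L s = 3 then 2 else 1) := by
      refine Finset.prod_le_prod (fun s _ => Nat.zero_le _) (fun s _ => ?_)
      have h2 := (hreI s).2
      rcases H30ZO.nr_cases h hD s with h3 | h3
      · rw [h3] at h2
        rw [h3]
        simp only [OfNat.one_ne_ofNat, if_false]
        omega
      · rw [h3] at h2
        rw [h3, if_pos rfl]
        omega
    have h4 : (if H30ZO.nr K L s0 = 3 then 2 else 1) = 2 := if_pos hs0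
    have h5 : 2 * ∏ s ∈ (Finset.univ : Finset (K →+* ℝ)).erase s0,
        (if H30ZO.nr K L s = 3 then 2 else 1) =
        ∏ s : K →+* ℝ, (if H30ZO.nr K L s = 3 then 2 else 1) := by
      rw [← Finset.mul_prod_erase Finset.univ _ (Finset.mem_univ s0), h4]
    refine (Nat.mul_le_mul_left 2 h1).trans (le_of_eq ?_)
    rw [h5, Finset.prod_ite, Finset.prod_const_one, mul_one, Finset.prod_const, ht,
      Nat.card_eq_fintype_card, Fintype.card_subtype]
  -- the intersection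
  have hZ : W = (⨅ j : {v // v ∈ Sg} ⊕ {s // s ∈ (Finset.univ : Finset (K →+* ℝ)).erase s0},
      Sum.elim (fun v => Wf v.1) (fun s => Wr s.1) j) ⊓ H30ZO.HH K L := by
    ext c
    rw [hW c, AddSubgroup.mem_inf, AddSubgroup.mem_iInf]
    constructor
    · rintro ⟨c1, c2, c3⟩
      refine ⟨?_, c1⟩
      rintro (v | s)
      · exact (hWf v.1 c).2 ⟨c1, c2 v.1 v.2⟩
      · exact (hWr s.1 c).2 ⟨c1, c3 s.1 (Finset.ne_of_mem_erase s.2)⟩
    · rintro ⟨c1, c2⟩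
      exact ⟨c2, fun v hv => ((hWf v c).1 (c1 (Sum.inl ⟨v, hv⟩))).2,
        fun s hs => ((hWr s c).1 (c1 (Sum.inr ⟨s, Finset.mem_erase.2 ⟨hs,
          Finset.mem_univ s⟩⟩))).2⟩
  have hrel : W.relIndex (H30ZO.HH K L) =
      (⨅ j : {v // v ∈ Sg} ⊕ {s // s ∈ (Finset.univ : Finset (K →+* ℝ)).erase s0},
      Sum.elim (fun v => Wf v.1) (fun s => Wr s.1) j).relIndex (H30ZO.HH K L) := by
    rw [hZ, AddSubgroup.inf_relIndex_right]
  have hidx : W.relIndex (H30ZO.HH K L) ≤ (∏ v ∈ Sg, (Wf v).relIndex (H30ZO.HH K L)) *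
      ∏ s ∈ (Finset.univ : Finset (K →+* ℝ)).erase s0, (Wr s).relIndex (H30ZO.HH K L) := by
    rw [hrel]
    refine (AddSubgroup.relIndex_iInf_le _).trans (le_of_eq ?_)
    rw [Fintype.prod_sum_type]
    simp only [Sum.elim_inl, Sum.elim_inr]
    rw [← Finset.prod_coe_sort Sg (fun v => (Wf v).relIndex (H30ZO.HH K L)),
      ← Finset.prod_coe_sort ((Finset.univ : Finset (K →+* ℝ)).erase s0)
        (fun s => (Wr s).relIndex (H30ZO.HH K L))]
  have hne : W.relIndex (H30ZO.HH K L) ≠ 0 := by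
    rw [hrel]
    refine AddSubgroup.relIndex_iInf_ne_zero ?_
    rintro (v | s)
    · exact (hfinI v.1).1
    · exact (hreI s.1).1
  refine ⟨hne, ?_, hXf⟩
  -- conclusion
  have hnb : ∑ v ∈ Sg ∪ T, H30ZO.nb K L v = (∑ v ∈ Sg, H30ZO.nb K L v) + 2 * T.card := by
    rw [Finset.sum_union hd]
    congr 1
    rw [Finset.sum_congr rfl hT, Finset.sum_const, smul_eq_mul, mul_comm]
  have hSc : (Sg ∪ T).card = Sg.card + T.card := Finset.card_union_of_disjoint hd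
  have h1 : Nat.card X * 2 ^ (Sg ∪ T).card =
      2 ^ (∑ v ∈ Sg ∪ T, H30ZO.nb K L v) * 2 ^ n * 2 ^ t := by
    have h2 : Nat.card X * 2 ^ (Sg ∪ T).card *
        2 ^ (InfinitePlace.nrRealPlaces K + InfinitePlace.nrComplexPlaces K) =
        2 ^ (∑ v ∈ Sg ∪ T, H30ZO.nb K L v) * 2 ^ n * 2 ^ t *
        2 ^ (InfinitePlace.nrRealPlaces K + InfinitePlace.nrComplexPlaces K) := by
      rw [mul_assoc, ← pow_add, hcX, hplc, ← pow_add, ← pow_add, ← pow_add]
      congr 1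
      omega
    exact Nat.eq_of_mul_eq_mul_right (pow_pos two_pos _) h2
  refine Nat.le_of_mul_le_mul_right (c := 2 ^ (Sg ∪ T).card) ?_ (pow_pos two_pos _)
  rw [h1]
  calc 2 ^ (T.card + 1) * W.relIndex (H30ZO.HH K L) * 2 ^ (Sg ∪ T).card
      ≤ 2 ^ (T.card + 1) * ((∏ v ∈ Sg, (Wf v).relIndex (H30ZO.HH K L)) *
          ∏ s ∈ (Finset.univ : Finset (K →+* ℝ)).erase s0, (Wr s).relIndex (H30ZO.HH K L)) *
          2 ^ (Sg ∪ T).card :=
        Nat.mul_le_mul_right _ (Nat.mul_le_mul_left _ hidx)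
    _ = 2 ^ (2 * T.card) * ((2 ^ Sg.card * ∏ v ∈ Sg, (Wf v).relIndex (H30ZO.HH K L)) *
          (2 * ∏ s ∈ (Finset.univ : Finset (K →+* ℝ)).erase s0,
            (Wr s).relIndex (H30ZO.HH K L))) := by
        rw [hSc, pow_add, pow_add, two_mul, pow_add]
        ring
    _ ≤ 2 ^ (2 * T.card) * ((2 ^ (∑ v ∈ Sg, H30ZO.nb K L v) * 2 ^ n) * 2 ^ t) :=
        Nat.mul_le_mul_left _ (Nat.mul_le_mul hP1 hP2)
    _ = 2 ^ (∑ v ∈ Sg ∪ T, H30ZO.nb K L v) * 2 ^ n * 2 ^ t := by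
        rw [hnb, pow_add]
        ring

private theorem If_nr {a b : K} {θ : L} (h : Cub K L a b θ) (hD : 4 * a ^ 3 + 27 * b ^ 2 ≠ 0)
    {s0 : K →+* ℝ} {t1 t2 t3 : L →+* ℝ} (R : Real3 s0 θ t1 t2 t3) : H30ZO.nr K L s0 = 3 := by
  rcases H30ZO.nr_cases h hD s0 with h1 | h1
  · exfalso
    have h2 := Finite.card_le_one_iff_subsingleton.1 (le_of_eq h1)
    have h3 : t1 = t2 := congrArg Subtype.val (h2.elim ⟨t1, R.c1⟩ ⟨t2, R.c2⟩)
    have h4 := R.l12
    rw [h3] at h4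
    exact lt_irrefl _ h4
  · exact h1

private theorem If_nb {S : Ext K K L a b θ} {Sg : Finset (HeightOneSpectrum (𝓞 K))}
    (P : Sp S Sg) : H30ZO.nb K L P.q = 2 := by
  have h1 : {w : HeightOneSpectrum (𝓞 L) | dn K w = P.q} = {P.t1, P.t2} := by
    ext w
    have e : P.q = P.v := dn_self P.v
    rw [e]
    constructor
    · intro hw
      exact P.tw.only w hw
    · rintro (rfl | rfl)
      · exact P.tw.dn1
      · exact P.tw.dn2
  rw [H30ZO.nb, h1]
  exact Set.ncard_pair P.tw.ne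

theorem card_YR {S : Ext K K L a b θ} {Sg : Finset (HeightOneSpectrum (𝓞 K))} (hok : S.Ok 1 Sg)
    {s0 : K →+* ℝ} {t1 t2 t3 : L →+* ℝ} (R : Real3 s0 θ t1 t2 t3) (T : Finset (Sp S Sg))
    {W : AddSubgroup (SC L)} (hW : ∀ c, c ∈ W ↔ S.YR s0 Sg (T.image Sp.q) c) :
    2 ^ (T.card + 1) ≤ Nat.card W := by
  have hS1 : ∀ v : HeightOneSpectrum (𝓞 K), ∀ c : SC L,
      S.Lv 1 v c ↔ H30ZO.Wc (algebraMap K (v.adicCompletion K)) a b θ c := by
    intro v c
    unfold Ext.Lv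
    simp only [one_pow, one_mul, map_one]
    rfl
  have hS2 : ∀ s : K →+* ℝ, ∀ c : SC L, S.Lr 1 s c ↔ H30ZO.Wc s a b θ c := by
    intro s c
    unfold Ext.Lr
    simp only [one_pow, one_mul, map_one]
    rfl
  have hcub : Cub K L a b θ := S.cub
  have hs3 : H30ZO.nr K L s0 = 3 := If_nr hcub S.dne R
  have hcard : (T.image Sp.q).card = T.card :=
    Finset.card_image_of_injOn fun P _ P' _ hq => Sp_eq hq
  have hd : Disjoint Sg (T.image Sp.q) := by
    rw [Finset.disjoint_left]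
    intro v hv hv'
    obtain ⟨P, _, rfl⟩ := Finset.mem_image.1 hv'
    exact P.out hv
  have h2 : ∀ v : HeightOneSpectrum (𝓞 K), v.valuation K 2 < 1 → v ∈ Sg := by
    intro v hv
    by_contra hn
    rw [hok.two v hn] at hv
    exact lt_irrefl _ hv
  have hT : ∀ v ∈ T.image Sp.q, H30ZO.nb K L v = 2 := by
    intro v hv
    obtain ⟨P, _, rfl⟩ := Finset.mem_image.1 hv
    exact If_nb P
  -- the local conditions
  obtain ⟨W1, hW1⟩ : ∃ W1 : AddSubgroup (SC L), ∀ c, c ∈ W1 ↔ c ∈ H30ZO.HH K L ∧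
      (∀ v ∈ Sg, H30ZO.Wc (algebraMap K (v.adicCompletion K)) a b θ c) ∧
      ∀ s : K →+* ℝ, s ≠ s0 → H30ZO.Wc s a b θ c := by
    choose Wv hWv using fun v => Gb_Wv S (D := 1) one_ne_zero v
    choose Ws hWs using fun s => Gb_Ws S (D := 1) one_ne_zero s
    refine ⟨H30ZO.HH K L ⊓ ((⨅ v : {v // v ∈ Sg}, Wv v) ⊓ ⨅ s : {s // s ≠ s0}, Ws s),
      fun c => ?_⟩
    rw [AddSubgroup.mem_inf, AddSubgroup.mem_inf, AddSubgroup.mem_iInf, AddSubgroup.mem_iInf]
    constructor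
    · rintro ⟨c1, c2, c3⟩
      exact ⟨c1, fun v hv => (hS1 v c).1 ((hWv v c).1 (c2 ⟨v, hv⟩)).2,
        fun s hs => (hS2 s c).1 ((hWs s c).1 (c3 ⟨s, hs⟩)).2⟩
    · rintro ⟨c1, c2, c3⟩
      exact ⟨c1, fun v => (hWv v c).2 ⟨c1, (hS1 v c).2 (c2 v v.2)⟩,
        fun s => (hWs s c).2 ⟨c1, (hS2 s c).2 (c3 s s.2)⟩⟩
  obtain ⟨hne, hle, hXf⟩ := If_card hcub S.ha S.hb S.dne hd h2 hT hs3 hW1
  rw [hcard] at hle
  obtain ⟨X, hX⟩ : ∃ X : AddSubgroup (SC L),
      X = H24TD.US L {w : HeightOneSpectrum (𝓞 L) | dn K w ∈ Sg ∪ T.image Sp.q} ⊓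
        H30ZO.HH K L := ⟨_, rfl⟩
  rw [← hX] at hle hXf
  have hXH : X ≤ H30ZO.HH K L := by
    rw [hX]
    exact inf_le_right
  -- the intersection is contained in `W`
  have hsub : W1 ⊓ X ≤ W := by
    intro c hc
    obtain ⟨c1, c2⟩ := AddSubgroup.mem_inf.1 hc
    obtain ⟨d1, d2, d3⟩ := (hW1 c).1 c1
    rw [hW]
    refine ⟨d1, fun v hv => (hS1 v c).2 (d2 v hv), fun s hs => (hS2 s c).2 (d3 s hs), ?_⟩
    intro w hw1 hw2
    rw [hX] at c2
    obtain ⟨u, hu, rfl⟩ := (AddSubgroup.mem_inf.1 c2).1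
    rw [H24TD.cls_eq, H38T1.eo_sc (Units.ne_zero _)]
    have h1 : w.valuation L ((Additive.toMul u : Lˣ) : L) = 1 := by
      refine hu w ?_
      intro h2
      rcases Finset.mem_union.1 h2 with h3 | h3
      · exact hw1 h3
      · exact hw2 h3
    rw [ord, h1, log_one, neg_zero, Int.cast_zero]
  have hWf : Finite W := by
    obtain ⟨W2, hf, hm⟩ := exists_YR S s0 Sg (T.image Sp.q)
    have e : W = W2 := by
      ext c
      rw [hW, hm]
    rw [e]
    exact hf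
  have h4 : Nat.card ↥(W1 ⊓ X) ≤ Nat.card W :=
    AddSubgroup.card_le_of_le hsub
  have h5 : Nat.card ↥(W1 ⊓ X) * W1.relIndex X = Nat.card X := by
    have h6 := AddSubgroup.relIndex_mul_relIndex ⊥ (W1 ⊓ X) X bot_le inf_le_right
    rw [AddSubgroup.relIndex_bot_left, AddSubgroup.relIndex_bot_left,
      AddSubgroup.inf_relIndex_right] at h6
    exact h6
  have h7 : W1.relIndex X ≤ W1.relIndex (H30ZO.HH K L) :=
    AddSubgroup.relIndex_le_of_le_right hXH hne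
  have h8 : 2 ^ (T.card + 1) * W1.relIndex (H30ZO.HH K L) ≤
      Nat.card W * W1.relIndex (H30ZO.HH K L) := by
    refine hle.trans ?_
    rw [← h5]
    exact Nat.mul_le_mul h4 h7
  exact Nat.le_of_mul_le_mul_right h8 (Nat.pos_of_ne_zero hne)

end H88OD
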