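import Pool.Agent.H88.RE.Il
import Pool.Agent.H88.RE.Ib
import Pool.Agent.H88.RE.Ic

/-!
ROW Ig (project MP_78d38b_OD, about 200 lines): a real place where the cubic polynomial has one real root (`F = K`).  Use the STATEMENTS of Ib, Ic, Id, Il, Ha.

PROOF. `V1` := the subgroup of `S.V 1` (`H88OD.V`-subgroup: `Pool/Agent/H88/OD/Lp.lean` / Gp.lean contain the existence of the finite subgroup `V` with `c ∈ V ↔ S.V D c`). Choose an additive `φ : SC L →+ ZMod 2` with `φ x = 1` (`SC L` is a vector space over `ZMod 2`; see how Ch.lean / Gc.lean extend functionals) and `χ := si s0` (`χ (sc (-(4 a^3 + 27 b^2))) = 1` because `s0` of it is negative, `H38T1.si_sc`).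
exists_spK with `W := V1`, `B := US K Sg` (finite): `P : Sp S Sg` with `P.q ∉ Sg`, `P.tr c = 0`, `P.fl c = S.el φ c` for `c ∈ V1`, `la P.q β = si s0 β` for `β ∈ US K Sg`.
exists_delta with `T := {P.q}`, `t s := if s = s0 then 1 else 0`: `δ` with `RayS K Sg {P.q} s0 δ` (`si s (sc δ) = 0` means `0 < s δ`).
CLAIM `S.V δ c ↔ S.V 1 c ∧ P.fl c = 0`. By RS_V (`T = {P}`, `x` is the class in `HH` with `P.fl x ≠ 0`), RS_V1 and Lr_one (both conditions at `s0` are empty for `c ∈ HH`): `S.V δ c ↔ S.YR s0 Sg {P.q} c ∧ P.fl c = 0`, `S.V 1 c ↔ S.YR s0 Sg ∅ c`. (⟸) YR is monotone in `T`. (⟹) Suppose `P.tr c ≠ 0`. `c' := c + x` satisfies S.YR s0 Sg {P.q}, hence `S.Y 1 Sg {P.q}` (Lr_one at `s0`, dn_self); rec_fin (Ha) with `T = {P}`, `D = 1`, for the pair `(c, x)`: `P.tr c * P.fl x + P.fl c * P.tr x = 0`, `P.tr x = 0`, `P.fl x ≠ 0`, so `P.tr c = 0` (rg_cases: the group algebra has two elements). So `P.tr c = 0`, `c` is even above `P.q` (`P.tr_zero`,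 Pool/Agent/H88/OD/Gt.lean) and S.YR s0 Sg ∅ c.
So `V_δ` is the kernel of `P.fl` on `V1` and `P.fl` is onto `{0, 1}` there: `Nat.card V1 = 2 * Nat.card V_δ`.
-/

set_option autoImplicit false
set_option linter.unusedSectionVars false
open scoped Classical

open WithZero NumberField IsDedekindDomain H38RT
open H38T1 (SC sc scu rep eo la si OddP)
open H76PP (Cub LC ev scm dn)

namespace H88OD

variable {K L : Type} [Field K] [NumberField K] [Field L]
  [NumberField L] [Algebra K L] {a b : K} {θ : L} {S : Ext K K L a b θ}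
  {Sg : Finset (HeightOneSpectrum (𝓞 K))}

private theorem Ig_card {M : Type} [Field M] (V1 : AddSubgroup (SC M))
    (φ : SC M →+ ZMod 2) {x : SC M} (hx : x ∈ V1) (hφ : φ x = 1) {P Q : SC M → Prop}
    (h1 : ∀ c, P c ↔ c ∈ V1) (h2 : ∀ c, Q c ↔ c ∈ V1 ∧ φ c = 0) :
    Nat.card {c : SC M // P c} = 2 * Nat.card {c : SC M // Q c} := by
  obtain ⟨f, hf⟩ : ∃ f : V1 →+ ZMod 2, f = φ.comp V1.subtype := ⟨_, rfl⟩
  have hfx : ∀ c : V1, f c = φ c := fun c => by rw [hf]; rfl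
  have hsurj : Function.Surjective f := by
    intro t
    have ht : t = 0 ∨ t = 1 := by revert t; decide
    rcases ht with rfl | rfl
    · exact ⟨0, map_zero f⟩
    · exact ⟨⟨x, hx⟩, by rw [hfx]; exact hφ⟩
  have e1 : {c : SC M // P c} ≃ V1 := Equiv.subtypeEquivRight h1
  have e2 : {c : SC M // Q c} ≃ f.ker :=
    { toFun := fun c => ⟨⟨c.1, ((h2 _).1 c.2).1⟩, by
        rw [AddMonoidHom.mem_ker, hfx]; exact ((h2 _).1 c.2).2⟩
      invFun := fun c => ⟨c.1.1, (h2 _).2 ⟨c.1.2, by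
        have := c.2
        rw [AddMonoidHom.mem_ker, hfx] at this
        exact this⟩⟩
      left_inv := fun c => rfl
      right_inv := fun c => rfl }
  rw [Nat.card_congr e1, Nat.card_congr e2]
  have h3 : f.ker.index = 2 := by
    rw [AddSubgroup.index_ker, AddMonoidHom.range_eq_top.2 hsurj]
    rw [Nat.card_congr AddSubgroup.topEquiv.toEquiv, Nat.card_zmod]
  rw [← f.ker.card_mul_index, h3, mul_comm]

private theorem Ig_Y {s0 : K →+* ℝ} (hs : s0 (-(4 * a ^ 3 + 27 * b ^ 2)) < 0)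
    {T : Finset (HeightOneSpectrum (𝓞 K))} {c : SC L} (hc : S.YR s0 Sg T c) : S.Y 1 Sg T c := by
  refine ⟨hc.hh, fun v hv => hc.fin v ?_, fun s => ?_, fun w h1 h2 => hc.ev w ?_ ?_⟩
  · rw [dn_self] at hv
    exact hv
  · by_cases h : s = s0
    · rw [h]
      exact Lr_one S hs one_ne_zero hc.hh
    · exact hc.inf s h
  · rw [dn_self] at h1
    exact h1
  · rw [dn_self] at h2
    exact h2

private theorem Ig_mono {s0 : K →+* ℝ} {T T' : Finset (HeightOneSpectrum (𝓞 K))} (h : T ⊆ T')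
    {c : SC L} (hc : S.YR s0 Sg T c) : S.YR s0 Sg T' c :=
  ⟨hc.hh, hc.fin, hc.inf, fun w h1 h2 => hc.ev w h1 fun h3 => h2 (h h3)⟩

theorem real_A (hok : S.Ok 1 Sg) (hcl : ClOk K Sg) {s0 : K →+* ℝ}
    (hs : s0 (-(4 * a ^ 3 + 27 * b ^ 2)) < 0) {x : SC L} (hx : S.V 1 x) (hx0 : x ≠ 0) :
    ∃ δ : K, δ ≠ 0 ∧ (∀ u ∈ Sg, IsSquare (algebraMap K (u.adicCompletion K) δ)) ∧
      Nat.card {c : SC L // S.V 1 c} = 2 * Nat.card {c : SC L // S.V δ c} := by
  obtain ⟨V1, hVf, hV⟩ := exists_YR S s0 Sg ∅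
  have hV1 : ∀ c, S.V 1 c ↔ c ∈ V1 := by
    intro c
    rw [hV, RS_V1 hok s0 c]
    exact ⟨fun h => h.1, fun h => ⟨h, Lr_one S hs one_ne_zero h.hh⟩⟩
  obtain ⟨φ, hφ⟩ := H76OD.exists_fun hx0
  have hW : ∀ c ∈ V1, c ∈ H30ZO.HH K L := fun c hc => ((hV c).1 hc).hh
  obtain ⟨χ, hχ⟩ : ∃ χ : SC K →+ ZMod 2, ∀ c, χ c = si s0 c :=
    ⟨⟨⟨si s0, H38T1.si_zero s0⟩, H38T1.si_add s0⟩, fun _ => rfl⟩
  have hχ1 : χ (sc (-(4 * a ^ 3 + 27 * b ^ 2))) = 1 := by
    rw [hχ, H38T1.si_sc s0 (neg_ne_zero.2 S.dne)]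
    unfold H38RT.sw
    rw [if_pos hs]
  have hB : (H24TD.US K (Sg : Set (HeightOneSpectrum (𝓞 K))) : Set (SC K)).Finite := by
    have hcard := H88T7.card_US7 (K := K) (S := (Sg : Set (HeightOneSpectrum (𝓞 K))))
      Sg.finite_toSet
    have hf : Finite (H24TD.US K (Sg : Set (HeightOneSpectrum (𝓞 K)))) :=
      Nat.finite_of_card_ne_zero (by rw [hcard]; positivity)
    exact Set.toFinite _
  obtain ⟨P, -, hP1, hP2⟩ := exists_spK S Sg ∅ V1 hVf hW φ hB χ hχ1
  have hxV : x ∈ V1 := (hV1 x).1 hx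
  have hel : ∀ c : SC L, (S.el φ c).coeff 1 = φ c := by
    intro c
    change φ (S.ρ (1 : K ≃ₐ[K] K)⁻¹ • c) = φ c
    rw [inv_one, map_one, one_smul]
  have hfl : ∀ c ∈ V1, P.fl c = 0 ↔ φ c = 0 := by
    intro c hc
    rw [(hP1 c hc).2]
    constructor
    · intro h
      rw [← hel c, h]
      rfl
    · intro h
      refine rg_ext fun g => ?_
      have hg : g = 1 := Subsingleton.elim _ _
      rw [hg, hel c, h]
      rfl
  have hflx : P.fl x ≠ 0 := by
    rw [Ne, hfl x hxV, hφ]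
    exact one_ne_zero
  have hflx1 : P.fl x = 1 := (rg_cases (P.fl x)).resolve_left hflx
  obtain ⟨δ, hδ0, hδ1, hδ2, hδ3, hδ4⟩ := exists_delta (T := {P.q}) hok.two hcl
    (fun q hq => by
      rw [Finset.mem_singleton] at hq
      rw [hq]
      exact P.out)
    (fun s => if s = s0 then 1 else 0) (fun β hβ => by
      rw [Finset.sum_singleton, hP2 β hβ, hχ, Finset.sum_eq_single s0]
      · rw [if_pos rfl, one_mul]
      · intro s _ hne
        rw [if_neg hne, zero_mul]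
      · intro h
        exact absurd (Finset.mem_univ _) h)
  have hRay : RayS K Sg (({P} : Finset (Sp S Sg)).image Sp.q) s0 δ := by
    rw [Finset.image_singleton]
    refine ⟨hδ0, fun q hq => ?_, hδ2, hδ3, ?_, fun s hne => ?_⟩
    · rw [hδ1 q hq]
      exact odd_one
    · have h := hδ4 s0
      rw [if_pos rfl, H38T1.si_sc s0 hδ0] at h
      unfold H38RT.sw at h
      by_contra hcon
      rw [if_neg hcon] at h
      exact zero_ne_one h
    · have h := hδ4 s
      rw [if_neg hne, H38T1.si_sc s hδ0] at h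
      unfold H38RT.sw at h
      have h0 : s δ ≠ 0 := (map_ne_zero s).2 hδ0
      by_contra hcon
      rw [if_pos (lt_of_le_of_ne (not_lt.1 hcon) h0)] at h
      exact one_ne_zero h
  have hT : ∀ P' ∈ ({P} : Finset (Sp S Sg)), ∃ x ∈ H30ZO.HH K L, P'.fl x ≠ 0 := by
    intro P' hP'
    rw [Finset.mem_singleton] at hP'
    rw [hP']
    exact ⟨x, hW x hxV, hflx⟩
  have hxY : S.YR s0 Sg ∅ x := (hV x).1 hxV
  refine ⟨δ, hδ0, hδ3, Ig_card V1 φ hxV hφ hV1 fun c => ?_⟩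
  rw [RS_V hok hRay hT]
  constructor
  · rintro ⟨h1, -, h3⟩
    have h3' := h3 P (Finset.mem_singleton_self P)
    have h4 := rec_fin hok {P} (Ig_Y hs h1)
      (Ig_Y hs (Ig_mono (Finset.empty_subset _) hxY))
    rw [Finset.sum_singleton, h3', zero_mul, add_zero, hflx1, mul_one] at h4
    have h5 := (P.tr_zero hok.two h1.hh).1 h4
    have h6 : S.YR s0 Sg ∅ c := by
      refine ⟨h1.hh, h1.fin, h1.inf, fun w hw1 _ => ?_⟩
      by_cases hw : dn K w = P.q
      · refine h5 w ?_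
        rw [dn_self]
        exact hw
      · refine h1.ev w hw1 fun h => hw ?_
        rw [Finset.image_singleton, Finset.mem_singleton] at h
        exact h
    have h7 : c ∈ V1 := (hV c).2 h6
    exact ⟨h7, (hfl c h7).1 h3'⟩
  · rintro ⟨h1, h2⟩
    have h3 := (hV c).1 h1
    refine ⟨Ig_mono (Finset.empty_subset _) h3, Lr_one S hs hδ0 h3.hh, fun P' hP' => ?_⟩
    rw [Finset.mem_singleton] at hP'
    rw [hP']
    exact (hfl c h1).2 h2

end H88OD
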