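import Pool.Agent.H88.RE.Ie
import Pool.Agent.H88.OD.Gk
import Pool.Agent.H30.OD.Card2

/-!
ROW Il (project MP_78d38b_OD, about 250 lines): twists by an element which is negative at one real place (`F = K`).  Copy of Pool/Agent/H88/OD/Gk.lean (its private lemmas Gk_Lv, Gk_Lr, Gk_ne, Gk_div, Gk_nhds, Gk_sq, Gk_tw, Gk_good: copy them, here `F = K`, `D = 1`). Use the STATEMENTS of Id (Lr_sign), Ha (dn_self), Ie.

RS_YR: as stepT_Y: at `v ∈ Sg` the twist `ε` is a local square; at `s ≠ s0` it is positive (Lr_sign with `D' = 1`); outside `Sg ∪ T` the curve `E_ε` has good reduction (Gk_good, `H76OD.Wc_good`). (`S.Lv 1 v c` is the condition for the twist by `1`: `1 ^ 2 * a`, keep it in this form: Gk_Lv with `D = 1`.)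
RS_fl: as stepT_fl.
RS_iff. (⟸) (⟹ is `H76OD.Wc_spec` as in stepT_fl). `W := {c ∈ HH | S.Lv ε P.v c}` (a subgroup: take `AddSubgroup` from `H30ZO.exists_WW`-like lemmas, or see `H30ZO.exists_sub` / Pool/Agent/H88/OD/Gp.lean for the subgroup of `Wc`). `H30OD.loc_idx_tw` (Pool/Agent/H30/OD/Card2.lean) at `v = P.v`, `nb K L P.v = 2` (the places above `P.v` are `P.t1 ≠ P.t2`: `P.tw.only`, `P.tw.ne`, `P.tw.dn1`, `P.tw.dn2`), `qq P.v = 1` (`P.v` does not divide 2; `H30ZO.qq` lemma: grep `qq` in Pool/Agent/H30/ZO): `2 * W.relIndex HH ≤ 4`, so the index is at most 2. `x ∉ W` by (⟹) and `P.fl x ≠ 0`. If `c ∈ HH`, `P.fl c = 0`, `c ∉ W`, then `c + x ∈ W` (index at most two), `0 = P.fl (c + x) = P.fl c + P.fl x = P.fl x ≠ 0`, a contradiction.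
RS_V: for `c` with S.YR: finite places `v ∈ Sg`: local square, from S.YR.fin; `v ∉ Sg`, `v ∈ T`: RS_iff for the prime `P ∈ T` with `P.q = v` (`P.v = P.q`, dn_self); `v ∉ Sg ∪ T`: good, `c` even (Wc_good); real places: `s ≠ s0`: Lr_sign; `s = s0`: hypothesis.
RS_V1: the same for `E_1`: `S.V 1 c ↔ S.YR s0 Sg ∅ c ∧ S.Lr 1 s0 c` (`S.Ok 1 Sg`).
-/

set_option autoImplicit false
set_option linter.unusedSectionVars false
open scoped Classical

open WithZero NumberField IsDedekindDomain H38RT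
open H38T1 (SC sc scu rep eo la si OddP)
open H76PP (Cub LC ev scm dn)

namespace H88OD

/-- The element `ε` has odd order at the primes of `T`, it is a unit outside `T` and `Sg`, a square at the places of `Sg`,
negative at the real place `s0` and positive at the other real places. -/
structure RayS (K : Type) [Field K] [NumberField K] (Sg T : Finset (HeightOneSpectrum (𝓞 K)))
    (s0 : K →+* ℝ) (ε : K) : Prop where
  ne : ε ≠ 0
  odd : ∀ q ∈ T, Odd (ord (q.valuation K) ε)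
  out : ∀ u : HeightOneSpectrum (𝓞 K), u ∉ T → u ∉ Sg → u.valuation K ε = 1
  sq : ∀ u ∈ Sg, IsSquare (algebraMap K (u.adicCompletion K) ε)
  neg : s0 ε < 0
  pos : ∀ s : K →+* ℝ, s ≠ s0 → 0 < s ε

variable {K L : Type} [Field K] [NumberField K] [Field L]
  [NumberField L] [Algebra K L] {a b : K} {θ : L} {S : Ext K K L a b θ}
  {Sg : Finset (HeightOneSpectrum (𝓞 K))}

private theorem Il_Lv (D : K) (v : HeightOneSpectrum (𝓞 K)) (c : SC L) : S.Lv D v c ↔
    H30ZO.Wc (algebraMap K (v.adicCompletion K)) (algebraMap K K D ^ 2 * algebraMap K K a)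
      (algebraMap K K D ^ 3 * algebraMap K K b) (algebraMap K L (algebraMap K K D) * θ) c := by
  unfold Ext.Lv
  rw [map_mul, map_pow, map_mul, map_pow]

private theorem Il_ne {D : K} (hD : D ≠ 0) : algebraMap K K D ≠ 0 := (map_ne_zero _).2 hD

private theorem Il_tw {δ : K} (hδ0 : δ ≠ 0) (v : HeightOneSpectrum (𝓞 K))
    (h : IsSquare (algebraMap K (v.adicCompletion K) δ)) (c : SC L) :
    S.Lv 1 v c ↔ S.Lv δ v c := by
  rw [Il_Lv, Il_Lv]
  refine H76OD.Wc_tw_iff _ (Il_ne one_ne_zero) (Il_ne hδ0) ?_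
  rw [← map_div₀, div_one]
  exact h

private theorem Il_dn (w : HeightOneSpectrum (𝓞 K)) : dn K w = w := dn_self w

private theorem Il_good {E : K} (v : HeightOneSpectrum (𝓞 K))
    (h2 : v.valuation K 2 = 1) (hd : v.valuation K (4 * a ^ 3 + 27 * b ^ 2) = 1)
    (hE : v.valuation K E = 1) {c : SC L} (hc : c ∈ H30ZO.HH K L) :
    S.Lv E v c ↔ ∀ w : HeightOneSpectrum (𝓞 L), dn K w = v → eo w c = 0 := by
  rw [Il_Lv]
  exact H76OD.Wc_good S.cub v (S.ha _) (S.hb _) h2 hd hE hc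

theorem RS_YR (hok : S.Ok 1 Sg) {T : Finset (HeightOneSpectrum (𝓞 K))} {s0 : K →+* ℝ} {ε : K}
    (hε : RayS K Sg T s0 ε) {c : SC L} (hc : S.V ε c) : S.YR s0 Sg T c := by
  refine ⟨hc.hh, fun v hv => ?_, fun s hs => ?_, fun w h1 h2 => ?_⟩
  · exact (Il_tw hε.ne v (hε.sq _ hv) c).2 (hc.fin v)
  · refine (Lr_sign S s one_ne_zero hε.ne ?_ c).2 (hc.inf s)
    rw [map_one]
    exact iff_of_true one_pos (hε.pos s hs)
  · exact (Il_good (E := ε) (dn K w) (hok.two _ h1) (hok.dis _ h1) (hε.out _ h2 h1) hc.hh).1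
      (hc.fin _) w rfl

/-- The coordinate `fl` (the group has one element). -/
private theorem Il_fl (P : Sp S Sg) (c : SC L) :
    P.fl c = 0 ↔ H76OD.uu K (algebraMap K K a) θ P.t1 P.t2 c = 0 := by
  have h1 : ∀ g : K ≃ₐ[K] K, S.ρ g⁻¹ • c = c := by
    intro g
    rw [Subsingleton.elim g⁻¹ 1, map_one, one_smul]
  have h2 : ∀ g : K ≃ₐ[K] K, (P.fl c).coeff g = H76OD.uu K (algebraMap K K a) θ P.t1 P.t2 c := by
    intro g
    unfold Sp.fl
    rw [coeff_mk, h1 g]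
    rfl
  constructor
  · intro h
    rw [← h2 1, h]
    rfl
  · intro h
    refine rg_ext fun g => ?_
    rw [h2 g, h]
    rfl

private theorem Il_v (P : Sp S Sg) : P.q = P.v := dn_self P.v

private theorem Il_spec (hok : S.Ok 1 Sg) {ε : K} (hε : ε ≠ 0) (P : Sp S Sg)
    (hP : Odd (ord (P.q.valuation K) ε)) {c : SC L} (hc : c ∈ H30ZO.HH K L)
    (h : S.Lv ε P.v c) : P.fl c = 0 := by
  rw [Il_fl]
  have hv := P.odd hok.two
  have hout : P.v ∉ Sg := by
    have h1 := P.out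
    rwa [dn_self] at h1
  exact H76OD.Wc_spec S.cub (fun v => S.ha v) (fun v => S.hb v) (v := P.v) hv.1 (hok.dis _ hout)
    P.tw (E := algebraMap K K ε) (Il_ne hε) (by rw [Il_v] at hP; exact hP) hc ((Il_Lv _ _ _).1 h)

theorem RS_fl (hok : S.Ok 1 Sg) {T : Finset (HeightOneSpectrum (𝓞 K))} {s0 : K →+* ℝ} {ε : K}
    (hε : RayS K Sg T s0 ε) {c : SC L} (hc : S.V ε c) (P : Sp S Sg) (hP : P.q ∈ T) :
    P.fl c = 0 :=
  Il_spec hok hε.ne P (hε.odd _ hP) hc.hh (hc.fin P.v)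

theorem RS_iff (hok : S.Ok 1 Sg) {ε : K} (hε : ε ≠ 0) (P : Sp S Sg)
    (hP : Odd (ord (P.q.valuation K) ε)) {x : SC L} (hx : x ∈ H30ZO.HH K L) (hx1 : P.fl x ≠ 0)
    {c : SC L} (hc : c ∈ H30ZO.HH K L) : S.Lv ε P.v c ↔ P.fl c = 0 := by
  refine ⟨Il_spec hok hε P hP hc, fun hfl => ?_⟩
  have hout : P.v ∉ Sg := by
    have h1 := P.out
    rwa [dn_self] at h1
  obtain ⟨W, hW⟩ := Gb_Wv S hε P.v
  have hidx := H30OD.loc_idx_tw S.cub P.v (S.ha _) (S.hb _) S.dne (E := algebraMap K K ε) (Il_ne hε)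
    (W := W) (fun c => by rw [hW c, Il_Lv])
  have hnb : H30ZO.nb K L P.v = 2 := by
    unfold H30ZO.nb
    have h1 : {w : HeightOneSpectrum (𝓞 L) | dn K w = P.v} = {P.t1, P.t2} := by
      ext w
      constructor
      · intro hw
        exact P.tw.only w hw
      · rintro (rfl | rfl)
        · exact P.tw.dn1
        · exact P.tw.dn2
    rw [h1]
    exact Set.ncard_pair P.tw.ne
  rw [hnb, H30ZO.qq_odd (hok.two _ hout)] at hidx
  by_contra hcon
  have hcW : c ∉ W := fun h => hcon ((hW c).1 h).2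
  have hxW : x ∉ W := fun h => hx1 (Il_spec hok hε P hP hx ((hW x).1 h).2)
  have hr1 : W.relIndex (H30ZO.HH K L) ≠ 1 := by
    intro h
    exact hxW (AddSubgroup.relIndex_eq_one.1 h hx)
  have hr2 : (W.addSubgroupOf (H30ZO.HH K L)).index = 2 := by
    have h1 : W.relIndex (H30ZO.HH K L) = 2 := by
      have h2 := hidx.1
      have h3 := hidx.2
      omega
    exact h1
  have hcx : c + x ∈ W := by
    have h1 := (AddSubgroup.add_mem_iff_of_index_two hr2 (a := ⟨c, hc⟩) (b := ⟨x, hx⟩)).2 (by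
      rw [AddSubgroup.mem_addSubgroupOf, AddSubgroup.mem_addSubgroupOf]
      exact iff_of_false hcW hxW)
    rw [AddSubgroup.mem_addSubgroupOf] at h1
    exact h1
  have hz := Il_spec hok hε P hP ((H30ZO.HH K L).add_mem hc hx) ((hW _).1 hcx).2
  rw [P.fl_add hok.two, hfl, zero_add] at hz
  exact hx1 hz

theorem RS_V (hok : S.Ok 1 Sg) {T : Finset (Sp S Sg)} {s0 : K →+* ℝ} {ε : K}
    (hε : RayS K Sg (T.image Sp.q) s0 ε)
    (hT : ∀ P ∈ T, ∃ x ∈ H30ZO.HH K L, P.fl x ≠ 0) {c : SC L} :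
    S.V ε c ↔ S.YR s0 Sg (T.image Sp.q) c ∧ S.Lr ε s0 c ∧ ∀ P ∈ T, P.fl c = 0 := by
  constructor
  · intro hc
    exact ⟨RS_YR hok hε hc, hc.inf s0, fun P hP =>
      RS_fl hok hε hc P (Finset.mem_image_of_mem _ hP)⟩
  · rintro ⟨hY, hr, hfl⟩
    refine ⟨hY.hh, fun v => ?_, fun s => ?_⟩
    · by_cases hv : v ∈ Sg
      · exact (Il_tw hε.ne v (hε.sq _ hv) c).1 (hY.fin v hv)
      by_cases hv1 : v ∈ T.image Sp.q
      · obtain ⟨P, hP, hPv⟩ := Finset.mem_image.1 hv1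
        obtain ⟨x, hx, hx1⟩ := hT P hP
        have h1 := (RS_iff hok hε.ne P (hε.odd _ (Finset.mem_image_of_mem _ hP)) hx hx1 hY.hh).2
          (hfl P hP)
        rw [Il_v] at hPv
        rwa [hPv] at h1
      refine (Il_good (E := ε) v (hok.two _ hv) (hok.dis _ hv) (hε.out _ hv1 hv) hY.hh).2 ?_
      intro w hw
      refine hY.ev w ?_ ?_
      · rwa [hw]
      · rwa [hw]
    · by_cases hs : s = s0
      · rw [hs]
        exact hr
      · refine (Lr_sign S s one_ne_zero hε.ne ?_ c).1 (hY.inf s hs)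
        rw [map_one]
        exact iff_of_true one_pos (hε.pos s hs)

theorem RS_V1 (hok : S.Ok 1 Sg) (s0 : K →+* ℝ) (c : SC L) :
    S.V 1 c ↔ S.YR s0 Sg ∅ c ∧ S.Lr 1 s0 c := by
  constructor
  · intro hc
    refine ⟨⟨hc.hh, fun v _ => hc.fin v, fun s _ => hc.inf s, fun w h1 _ => ?_⟩, hc.inf s0⟩
    exact (Il_good (E := 1) (dn K w) (hok.two _ h1) (hok.dis _ h1) (map_one _) hc.hh).1
      (hc.fin _) w rfl
  · rintro ⟨hY, hr⟩
    refine ⟨hY.hh, fun v => ?_, fun s => ?_⟩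
    · by_cases hv : v ∈ Sg
      · exact hY.fin v hv
      refine (Il_good (E := 1) v (hok.two _ hv) (hok.dis _ hv) (map_one _) hY.hh).2 ?_
      intro w hw
      refine hY.ev w ?_ (Finset.notMem_empty _)
      rwa [hw]
    · by_cases hs : s = s0
      · rw [hs]
        exact hr
      · exact hY.inf s hs

end H88OD
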