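import Pool.Agent.H88.RE.Ia
import Pool.Agent.H88.RE.If
import Pool.Agent.H88.RE.Ij
import Pool.Agent.H88.RE.Il
import Pool.Agent.H88.RE.Ib
import Pool.Agent.H88.RE.Ic

/-!
ROW Ih (project MP_78d38b_OD, about 300 lines): a real place where the cubic polynomial has three real roots (`F = K`).  Use the STATEMENTS of Ia-Ie, If, Ij, Il, Ha.

PROOF. `R : Real3 s0 θ t1 t2 t3` (exists_real3). `V1` := the finite subgroup of `S.V 1`. `χ1 : SC K →+ ZMod 2` with `χ1 (sc (-(4 a^3 + 27 b^2))) = 1` (not a square, `S.dsq`), `χ2 := si s0 + χ1`: `χ2 (..) = 0 + 1 = 1` (`0 < s0 (..)`).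
`φ` with `φ x = 1`. exists_spK (`W = V1`, `B = US K Sg`, `X = Sg`) gives `P1` (with `φ, χ1`) and `P2` (with `φ, χ2`, `X = Sg ∪ {P1.q}`): `P1.fl x ≠ 0 ≠ P2.fl x`, `la P1.q β + la P2.q β = si s0 β` for `β ∈ US K Sg`.
exists_delta with `T := {P1.q, P2.q}`, `t s := if s = s0 then 1 else 0`: `δ` with `RayS K Sg {P1.q, P2.q} s0 δ`.
For every `0 ≠ y ∈ V1` choose a functional `φ_y` with `φ_y y = 1` and by exists_spK a special prime `P_y` with `P_y.fl y ≠ 0`, `P_y.tr c = 0` for `c ∈ V1`. `T := {P1, P2} ∪ {P_y}` (a Finset of `Sp S Sg`).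
`W` := the finite group of `S.YR s0 Sg (T.image Sp.q)` (exists_YR), `Y := W`, `J := Option {P // P ∈ T}`, `r none := si t1`, `u none := si t3`, `r (some P) := eo P.t2`, `u (some P) := la P.t1 + P.nu * eo P.t2` (restricted to `W`).
parity: hQ is rec_real. hcard: card_YR (`Fintype.card J = T.card + 1`). hinj: `r j c = 0` for all `j`: `c` is even above the primes of `T` (`P.tr_zero`: for `c ∈ HH` the valuation at `t1` is also even), so `S.YR s0 Sg ∅ c`, `S.Lr 1 s0 c` by Lr_pos (`s0 1 > 0`), i.e. `S.V 1 c` (RS_V1), `c ∈ V1`; `u (some P_c) c = 0` contradicts `P_c.fl c ≠ 0` if `c ≠ 0` (`P.fl c` is determined by its coefficient at `1`, which is `la P.t1 c + P.nu * eo P.t2 c`: `S.ρ 1 = 1`).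
`A := {none, some P1, some P2}` (`A.card = 3`, `P1 ≠ P2` because `P1.q ≠ P2.q`). `Sl r u ∅` is `{c | S.V 1 c}` (RS_V1, Lr_pos; classes in `V1` are even at the primes of `T`, by S.YR s0 Sg ∅). `Sl r u A` is `{c | S.V δ c}`: RS_V (with the two primes), Lr_neg (`s0 δ < 0`): `S.V δ c ↔ S.YR s0 Sg {P1.q, P2.q} c ∧ si t3 c = 0 ∧ P1.fl c = 0 ∧ P2.fl c = 0`; the condition `r (some P) c = 0` for `P ∈ T`, `P ≠ P1, P2` says that `c` is even above `P.q`.
So `Nat.card {c // S.V 1 c} = 2 ^ m`, `Nat.card {c // S.V δ c} = 2 ^ n`, `m + n + 3` even.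
-/

set_option autoImplicit false
set_option linter.unusedSectionVars false
open scoped Classical

open WithZero NumberField IsDedekindDomain H38RT
open H38T1 (SC sc scu rep eo la si OddP)
open H76PP (Cub LC ev scm dn)

namespace H88OD

variable {K L : Type} [Field K] [NumberField K] [Field L]
  [NumberField L] [Algebra K L] {a b : K} {θ : L} {S : Ext K K L a b θ}
  {Sg : Finset (HeightOneSpectrum (𝓞 K))}

/-- Restriction of a predicate to a subgroup which contains all its elements. -/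
private theorem Ih_card {Y : Type} [AddCommGroup Y] {W : AddSubgroup Y} {Q : Y → Prop} {Z : Set W}
    (h1 : ∀ c, Q c → c ∈ W) (h2 : ∀ x : W, x ∈ Z ↔ Q x.1) :
    Nat.card {c : Y // Q c} = Nat.card Z :=
  Nat.card_congr ⟨fun c => ⟨⟨c.1, h1 _ c.2⟩, (h2 _).2 c.2⟩, fun x => ⟨x.1.1, (h2 _).1 x.2⟩,
    fun _ => rfl, fun _ => rfl⟩

private theorem Ih_sw {M : Type} [Field M] (s : M →+* ℝ) {x : M} (hx : x ≠ 0) :
    (H38RT.sw s x = 0 ↔ 0 < s x) ∧ (H38RT.sw s x = 1 ↔ s x < 0) := by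
  have h0 : s x ≠ 0 := (map_ne_zero s).2 hx
  unfold H38RT.sw
  by_cases h : s x < 0
  · rw [if_pos h]
    exact ⟨iff_of_false one_ne_zero (not_lt.2 h.le), iff_of_true rfl h⟩
  · rw [if_neg h]
    exact ⟨iff_of_true rfl (lt_of_le_of_ne (not_lt.1 h) h0.symm), iff_of_false zero_ne_one h⟩

/-- The group has one element. -/
private theorem Ih_act (S : Ext K K L a b θ) (g : K ≃ₐ[K] K) (c : SC L) : S.ρ g⁻¹ • c = c := by
  rw [Subsingleton.elim g⁻¹ 1, map_one, one_smul]

private theorem Ih_fl (P : Sp S Sg) (c : SC L) :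
    P.fl c = 0 ↔ la P.t1 c + P.nu * eo P.t2 c = 0 := by
  have h2 : ∀ g : K ≃ₐ[K] K, (P.fl c).coeff g = la P.t1 c + P.nu * eo P.t2 c := by
    intro g
    unfold Sp.fl
    rw [coeff_mk, Ih_act S g c]
  constructor
  · intro h
    rw [← h2 1, h]
    rfl
  · intro h
    refine rg_ext fun g => ?_
    rw [h2 g, h]
    rfl

private theorem Ih_tr (P : Sp S Sg) (c : SC L) : P.tr c = 0 ↔ eo P.t2 c = 0 := by
  have h2 : ∀ g : K ≃ₐ[K] K, (P.tr c).coeff g = eo P.t2 c := by
    intro g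
    unfold Sp.tr
    rw [coeff_mk, Ih_act S g c]
  constructor
  · intro h
    rw [← h2 1, h]
    rfl
  · intro h
    refine rg_ext fun g => ?_
    rw [h2 g, h]
    rfl

private theorem Ih_el (S : Ext K K L a b θ) {φ : SC L →+ ZMod 2} {c : SC L} (h : φ c = 1) :
    S.el φ c ≠ 0 := by
  intro h0
  have h1 : (S.el φ c).coeff 1 = φ c := by
    unfold Ext.el
    rw [coeff_mk, Ih_act S 1 c]
  rw [h0, h] at h1
  exact zero_ne_one h1

private theorem Ih_ev (h2 : ∀ v : HeightOneSpectrum (𝓞 K), v ∉ Sg → v.valuation K 2 = 1)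
    (P : Sp S Sg) {c : SC L} (hc : c ∈ H30ZO.HH K L) (h : eo P.t2 c = 0)
    {w : HeightOneSpectrum (𝓞 L)} (hw : dn K w = P.q) : eo w c = 0 := by
  refine (P.tr_zero h2 hc).1 ((Ih_tr P c).2 h) w ?_
  rw [dn_self]
  exact hw

private theorem Ih_YR {s0 : K →+* ℝ} {T T' : Finset (HeightOneSpectrum (𝓞 K))} {c : SC L}
    (h : S.YR s0 Sg T c)
    (h' : ∀ w : HeightOneSpectrum (𝓞 L), dn K w ∉ Sg → dn K w ∉ T' → dn K w ∈ T → eo w c = 0) :
    S.YR s0 Sg T' c :=
  ⟨h.hh, h.fin, h.inf, fun w h1 h2 => by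
    by_cases h3 : dn K w ∈ T
    · exact h' w h1 h2 h3
    · exact h.ev w h1 h3⟩

theorem real_B (hok : S.Ok 1 Sg) (hcl : ClOk K Sg) {s0 : K →+* ℝ}
    (hs : 0 < s0 (-(4 * a ^ 3 + 27 * b ^ 2))) {x : SC L} (hx : S.V 1 x) (hx0 : x ≠ 0) :
    ∃ δ : K, δ ≠ 0 ∧ (∀ u ∈ Sg, IsSquare (algebraMap K (u.adicCompletion K) δ)) ∧
      ∃ m n : ℕ, Nat.card {c : SC L // S.V 1 c} = 2 ^ m ∧ Nat.card {c : SC L // S.V δ c} = 2 ^ n ∧
        Even (m + n + 1) := by
  have h2 : ∀ v : HeightOneSpectrum (𝓞 K), v ∉ Sg → v.valuation K 2 = 1 := hok.two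
  have hcub : Cub K L a b θ := S.cub
  obtain ⟨t1, t2, t3, R⟩ := exists_real3 hcub hs
  -- the Selmer group
  obtain ⟨V1, hV1⟩ := exists_VG S (one_ne_zero (α := K))
  have V1f : Finite V1 :=
    ((fin_V S (one_ne_zero (α := K))).subset fun c hc => (hV1 c).1 hc).to_subtype
  have hVH : ∀ c ∈ V1, c ∈ H30ZO.HH K L := fun c hc => ((hV1 c).1 hc).hh
  -- the functionals
  have hd0 : -(4 * a ^ 3 + 27 * b ^ 2) ≠ 0 := neg_ne_zero.2 S.dne
  have hdne : sc (-(4 * a ^ 3 + 27 * b ^ 2)) ≠ 0 := fun h => S.dsq ((H38T1.sc_eq_zero hd0).1 h)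
  obtain ⟨χ1, hχ1⟩ := H76OD.exists_fun hdne
  obtain ⟨χ2, hχ2⟩ : ∃ χ2 : SC K →+ ZMod 2, ∀ β, χ2 β = si s0 β + χ1 β :=
    ⟨AddMonoidHom.mk' (si s0) (H38T1.si_add s0) + χ1, fun β => rfl⟩
  have hχ2' : χ2 (sc (-(4 * a ^ 3 + 27 * b ^ 2))) = 1 := by
    rw [hχ2, hχ1, H38T1.si_sc s0 hd0, (Ih_sw s0 hd0).1.2 hs, zero_add]
  obtain ⟨φ, hφ⟩ := H76OD.exists_fun hx0
  have hB : (H24TD.US K (Sg : Set (HeightOneSpectrum (𝓞 K))) : Set (SC K)).Finite := by
    have : Finite (H24TD.US K (Sg : Set (HeightOneSpectrum (𝓞 K)))) :=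
      Nat.finite_of_card_ne_zero (by
        rw [H88T7.card_US7 Sg.finite_toSet]
        positivity)
    exact Set.toFinite _
  obtain ⟨P1, hP1X, hP1V, hP1B⟩ := exists_spK S Sg Sg V1 V1f hVH φ hB χ1 hχ1
  obtain ⟨P2, hP2X, hP2V, hP2B⟩ := exists_spK S Sg (insert P1.q Sg) V1 V1f hVH φ hB χ2 hχ2'
  have hxV : x ∈ V1 := (hV1 x).2 hx
  have hfl1 : P1.fl x ≠ 0 := by
    rw [(hP1V x hxV).2]
    exact Ih_el S hφ
  have hfl2 : P2.fl x ≠ 0 := by
    rw [(hP2V x hxV).2]
    exact Ih_el S hφ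
  have hq12 : P1.q ≠ P2.q := fun h => hP2X (Finset.mem_insert.2 (Or.inl h.symm))
  have hq2 : P2.q ∉ Sg := fun h => hP2X (Finset.mem_insert_of_mem h)
  have hP12 : P1 ≠ P2 := fun h => hq12 (by rw [h])
  -- the element
  obtain ⟨δ, hδ0, hδT, hδo, hδs, hδr⟩ := exists_delta h2 hcl {P1.q, P2.q} (by
    intro q hq
    rw [Finset.mem_insert, Finset.mem_singleton] at hq
    rcases hq with rfl | rfl
    · exact hP1X
    · exact hq2) (fun s => if s = s0 then 1 else 0) (by
    intro β hβ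
    rw [Finset.sum_pair hq12, hP1B β hβ, hP2B β hβ, hχ2]
    simp only [ite_mul, one_mul, zero_mul, Finset.sum_ite_eq', Finset.mem_univ, if_true]
    rw [add_left_comm, CharTwo.add_self_eq_zero, add_zero])
  have hneg : s0 δ < 0 := by
    have h := hδr s0
    rw [if_pos rfl, H38T1.si_sc s0 hδ0] at h
    exact (Ih_sw s0 hδ0).2.1 h
  obtain ⟨T0, hT0⟩ : ∃ T0 : Finset (Sp S Sg), T0 = {P1, P2} := ⟨_, rfl⟩
  have hT0i : T0.image Sp.q = {P1.q, P2.q} := by
    rw [hT0, Finset.image_insert, Finset.image_singleton]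
  have hRay : RayS K Sg (T0.image Sp.q) s0 δ := by
    rw [hT0i]
    refine ⟨hδ0, fun q hq => ?_, fun u h3 h4 => hδo u h3 h4, hδs, hneg, fun s hs1 => ?_⟩
    · rw [hδT q hq]
      exact odd_one
    · have h := hδr s
      rw [if_neg hs1, H38T1.si_sc s hδ0] at h
      exact (Ih_sw s hδ0).1.1 h
  -- special primes for all classes
  have hex : ∀ y : V1, ∃ P : Sp S Sg, (∀ c ∈ V1, P.tr c = 0) ∧ (y.1 ≠ 0 → P.fl y.1 ≠ 0) := by
    intro y
    by_cases hy : y.1 = 0
    · exact ⟨P1, fun c hc => (hP1V c hc).1, fun h => absurd hy h⟩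
    · obtain ⟨φy, hφy⟩ := H76OD.exists_fun hy
      obtain ⟨P, -, hPV, -⟩ := exists_spK S Sg ∅ V1 V1f hVH φy (B := ∅) Set.finite_empty χ1 hχ1
      refine ⟨P, fun c hc => (hPV c hc).1, fun _ => ?_⟩
      rw [(hPV _ y.2).2]
      exact Ih_el S hφy
  choose Py hPy1 hPy2 using hex
  have V1ft : Fintype V1 := Fintype.ofFinite V1
  obtain ⟨T, hT⟩ : ∃ T : Finset (Sp S Sg), T = T0 ∪ Finset.univ.image Py := ⟨_, rfl⟩
  have hP1T : P1 ∈ T := by
    rw [hT, hT0]
    exact Finset.mem_union_left _ (Finset.mem_insert_self _ _)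
  have hP2T : P2 ∈ T := by
    rw [hT, hT0]
    exact Finset.mem_union_left _ (Finset.mem_insert_of_mem (Finset.mem_singleton_self _))
  have hPyT : ∀ y, Py y ∈ T := by
    intro y
    rw [hT]
    exact Finset.mem_union_right _ (Finset.mem_image_of_mem _ (Finset.mem_univ y))
  have hTtr : ∀ P ∈ T, ∀ c ∈ V1, P.tr c = 0 := by
    intro P hP c hc
    rw [hT, hT0, Finset.mem_union, Finset.mem_insert, Finset.mem_singleton,
      Finset.mem_image] at hP
    rcases hP with (rfl | rfl) | ⟨y, -, rfl⟩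
    · exact (hP1V c hc).1
    · exact (hP2V c hc).1
    · exact hPy1 y c hc
  -- the relaxed group
  obtain ⟨W, hWf, hW⟩ := exists_YR S s0 Sg (T.image Sp.q)
  have hWH : ∀ c ∈ W, c ∈ H30ZO.HH K L := fun c hc => ((hW c).1 hc).hh
  obtain ⟨r, hr⟩ : ∃ r : Option {P // P ∈ T} → W →+ ZMod 2, (∀ c : W, r none c = si t1 c.1) ∧
      ∀ (P : {P // P ∈ T}) (c : W), r (some P) c = eo P.1.t2 c.1 := by
    refine ⟨fun j => match j with
      | none => AddMonoidHom.mk' (fun c : W => si t1 c.1) fun c c' => H38T1.si_add t1 c.1 c'.1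
      | some P => AddMonoidHom.mk' (fun c : W => eo P.1.t2 c.1)
          fun c c' => H38T1.eo_add P.1.t2 c.1 c'.1, fun _ => rfl, fun _ _ => rfl⟩
  obtain ⟨hr0, hr1⟩ := hr
  obtain ⟨u, hu⟩ : ∃ u : Option {P // P ∈ T} → W →+ ZMod 2, (∀ c : W, u none c = si t3 c.1) ∧
      ∀ (P : {P // P ∈ T}) (c : W), u (some P) c = la P.1.t1 c.1 + P.1.nu * eo P.1.t2 c.1 := by
    refine ⟨fun j => match j with
      | none => AddMonoidHom.mk' (fun c : W => si t3 c.1) fun c c' => H38T1.si_add t3 c.1 c'.1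
      | some P => AddMonoidHom.mk' (fun c : W => la P.1.t1 c.1 + P.1.nu * eo P.1.t2 c.1)
          fun c c' => by
            change la P.1.t1 (c.1 + c'.1) + P.1.nu * eo P.1.t2 (c.1 + c'.1) = _
            rw [H38T1.eo_add, H38T1.la_add (P.1.odd h2).2.1]
            ring, fun _ => rfl, fun _ _ => rfl⟩
  obtain ⟨hu0, hu1⟩ := hu
  -- all conditions of the first kind
  have hV1W : ∀ c : W, (∀ j, r j c = 0) ↔ S.V 1 c.1 := by
    intro c
    have hcY := (hW c.1).1 c.2
    have hone : 0 < s0 (1 : K) := by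
      rw [map_one]
      exact one_pos
    constructor
    · intro h
      refine (RS_V1 hok s0 c.1).2 ⟨Ih_YR hcY fun w h3 _ h5 => ?_, (Lr_pos S R hone hcY.hh).2 ?_⟩
      · obtain ⟨P, hP, hPw⟩ := Finset.mem_image.1 h5
        exact Ih_ev h2 P hcY.hh ((hr1 ⟨P, hP⟩ c).symm.trans (h _)) hPw.symm
      · rw [← hr0 c]
        exact h none
    · intro h j
      have hcV : c.1 ∈ V1 := (hV1 _).2 h
      rcases j with - | P
      · rw [hr0]
        exact (Lr_pos S R hone hcY.hh).1 (h.inf s0)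
      · rw [hr1]
        exact (Ih_tr P.1 c.1).1 (hTtr P.1 P.2 _ hcV)
  -- parity
  obtain ⟨A, hA⟩ : ∃ A : Finset (Option {P // P ∈ T}),
      A = {none, some ⟨P1, hP1T⟩, some ⟨P2, hP2T⟩} := ⟨_, rfl⟩
  have hAc : A.card = 3 := by
    rw [hA]
    refine Finset.card_eq_three.2 ⟨_, _, _, ?_, ?_, ?_, rfl⟩
    · exact (Option.some_ne_none _).symm
    · exact (Option.some_ne_none _).symm
    · intro h
      exact hP12 (congrArg Subtype.val (Option.some.inj h))
  obtain ⟨m, n, hm, hn, hmn⟩ := parity (Y := W) (fun c => by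
      rw [← two_nsmul]
      exact Subtype.ext (H38T1.SC.two_smul c.1)) r u
    (fun c => by
      rw [Fintype.sum_option, hr0, hu0]
      have h := rec_real hok R T ((hW c.1).1 c.2)
      rw [add_comm, ← h]
      congr 1
      rw [← Finset.sum_coe_sort T (fun P => eo P.t2 c.1 * (la P.t1 c.1 + P.nu * eo P.t2 c.1))]
      refine Finset.sum_congr rfl fun P _ => ?_
      rw [hr1, hu1])
    (fun c h3 h4 => by
      have hcV : c.1 ∈ V1 := (hV1 _).2 ((hV1W c).1 h3)
      by_contra hc0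
      have hc1 : c.1 ≠ 0 := fun h => hc0 (Subtype.ext h)
      refine hPy2 ⟨c.1, hcV⟩ hc1 ((Ih_fl _ _).2 ?_)
      exact (hu1 ⟨Py ⟨c.1, hcV⟩, hPyT _⟩ c).symm.trans (h4 _))
    (by
      rw [Fintype.card_option, Fintype.card_coe]
      exact card_YR hok R T hW) A
  refine ⟨δ, hδ0, hδs, m, n, ?_, ?_, ?_⟩
  · rw [← hm]
    refine Ih_card (fun c hc => ?_) fun c => ?_
    · refine (hW c).2 (Ih_YR ((RS_V1 hok s0 c).1 hc).1 fun w _ _ h5 => ?_)
      exact absurd h5 (Finset.notMem_empty _)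
    · rw [← hV1W c]
      constructor
      · intro h j
        exact h.1 j (Finset.notMem_empty _)
      · intro h
        exact ⟨fun j _ => h j, fun j hj => absurd hj (Finset.notMem_empty _)⟩
  · rw [← hn]
    have hT0x : ∀ P ∈ T0, ∃ x ∈ H30ZO.HH K L, P.fl x ≠ 0 := by
      intro P hP
      rw [hT0, Finset.mem_insert, Finset.mem_singleton] at hP
      rcases hP with rfl | rfl
      · exact ⟨x, hx.hh, hfl1⟩
      · exact ⟨x, hx.hh, hfl2⟩
    have hT0T : T0 ⊆ T := by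
      rw [hT]
      exact Finset.subset_union_left
    have hmemA : ∀ P : {P // P ∈ T}, some P ∈ A ↔ P.1 ∈ T0 := by
      intro P
      rw [hA, hT0, Finset.mem_insert, Finset.mem_insert, Finset.mem_singleton, Finset.mem_insert,
        Finset.mem_singleton]
      constructor
      · rintro (h | h | h)
        · exact absurd h (Option.some_ne_none _)
        · exact Or.inl (congrArg Subtype.val (Option.some.inj h))
        · exact Or.inr (congrArg Subtype.val (Option.some.inj h))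
      · rintro (h | h)
        · exact Or.inr (Or.inl (congrArg some (Subtype.ext h)))
        · exact Or.inr (Or.inr (congrArg some (Subtype.ext h)))
    have hnA : none ∈ A := by
      rw [hA]
      exact Finset.mem_insert_self _ _
    refine Ih_card (fun c hc => ?_) fun c => ?_
    · refine (hW c).2 (Ih_YR ((RS_V hok hRay hT0x).1 hc).1 fun w _ h4 h5 => ?_)
      exact absurd (Finset.image_subset_image hT0T h5) h4
    · have hcY := (hW c.1).1 c.2
      rw [RS_V hok hRay hT0x, Lr_neg S R hneg hcY.hh]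
      constructor
      · rintro ⟨h3, h4⟩
        refine ⟨Ih_YR hcY fun w _ h6 h7 => ?_, ?_, fun P hP => ?_⟩
        · obtain ⟨P, hP, hPw⟩ := Finset.mem_image.1 h7
          refine Ih_ev h2 P hcY.hh ((hr1 ⟨P, hP⟩ c).symm.trans (h3 _ fun h => h6 ?_)) hPw.symm
          rw [← hPw]
          exact Finset.mem_image_of_mem _ ((hmemA ⟨P, hP⟩).1 h)
        · rw [← hu0 c]
          exact h4 _ hnA
        · refine (Ih_fl _ _).2 ((hu1 ⟨P, hT0T hP⟩ c).symm.trans (h4 _ ?_))
          exact (hmemA ⟨P, hT0T hP⟩).2 hP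
      · rintro ⟨h3, h4, h5⟩
        constructor
        · intro j hj
          rcases j with - | P
          · exact absurd hnA hj
          · rw [hr1]
            refine h3.ev P.1.t2 ?_ ?_
            · rw [P.1.tw.dn2]
              have h6 := P.1.out
              rwa [dn_self] at h6
            · intro h6
              obtain ⟨P', hP', hq⟩ := Finset.mem_image.1 h6
              refine hj ((hmemA P).2 ?_)
              have h7 : P'.q = P.1.q := by
                rw [hq, P.1.tw.dn2]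
                exact (dn_self P.1.v).symm
              rw [← Sp_eq h7]
              exact hP'
        · intro j hj
          rcases j with - | P
          · rw [hu0]
            exact h4
          · rw [hu1]
            exact (Ih_fl _ _).1 (h5 P.1 ((hmemA P).1 hj))
  · rw [hAc] at hmn
    have h3 : m + n + 3 = (m + n + 1) + 2 := by ring
    rw [h3] at hmn
    exact (Nat.even_add.1 hmn).2 even_two

end H88OD
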