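import Pool.Agent.H88.RE.Ig
import Pool.Agent.H88.RE.Ih

/-!
ROW Ii (project MP_78d38b_OD, about 80 lines): a base field with a real place (`F = K`).  Use the STATEMENTS of Ig (real_A), Ih (real_B), Ib (exists_cl), and `exists_ok` (Pool/Agent/H88/OD/Fa.lean, copy it if the import is inconvenient).

PROOF. `Sg ⊇ Sg0` with `S.Ok 1 Sg` and `ClOk K Sg` (exists_cl gives `Sg1 ⊇ Sg0`, then exists_ok gives `Sg ⊇ Sg1`). `V1 := {c // S.V 1 c}` is finite, `x + x = 0`, so `Nat.card V1 = 2 ^ m` (`Pool/Agent/H88/OD/Lp.lean`: the subgroup and its finiteness). If `m = 2 k`: `D := 1`, `2 ^ (2 k) = 4 ^ k`. If `m` is odd: `V1 ≠ 0`, so there is `x ≠ 0`. `s0 (-(4 a^3 + 27 b^2)) ≠ 0` (`S.dne`). If it is negative: real_A, `Nat.card V_δ = 2 ^ (m - 1)`. If it is positive: real_B, `n` is even.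
-/

set_option autoImplicit false
set_option linter.unusedSectionVars false
open scoped Classical

open WithZero NumberField IsDedekindDomain H38RT
open H38T1 (SC sc scu rep eo la si OddP)
open H76PP (Cub LC ev scm dn)

namespace H88OD

variable {K L : Type} [Field K] [NumberField K] [Field L]
  [NumberField L] [Algebra K L] {a b : K} {θ : L}

/-- A finite set of bad primes. -/
private theorem ii_ok (S : Ext K K L a b θ) {D : K} (hD : D ≠ 0)
    (Sg : Finset (HeightOneSpectrum (𝓞 K))) :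
    ∃ Sg' : Finset (HeightOneSpectrum (𝓞 K)), Sg ⊆ Sg' ∧ S.Ok D Sg' := by
  have f2 := H38RT.fin_bad (K := K) (x := 2) two_ne_zero
  have fd := H38RT.fin_bad S.dne
  have fD := H38RT.fin_bad hD
  refine ⟨Sg ∪ (f2.toFinset ∪ (fd.toFinset ∪ fD.toFinset)),
    Finset.subset_union_left, ⟨hD, fun v hv => ?_, fun v hv => ?_, fun v hv => ?_⟩⟩
  all_goals
    simp only [Finset.mem_union, Set.Finite.mem_toFinset, Set.mem_ofPred_eq, not_or, not_not] at hv
  · exact hv.2.1
  · exact hv.2.2.1
  · exact hv.2.2.2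

/-- The order of the two-Selmer group is a power of two. -/
private theorem ii_card (S : Ext K K L a b θ) {D : K} (hD : D ≠ 0) :
    ∃ m : ℕ, Nat.card {c : SC L // S.V D c} = 2 ^ m := by
  obtain ⟨W, hW⟩ := exists_VG S hD
  have hfin : (W : Set (SC L)).Finite := (fin_V S hD).subset fun c hc => (hW c).1 hc
  have hfW : Finite W := hfin.to_subtype
  have hmod : ∀ x : W, (2 : ℕ) • x = 0 := by
    intro x
    apply Subtype.ext
    exact H38T1.SC.two_smul _
  have _inst : Module (ZMod 2) W := AddCommGroup.zmodModule hmod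
  refine ⟨Module.finrank (ZMod 2) W, ?_⟩
  have h1 : Nat.card W = Nat.card (ZMod 2) ^ Module.finrank (ZMod 2) W :=
    Module.natCard_eq_pow_finrank
  rw [Nat.card_zmod] at h1
  rw [← h1]
  exact Nat.card_congr (Equiv.subtypeEquivRight fun c => (hW c).symm)

/-- **If `K` has a real place, some twist has even two-Selmer rank.** -/
theorem exists_even (S : Ext K K L a b θ) (s0 : K →+* ℝ)
    (Sg0 : Finset (HeightOneSpectrum (𝓞 K))) :
    ∃ D : K, D ≠ 0 ∧ (∀ u ∈ Sg0, IsSquare (algebraMap K (u.adicCompletion K) D)) ∧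
      ∃ k : ℕ, Nat.card {c : SC L // S.V D c} = 4 ^ k := by
  obtain ⟨Sg1, h01, hcl⟩ := exists_cl (K := K) Sg0
  obtain ⟨Sg, h12, hok⟩ := ii_ok S (D := 1) one_ne_zero Sg1
  have h02 : Sg0 ⊆ Sg := h01.trans h12
  obtain ⟨m, hm⟩ := ii_card S (D := 1) one_ne_zero
  rcases Nat.even_or_odd m with he | ho
  · obtain ⟨k, hk⟩ := he
    refine ⟨1, one_ne_zero, fun u _ => ?_, k, ?_⟩
    · rw [map_one]
      exact ⟨1, (mul_one 1).symm⟩
    · rw [hm, hk, show (4 : ℕ) = 2 ^ 2 by norm_num, ← pow_mul]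
      congr 1
      omega
  · obtain ⟨k, hk⟩ := ho
    have hx : ∃ x : SC L, S.V 1 x ∧ x ≠ 0 := by
      by_contra hcon
      push Not at hcon
      have h1 : Nat.card {c : SC L // S.V 1 c} ≤ 1 := by
        have : Subsingleton {c : SC L // S.V 1 c} := by
          constructor
          intro x y
          apply Subtype.ext
          rw [hcon _ x.2, hcon _ y.2]
        exact Finite.card_le_one_iff_subsingleton.2 this
      rw [hm, hk] at h1
      have h2 : 2 ^ 1 ≤ 2 ^ (2 * k + 1) := Nat.pow_le_pow_right (by norm_num) (by omega)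
      exact absurd (h2.trans h1) (by norm_num)
    obtain ⟨x, hx, hx0⟩ := hx
    have hne : s0 (-(4 * a ^ 3 + 27 * b ^ 2)) ≠ 0 := (map_ne_zero s0).2 (neg_ne_zero.2 S.dne)
    rcases lt_or_gt_of_ne hne with hs | hs
    · obtain ⟨δ, h1, h2, h3⟩ := real_A hok (hcl Sg h12) hs hx hx0
      refine ⟨δ, h1, fun u hu => h2 u (h02 hu), k, ?_⟩
      rw [hm, hk, pow_succ, pow_mul] at h3
      norm_num at h3
      omega
    · obtain ⟨δ, h1, h2, m', n, h3, h4, h5⟩ := real_B hok (hcl Sg h12) hs hx hx0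
      rw [hm] at h3
      have h6 : m = m' := Nat.pow_right_injective le_rfl h3
      have h7 : Even n := by
        rw [← h6, hk] at h5
        rw [Nat.even_iff] at h5 ⊢
        omega
      obtain ⟨j, hj⟩ := h7
      refine ⟨δ, h1, fun u hu => h2 u (h02 hu), j, ?_⟩
      rw [h4, hj, show (4 : ℕ) = 2 ^ 2 by norm_num, ← pow_mul]
      congr 1
      omega

end H88OD
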